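import Pool.Agent.H9.GT.Defs

/-!
# Arithmetic (job GT-ARITH)

`jInv_conj`: `l, l'` algebraic with the same minimal polynomial; there is an isomorphism of
`ℚ⟮l⟯` with `ℚ⟮l'⟯` mapping `l` to `l'` (`IntermediateField.adjoin` / `minpoly.algEquiv` /
`Field.exists_algEquiv...`), it maps `jInv l` to `jInv l'`; minimal polynomials are invariant.
(An alternative: `l' = σ l` for an automorphism `σ` of `ℂ` over `ℚ`, or of `AlgebraicClosure ℚ`.)

`lastStep_exists`: three distinct rational numbers `p < q < r`: `(q - p)/(r - p) = m/(m+n)` with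
`m, n` positive integers, `a = 1/(r - p)`, `b = -p/(r - p)`.
-/

set_option autoImplicit false

open Polynomial Set

namespace Pool.Agent.H9.GT

theorem arith_deg {k : ℕ} (hk : 0 < k) (h D : ℚ) :
    ((X - C h) ^ k - C D : ℚ[X]).natDegree = k := by
  have h1 : ((X - C h) ^ k : ℚ[X]).natDegree = k := by
    rw [natDegree_pow, natDegree_X_sub_C, mul_one]
  rw [natDegree_sub_eq_left_of_natDegree_lt, h1]
  rw [natDegree_C, h1]; exact hk

theorem arith_int {l : ℂ} {k : ℕ} (hk : 0 < k) {h D : ℚ}
    (hmin : minpoly ℚ l = (X - C h) ^ k - C D) : IsIntegral ℚ l := by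
  by_contra hn
  have h0 := minpoly.eq_zero hn
  have h1 := arith_deg hk h D
  rw [← hmin, h0, natDegree_zero] at h1
  omega

theorem jInv_conj {l l' : ℂ} (hl : IsIntegral ℚ l) (h : minpoly ℚ l' = minpoly ℚ l) :
    minpoly ℚ (jInv l') = minpoly ℚ (jInv l) := by
  classical
  have hint' : IsIntegral ℚ l' := by
    by_contra hn
    rw [minpoly.eq_zero hn] at h
    exact minpoly.ne_zero hl h.symm
  have hroot : aeval l' (minpoly ℚ l) = 0 := by rw [← h]; exact minpoly.aeval ℚ l'
  have hmem : l' ∈ (minpoly ℚ l).aroots ℂ := by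
    rw [mem_aroots]
    exact ⟨minpoly.ne_zero hl, hroot⟩
  let φ : IntermediateField.adjoin ℚ {l} →ₐ[ℚ] ℂ :=
    (IntermediateField.algHomAdjoinIntegralEquiv ℚ hl).symm ⟨l', hmem⟩
  have hφ : φ (IntermediateField.AdjoinSimple.gen ℚ l) = l' :=
    IntermediateField.algHomAdjoinIntegralEquiv_symm_apply_gen ℚ hl ⟨l', hmem⟩
  let g : IntermediateField.adjoin ℚ {l} := IntermediateField.AdjoinSimple.gen ℚ l
  have hg : ((g : IntermediateField.adjoin ℚ {l}) : ℂ) = l :=
    IntermediateField.AdjoinSimple.coe_gen ℚ l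
  let J : IntermediateField.adjoin ℚ {l} := 256 * (g ^ 2 - g + 1) ^ 3 / (g ^ 2 * (g - 1) ^ 2)
  have e1 : (IntermediateField.adjoin ℚ {l}).val J = jInv l := by
    simp only [J, map_div₀, map_mul, map_pow, map_sub, map_add, map_one, map_ofNat]
    simp only [IntermediateField.coe_val, hg]
    rfl
  have e2 : φ J = jInv l' := by
    simp only [J, map_div₀, map_mul, map_pow, map_sub, map_add, map_one, map_ofNat]
    have : φ g = l' := hφ
    rw [this]
    rfl
  rw [← e1, ← e2]
  exact (minpoly.algHom_eq φ φ.injective J).trans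
    (minpoly.algHom_eq (IntermediateField.adjoin ℚ {l}).val
      (IntermediateField.adjoin ℚ {l}).val.injective J).symm

theorem arith_last {p q r : ℚ} (h1 : p < q) (h2 : q < r) :
    ∃ T, LastStep {p, q, r} T := by
  have hr : (0 : ℚ) < r - p := by linarith
  set x : ℚ := (q - p) / (r - p) with hx
  have hx0 : 0 < x := div_pos (by linarith) hr
  have hx1 : x < 1 := by rw [hx, div_lt_one hr]; linarith
  have hnum : 0 < x.num := Rat.num_pos.mpr hx0
  obtain ⟨m, hm⟩ : ∃ m : ℕ, (m : ℤ) = x.num := ⟨x.num.toNat, Int.toNat_of_nonneg hnum.le⟩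
  have hm0 : 0 < m := by omega
  have hlt : x.num < x.den := by
    have := Rat.num_div_den x
    have hden : (0 : ℚ) < x.den := by exact_mod_cast x.den_pos
    rw [← this, div_lt_one hden] at hx1
    exact_mod_cast hx1
  obtain ⟨n, hn⟩ : ∃ n : ℕ, x.den = m + n := ⟨x.den - m, by omega⟩
  have hn0 : 0 < n := by omega
  have hxm : x = (m : ℚ) / (m + n : ℕ) := by
    rw [← hn]
    conv_lhs => rw [← Rat.num_div_den x]
    rw [← hm, Int.cast_natCast]
  refine ⟨_, 1 / (r - p), - p / (r - p), m, n, ?_, hm0, hn0, ?_, rfl⟩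
  · exact one_div_ne_zero hr.ne'
  · rw [image_insert_eq, image_insert_eq, image_singleton]
    have a1 : 1 / (r - p) * p + -p / (r - p) = 0 := by
      field_simp; ring
    have a2 : 1 / (r - p) * q + -p / (r - p) = (m : ℚ) / (m + n : ℕ) := by
      rw [← hxm, hx]; field_simp; ring
    have a3 : 1 / (r - p) * r + -p / (r - p) = 1 := by
      field_simp; ring
    rw [a1, a2, a3]

theorem lastStep_exists {p q r : ℚ} (h1 : p ≠ q) (h2 : p ≠ r) (h3 : q ≠ r) :
    ∃ T, LastStep {p, q, r} T := by
  rcases lt_or_gt_of_ne h1 with a | a <;> rcases lt_or_gt_of_ne h2 with b | b <;>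
    rcases lt_or_gt_of_ne h3 with c | c
  · exact arith_last a c
  · have := arith_last b c
    have e : ({p, r, q} : Set ℚ) = {p, q, r} := by ext z; simp only [mem_insert_iff, mem_singleton_iff]; tauto
    rwa [e] at this
  · exact absurd (a.trans c) (not_lt.mpr b.le)
  · have := arith_last b a
    have e : ({r, p, q} : Set ℚ) = {p, q, r} := by ext z; simp only [mem_insert_iff, mem_singleton_iff]; tauto
    rwa [e] at this
  · have := arith_last a b
    have e : ({q, p, r} : Set ℚ) = {p, q, r} := by ext z; simp only [mem_insert_iff, mem_singleton_iff]; tauto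
    rwa [e] at this
  · exact absurd (b.trans c) (not_lt.mpr a.le)
  · have := arith_last c b
    have e : ({q, r, p} : Set ℚ) = {p, q, r} := by ext z; simp only [mem_insert_iff, mem_singleton_iff]; tauto
    rwa [e] at this
  · have := arith_last c a
    have e : ({r, q, p} : Set ℚ) = {p, q, r} := by ext z; simp only [mem_insert_iff, mem_singleton_iff]; tauto
    rwa [e] at this

/-- the set of the second stage of the algorithm consists of three rational numbers -/
theorem stage_two {l : ℂ} (hl0 : l ≠ 0) (hl1 : l ≠ 1) {k : ℕ} (hk : 0 < k) {h D : ℚ}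
    (hh : h = 0 ∨ h = 1 ∨ (h = 1 / 2 ∧ Even k)) (hmin : minpoly ℚ l = (X - C h) ^ k - C D) :
    ∃ p q r : ℚ, p ≠ q ∧ p ≠ r ∧ q ≠ r ∧
      ({(minpoly ℚ l).eval 0, (minpoly ℚ l).eval 1, 0, -D} : Set ℚ) = {p, q, r} := by
  have hint := arith_int hk hmin
  have e0 : (minpoly ℚ l).eval 0 ≠ 0 := by
    intro hz
    have := minpoly.root hint (y := 0) hz
    rw [map_zero] at this
    exact hl0 this.symm
  have e1 : (minpoly ℚ l).eval 1 ≠ 0 := by
    intro hz
    have := minpoly.root hint (y := 1) hz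
    rw [map_one] at this
    exact hl1 this.symm
  have f0 : (minpoly ℚ l).eval 0 = (-h) ^ k - D := by
    rw [hmin]; simp
  have f1 : (minpoly ℚ l).eval 1 = (1 - h) ^ k - D := by
    rw [hmin]; simp
  rcases hh with rfl | rfl | ⟨rfl, hev⟩
  · have g0 : (minpoly ℚ l).eval 0 = - D := by rw [f0, neg_zero, zero_pow hk.ne']; ring
    have g1 : (minpoly ℚ l).eval 1 = 1 - D := by rw [f1]; simp
    refine ⟨-D, 1 - D, 0, ?_, ?_, ?_, ?_⟩
    · intro hz; linarith
    · rw [← g0]; exact e0
    · rw [← g1]; exact e1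
    · rw [g0, g1]
      ext z; simp only [mem_insert_iff, mem_singleton_iff]; tauto
  · have g1 : (minpoly ℚ l).eval 1 = - D := by rw [f1, sub_self, zero_pow hk.ne']; ring
    refine ⟨(minpoly ℚ l).eval 0, - D, 0, ?_, e0, ?_, ?_⟩
    · rw [f0]
      intro hz
      have : ((-1 : ℚ)) ^ k = 0 := by linarith
      exact absurd (pow_eq_zero_iff hk.ne' |>.mp this) (by norm_num)
    · rw [← g1]; exact e1
    · rw [g1]
      ext z; simp only [mem_insert_iff, mem_singleton_iff]; tauto
  · have g0 : (minpoly ℚ l).eval 0 = (1 / 2) ^ k - D := by rw [f0, hev.neg_pow]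
    have g1 : (minpoly ℚ l).eval 1 = (1 / 2) ^ k - D := by rw [f1]; norm_num
    have hD : D ≠ 0 := by
      rintro rfl
      have hr : (minpoly ℚ l).IsRoot (1 / 2) := by
        rw [IsRoot.def, hmin]; simp [hk.ne']
      have hl := minpoly.root hint hr
      have hd := arith_deg hk (1 / 2 : ℚ) 0
      rw [← hmin, ← hl, minpoly.eq_X_sub_C, natDegree_X_sub_C] at hd
      rw [← hd] at hev
      exact absurd hev (by decide)
    refine ⟨(1 / 2) ^ k - D, 0, -D, ?_, ?_, ?_, ?_⟩
    · rw [← g0]; exact e0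
    · intro hz
      have : ((1 / 2 : ℚ)) ^ k = 0 := by linarith
      exact absurd (pow_eq_zero_iff hk.ne' |>.mp this) (by norm_num)
    · intro hz
      exact hD (by linarith)
    · rw [g0, g1]
      ext z; simp only [mem_insert_iff, mem_singleton_iff]; tauto

/-- A root of the minimal polynomial has the same minimal polynomial. -/
theorem minpoly_of_pow {l l' : ℂ} {k : ℕ} (hk : 0 < k) {h D : ℚ}
    (hmin : minpoly ℚ l = (X - C h) ^ k - C D) (hl : (l' - h) ^ k = (l - h) ^ k) :
    minpoly ℚ l' = minpoly ℚ l := by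
  have hint := arith_int hk hmin
  symm
  refine minpoly.eq_of_irreducible_of_monic (minpoly.irreducible hint) ?_ (minpoly.monic hint)
  have h1 : aeval l (minpoly ℚ l) = 0 := minpoly.aeval ℚ l
  have key : ∀ z : ℂ, aeval z (minpoly ℚ l) = (z - h) ^ k - D := by
    intro z
    rw [hmin]; simp
  rw [key] at h1 ⊢
  rw [hl]; exact h1

end Pool.Agent.H9.GT
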