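import Pool.Agent.H9.GT.Ev

/-!
# The base level: two cycles joined by a transposition (job GT-BASE)

`s0` has exactly the two cycles of `zm` and `zp`, and `s1 = swap zm zp`.

`base_trans`: `s0` moves `x` to `zm` or to `zp`, `s1` interchanges them.

`base_iso`: `g = f(s0, s1)`. `F.Y s0 s1 = g⁻¹ * μ.pow s1 * g`, and `μ.pow s1 = s1` because
`orderOf s1 = 2` and `μ.r 2` is odd (coprime to 2). So `F.Y s0 s1 = swap (g⁻¹ zm) (g⁻¹ zp)`.
`v0` is invariant under `F.X s0 s1 = μ.pow s0` (`pow_sameCycle`). If `v0 (g⁻¹ zm) = v0 (g⁻¹ zp)`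
then `v0` would be invariant under `F.Y s0 s1` too, hence under `closure {F.X, F.Y} =
closure {s0, s1}` (`closure_eq`), but `s1` maps `zm` to `zp`: contradiction. So one of the points
`g⁻¹ zm, g⁻¹ zp`, call it `um`, has `v0 um = v0 zm`, and the other one, `up`, has
`v0 up = v0 zp`. Every `w` with `v0 w = v0 zm` is `(F.X s0 s1) ^ j um` for some `j`; put
`τ w = s0 ^ j zm` (well defined because the minimal period of `um` under `μ.pow s0` is its minimal
period under `s0`, which is the number of points with `v0 = v0 zm`, the minimal period of `zm`;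
if `j, j'` give the same point then they are congruent modulo this period). In the same way for
the cycle of `zp`. `τ` is injective, so it is a permutation, `τ ∘ F.X = s0 ∘ τ`, `τ um = zm`,
`τ up = zp`, `v0 (τ w) = v0 w`, hence `τ ∘ F.Y = s1 ∘ τ`, and `τ w ∈ {zm, zp} ↔ w ∈ {um, up} ↔
g w ∈ {zm, zp}`.
-/

set_option autoImplicit false

namespace Pool.Agent.H9.GT

open Equiv

theorem base_trans {Ω C0 : Type} [Finite Ω] [DecidableEq Ω] (s0 s1 : Perm Ω) (v0 : Ω → C0)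
    (h0 : ∀ x y, v0 x = v0 y ↔ s0.SameCycle x y) (zm zp : Ω)
    (hall : ∀ x, v0 x = v0 zm ∨ v0 x = v0 zp) (hs1 : s1 = Equiv.swap zm zp) (x y : Ω) :
    ∃ g ∈ Subgroup.closure {s0, s1}, g x = y := by
  have hm0 : s0 ∈ Subgroup.closure {s0, s1} := Subgroup.subset_closure (by simp)
  have hm1 : s1 ∈ Subgroup.closure {s0, s1} := Subgroup.subset_closure (by simp)
  have key : ∀ x, ∃ g ∈ Subgroup.closure {s0, s1}, g x = zm := by
    intro x
    rcases hall x with h | h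
    · obtain ⟨i, hi⟩ := (h0 x zm).1 h
      exact ⟨s0 ^ i, Subgroup.zpow_mem _ hm0 i, hi⟩
    · obtain ⟨i, hi⟩ := (h0 x zp).1 h
      refine ⟨s1 * s0 ^ i, Subgroup.mul_mem _ hm1 (Subgroup.zpow_mem _ hm0 i), ?_⟩
      rw [Perm.mul_apply, hi, hs1, Equiv.swap_apply_right]
  obtain ⟨g, hg, hgx⟩ := key x
  obtain ⟨k, hk, hky⟩ := key y
  refine ⟨k⁻¹ * g, Subgroup.mul_mem _ (Subgroup.inv_mem _ hk) hg, ?_⟩
  rw [Perm.mul_apply, hgx, ← hky, ← Perm.mul_apply, inv_mul_cancel, Perm.one_apply]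

theorem baseZ_zpow_fix {Ω : Type} (p : Perm Ω) (x : Ω) (j : ℤ) :
    (p ^ j) x = x ↔ ((Function.minimalPeriod (⇑p) x : ℕ) : ℤ) ∣ j :=
  MulAction.zpow_smul_eq_iff_period_dvd (g := p) (a := x) (j := j)

theorem baseZ_fix_iff (μ : ZHatUnit) {Ω : Type} [Finite Ω] (s : Perm Ω) (u z : Ω)
    (h : s.SameCycle u z) (j : ℤ) : ((μ.pow s) ^ j) u = u ↔ (s ^ j) z = z := by
  rw [baseZ_zpow_fix, pow_period, ← baseZ_zpow_fix]
  obtain ⟨i, rfl⟩ := h
  rw [← Perm.mul_apply, (Commute.refl s).zpow_zpow j i |>.eq, Perm.mul_apply,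
    EmbeddingLike.apply_eq_iff_eq]

theorem baseZ_zpow_eq_iff {Ω : Type} (p q : Perm Ω) (u z : Ω)
    (h : ∀ j : ℤ, (p ^ j) u = u ↔ (q ^ j) z = z) (i j : ℤ) :
    (p ^ i) u = (p ^ j) u ↔ (q ^ i) z = (q ^ j) z := by
  have e : ∀ (p : Perm Ω) (u : Ω), (p ^ i) u = (p ^ j) u ↔ (p ^ (i - j)) u = u := by
    intro p u
    have : i = j + (i - j) := by ring
    constructor
    · intro h1
      have h2 : (p ^ j) ((p ^ (i - j)) u) = (p ^ j) u := by
        rw [← Perm.mul_apply, ← zpow_add, ← this, h1]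
      exact (p ^ j).injective h2
    · intro h1
      conv_lhs => rw [this]
      rw [zpow_add, Perm.mul_apply, h1]
  rw [e, e, h]

theorem base_iso {Ω C0 : Type} [Finite Ω] [DecidableEq Ω] (F : GPair) (hF : F.IsAut)
    (s0 s1 : Perm Ω) (v0 : Ω → C0) (h0 : ∀ x y, v0 x = v0 y ↔ s0.SameCycle x y) (zm zp : Ω)
    (hne : v0 zm ≠ v0 zp) (hall : ∀ x, v0 x = v0 zm ∨ v0 x = v0 zp)
    (hs1 : s1 = Equiv.swap zm zp) :
    ∃ τ : Perm Ω, (∀ w, τ (F.X s0 s1 w) = s0 (τ w)) ∧ (∀ w, τ (F.Y s0 s1 w) = s1 (τ w)) ∧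
      (∀ w, v0 (τ w) = v0 w) ∧
      ∀ w, (τ w = zm ∨ τ w = zp) ↔
        (F.f.ev (Perm Ω) s0 s1 w = zm ∨ F.f.ev (Perm Ω) s0 s1 w = zp) := by
  obtain ⟨g, hg⟩ : ∃ g : Perm Ω, g = F.f.ev (Perm Ω) s0 s1 := ⟨_, rfl⟩
  have hX : F.X s0 s1 = F.mu.pow s0 := rfl
  have hzz : zm ≠ zp := fun h => hne (by rw [h])
  -- the power of the transposition
  have hps1 : F.mu.pow s1 = s1 := by
    have h2 : s1 ^ 2 = 1 := by rw [hs1, pow_two, Equiv.swap_mul_self]
    have h1 : s1 ≠ 1 := by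
      intro h
      have := congrArg (fun p : Perm Ω => p zm) h
      simp only [hs1, Equiv.swap_apply_left, Perm.one_apply] at this
      exact hzz this.symm
    have ho : orderOf s1 = 2 := orderOf_eq_prime h2 h1
    have hodd : ¬ 2 ∣ F.mu.r 2 := by
      have := F.mu.cop 2 (by norm_num)
      intro h
      have h3 := Nat.Coprime.eq_one_of_dvd this.symm h
      omega
    unfold ZHatUnit.pow
    rw [ho]
    have : F.mu.r 2 = 2 * (F.mu.r 2 / 2) + 1 := by omega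
    rw [this, pow_succ, pow_mul, h2, one_pow, one_mul]
  have hY : F.Y s0 s1 = Equiv.swap (g⁻¹ zm) (g⁻¹ zp) := by
    unfold GPair.Y
    rw [hps1, ← hg, Equiv.swap_apply_apply, hs1, inv_inv]
  -- invariance of `v0` under `X`
  have hv0X : ∀ x, v0 (F.X s0 s1 x) = v0 x := by
    intro x
    rw [eq_comm, h0, ← pow_sameCycle F.mu s0, hX]
    exact ⟨1, by simp⟩
  -- the two special points are in different cycles
  have hd : v0 (g⁻¹ zm) ≠ v0 (g⁻¹ zp) := by
    intro h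
    have hv0Y : ∀ x, v0 (F.Y s0 s1 x) = v0 x := by
      intro x
      rw [hY]
      by_cases h1 : x = g⁻¹ zm
      · rw [h1, Equiv.swap_apply_left]; exact h.symm
      · by_cases h2 : x = g⁻¹ zp
        · rw [h2, Equiv.swap_apply_right]; exact h
        · rw [Equiv.swap_apply_of_ne_of_ne h1 h2]
    let K : Subgroup (Perm Ω) :=
      { carrier := {p | ∀ x, v0 (p x) = v0 x}
        mul_mem' := fun {a b} ha hb x => by rw [Perm.mul_apply, ha, hb]
        one_mem' := fun x => rfl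
        inv_mem' := fun {a} ha x => by
          have := ha (a⁻¹ x)
          rw [← Perm.mul_apply, mul_inv_cancel, Perm.one_apply] at this
          exact this.symm }
    have hK : Subgroup.closure {F.X s0 s1, F.Y s0 s1} ≤ K := by
      rw [Subgroup.closure_le]
      rintro p (rfl | hp)
      · exact hv0X
      · rw [Set.mem_singleton_iff] at hp
        subst hp
        exact hv0Y
    have h1 : s1 ∈ K := by
      apply hK
      rw [closure_eq F hF]
      exact Subgroup.subset_closure (by simp)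
    have h2 : v0 (s1 zm) = v0 zm := h1 zm
    rw [hs1, Equiv.swap_apply_left] at h2
    exact hne h2.symm
  obtain ⟨um, up, hum, hup, hswap, hset⟩ : ∃ um up : Ω, v0 um = v0 zm ∧ v0 up = v0 zp ∧
      F.Y s0 s1 = Equiv.swap um up ∧ ∀ w, (w = um ∨ w = up) ↔ (g w = zm ∨ g w = zp) := by
    have e1 : ∀ w z : Ω, w = g⁻¹ z ↔ g w = z := fun w z => Perm.eq_inv_iff_eq
    rcases hall (g⁻¹ zm) with h1 | h1
    · have h2 : v0 (g⁻¹ zp) = v0 zp := by
        rcases hall (g⁻¹ zp) with h2 | h2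
        · exact absurd (h1.trans h2.symm) hd
        · exact h2
      exact ⟨g⁻¹ zm, g⁻¹ zp, h1, h2, hY, fun w => by rw [e1, e1]⟩
    · have h2 : v0 (g⁻¹ zp) = v0 zm := by
        rcases hall (g⁻¹ zp) with h2 | h2
        · exact h2
        · exact absurd (h1.trans h2.symm) hd
      refine ⟨g⁻¹ zp, g⁻¹ zm, h2, h1, by rw [hY, Equiv.swap_comm], fun w => by
        rw [e1, e1, or_comm]⟩
  obtain ⟨P, hP⟩ : ∃ P : Perm Ω, P = F.X s0 s1 := ⟨_, rfl⟩
  have hPs : ∀ x y, P.SameCycle x y ↔ s0.SameCycle x y := by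
    intro x y
    rw [hP, hX, pow_sameCycle]
  have hcm : ∀ i j : ℤ, (P ^ i) um = (P ^ j) um ↔ (s0 ^ i) zm = (s0 ^ j) zm :=
    baseZ_zpow_eq_iff P s0 um zm (fun j => by
      rw [hP, hX]; exact baseZ_fix_iff F.mu s0 um zm ((h0 _ _).1 hum) j)
  have hcp : ∀ i j : ℤ, (P ^ i) up = (P ^ j) up ↔ (s0 ^ i) zp = (s0 ^ j) zp :=
    baseZ_zpow_eq_iff P s0 up zp (fun j => by
      rw [hP, hX]; exact baseZ_fix_iff F.mu s0 up zp ((h0 _ _).1 hup) j)
  have hvP : ∀ (j : ℤ) (x : Ω), v0 ((P ^ j) x) = v0 x := by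
    intro j x
    rw [eq_comm, h0, ← hPs]
    exact ⟨j, rfl⟩
  have hvs : ∀ (j : ℤ) (x : Ω), v0 ((s0 ^ j) x) = v0 x := by
    intro j x
    rw [eq_comm, h0]
    exact ⟨j, rfl⟩
  let R : Ω → Ω → Prop := fun w z =>
    (∃ j : ℤ, w = (P ^ j) um ∧ z = (s0 ^ j) zm) ∨ (∃ j : ℤ, w = (P ^ j) up ∧ z = (s0 ^ j) zp)
  have hRex : ∀ w, ∃ z, R w z := by
    intro w
    rcases hall w with h | h
    · obtain ⟨j, hj⟩ := (hPs um w).2 ((h0 _ _).1 (hum.trans h.symm))
      exact ⟨(s0 ^ j) zm, Or.inl ⟨j, hj.symm, rfl⟩⟩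
    · obtain ⟨j, hj⟩ := (hPs up w).2 ((h0 _ _).1 (hup.trans h.symm))
      exact ⟨(s0 ^ j) zp, Or.inr ⟨j, hj.symm, rfl⟩⟩
  have hRv : ∀ w z, R w z → v0 z = v0 w := by
    rintro w z (⟨j, rfl, rfl⟩ | ⟨j, rfl, rfl⟩)
    · rw [hvP, hvs, hum]
    · rw [hvP, hvs, hup]
  have hRuniq : ∀ w z z', R w z → R w z' → z = z' := by
    rintro w z z' (⟨j, hw, rfl⟩ | ⟨j, hw, rfl⟩) (⟨i, hw', rfl⟩ | ⟨i, hw', rfl⟩)
    · exact (hcm j i).1 (hw.symm.trans hw')
    · exfalso
      have := congrArg v0 (hw.symm.trans hw')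
      rw [hvP, hvP, hum, hup] at this
      exact hne this
    · exfalso
      have := congrArg v0 (hw.symm.trans hw')
      rw [hvP, hvP, hum, hup] at this
      exact hne this.symm
    · exact (hcp j i).1 (hw.symm.trans hw')
  have hRinj : ∀ w w' z, R w z → R w' z → w = w' := by
    rintro w w' z (⟨j, rfl, hw⟩ | ⟨j, rfl, hw⟩) (⟨i, rfl, hw'⟩ | ⟨i, rfl, hw'⟩)
    · exact (hcm j i).2 (hw.symm.trans hw')
    · exfalso
      have := congrArg v0 (hw.symm.trans hw')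
      rw [hvs, hvs] at this
      exact hne this
    · exfalso
      have := congrArg v0 (hw.symm.trans hw')
      rw [hvs, hvs] at this
      exact hne this.symm
    · exact (hcp j i).2 (hw.symm.trans hw')
  choose t ht using hRex
  have htinj : Function.Injective t := fun w w' h => hRinj w w' (t w) (ht w) (h ▸ ht w')
  let τ : Perm Ω := Equiv.ofBijective t (Finite.injective_iff_bijective.1 htinj)
  have hτ : ∀ w, τ w = t w := fun w => rfl
  have hτm : τ um = zm := hRuniq um _ _ (ht um) (Or.inl ⟨0, by simp, by simp⟩)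
  have hτp : τ up = zp := hRuniq up _ _ (ht up) (Or.inr ⟨0, by simp, by simp⟩)
  refine ⟨τ, ?_, ?_, ?_, ?_⟩
  · intro w
    rw [← hP]
    refine hRuniq (P w) _ _ (ht (P w)) ?_
    rcases ht w with ⟨j, hw, hz⟩ | ⟨j, hw, hz⟩
    · refine Or.inl ⟨1 + j, ?_, ?_⟩
      · rw [zpow_add, zpow_one, Perm.mul_apply, ← hw]
      · rw [zpow_add, zpow_one, Perm.mul_apply, ← hz, hτ]
    · refine Or.inr ⟨1 + j, ?_, ?_⟩
      · rw [zpow_add, zpow_one, Perm.mul_apply, ← hw]
      · rw [zpow_add, zpow_one, Perm.mul_apply, ← hz, hτ]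
  · intro w
    rw [hswap, hs1, ← hτm, ← hτp]
    exact τ.injective.map_swap um up w
  · intro w
    exact hRv w (t w) (ht w)
  · intro w
    rw [← hg, ← hset w, ← hτm, ← hτp, τ.injective.eq_iff, τ.injective.eq_iff]

end Pool.Agent.H9.GT
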