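import Pool.Agent.H9.GT.CovPoly

/-!
# The polynomial `c z^m (1 - z)^n` (job GT-BELYI)

`T' = c z^(m-1) (1 - z)^(n-1) (m - (m + n) z)`, so the critical points are `0` (if `m ≥ 2`), `1` (if
`n ≥ 2`) and `m / (m + n)`, with values `0, 0, 1`. The root `m/(m+n)` of `1 - T` is a simple root of
`T'`, so it has multiplicity `2`; all other roots of `1 - T` are simple.
-/

set_option autoImplicit false

open Polynomial Set Filter Topology

namespace Pool.Agent.H9.GT

/-- the polynomial of Belyi over the complex numbers -/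
noncomputable def Tb (m n : ℕ) : ℂ[X] := (belyi m n).map (algebraMap ℚ ℂ)

/-- the critical point `m / (m + n)` -/
noncomputable def cz (m n : ℕ) : ℂ := (m : ℂ) / ((m + n : ℕ) : ℂ)

/-- the leading constant -/
noncomputable def tbC (m n : ℕ) : ℂ := ((m + n : ℕ) : ℂ) ^ (m + n) / ((m : ℂ) ^ m * (n : ℂ) ^ n)

theorem tb_poly (m n : ℕ) : Tb m n = C (tbC m n) * X ^ m * (1 - X) ^ n := by
  unfold Tb belyi tbC
  simp only [Polynomial.map_mul, Polynomial.map_pow, Polynomial.map_sub, Polynomial.map_one,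
    Polynomial.map_X, Polynomial.map_C]
  congr 3
  simp

theorem tbC_ne {m n : ℕ} (hm : 0 < m) (hn : 0 < n) : tbC m n ≠ 0 := by
  have h1 : (m : ℂ) ≠ 0 := Nat.cast_ne_zero.2 hm.ne'
  have h2 : (n : ℂ) ≠ 0 := Nat.cast_ne_zero.2 hn.ne'
  have h3 : ((m + n : ℕ) : ℂ) ≠ 0 := Nat.cast_ne_zero.2 (by omega)
  unfold tbC
  positivity

theorem tb_pz {a : ℂ} {k : ℕ} (h : a ^ k = 0) : a = 0 := by
  by_contra h1
  exact pow_ne_zero k h1 h

theorem tb_eval (m n : ℕ) (z : ℂ) : (Tb m n).eval z =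
    ((m + n : ℕ) : ℂ) ^ (m + n) / ((m : ℂ) ^ m * (n : ℂ) ^ n) * z ^ m * (1 - z) ^ n := by
  rw [tb_poly]
  simp [tbC]

theorem tb_deriv {m n : ℕ} (hm : 0 < m) (hn : 0 < n) : derivative (Tb m n) =
    C (tbC m n) * X ^ (m - 1) * (1 - X) ^ (n - 1) * (C (m : ℂ) - C ((m + n : ℕ) : ℂ) * X) := by
  obtain ⟨a, rfl⟩ : ∃ a, m = a + 1 := ⟨m - 1, by omega⟩
  obtain ⟨b, rfl⟩ : ∃ b, n = b + 1 := ⟨n - 1, by omega⟩
  rw [tb_poly]
  simp only [derivative_mul, derivative_C, derivative_pow, derivative_sub,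
    derivative_one, derivative_X, Nat.add_sub_cancel, zero_mul, zero_add, zero_sub]
  push_cast
  simp only [map_add, map_natCast, map_one]
  ring

theorem tb_deriv_eval {m n : ℕ} (hm : 0 < m) (hn : 0 < n) (z : ℂ) :
    (derivative (Tb m n)).eval z = tbC m n * z ^ (m - 1) * (1 - z) ^ (n - 1) *
      ((m : ℂ) - ((m + n : ℕ) : ℂ) * z) := by
  rw [tb_deriv hm hn]
  simp

theorem tb_zero {m n : ℕ} (hm : 0 < m) (hn : 0 < n) (z : ℂ) :
    (Tb m n).eval z = 0 ↔ z = 0 ∨ z = 1 := by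
  have e : (Tb m n).eval z = tbC m n * z ^ m * (1 - z) ^ n := tb_eval m n z
  rw [e, mul_eq_zero, mul_eq_zero, pow_eq_zero_iff hm.ne', pow_eq_zero_iff hn.ne', sub_eq_zero]
  constructor
  · rintro ((h | h) | h)
    · exact absurd h (tbC_ne hm hn)
    · exact Or.inl h
    · exact Or.inr h.symm
  · rintro (h | h)
    · exact Or.inl (Or.inr h)
    · exact Or.inr h.symm

theorem tb_cz {m n : ℕ} (hm : 0 < m) (hn : 0 < n) : (Tb m n).eval (cz m n) = 1 := by
  have h1 : (m : ℂ) ≠ 0 := Nat.cast_ne_zero.2 hm.ne'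
  have h2 : (n : ℂ) ≠ 0 := Nat.cast_ne_zero.2 hn.ne'
  have h3 : ((m + n : ℕ) : ℂ) ≠ 0 := Nat.cast_ne_zero.2 (by omega)
  rw [tb_eval]
  unfold cz
  have e : (1 - (m : ℂ) / ((m + n : ℕ) : ℂ)) = (n : ℂ) / ((m + n : ℕ) : ℂ) := by
    rw [eq_div_iff h3, sub_mul, div_mul_cancel₀ _ h3]
    push_cast
    ring
  rw [e, div_pow, div_pow, pow_add]
  field_simp

theorem cz_ne {m n : ℕ} (hm : 0 < m) (hn : 0 < n) : cz m n ≠ 0 ∧ cz m n ≠ 1 := by
  have h1 : (m : ℂ) ≠ 0 := Nat.cast_ne_zero.2 hm.ne'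
  have h3 : ((m + n : ℕ) : ℂ) ≠ 0 := Nat.cast_ne_zero.2 (by omega)
  unfold cz
  refine ⟨div_ne_zero h1 h3, ?_⟩
  intro h
  rw [div_eq_one_iff_eq h3] at h
  have : m = m + n := by exact_mod_cast h
  omega

theorem tb_crit {m n : ℕ} (hm : 0 < m) (hn : 0 < n) {z : ℂ}
    (hz : (derivative (Tb m n)).eval z = 0) : z = 0 ∨ z = 1 ∨ z = cz m n := by
  have h3 : ((m + n : ℕ) : ℂ) ≠ 0 := Nat.cast_ne_zero.2 (by omega)
  rw [tb_deriv_eval hm hn] at hz
  rcases mul_eq_zero.1 hz with h | h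
  · rcases mul_eq_zero.1 h with h | h
    · rcases mul_eq_zero.1 h with h | h
      · exact absurd h (tbC_ne hm hn)
      · exact Or.inl (tb_pz h)
    · exact Or.inr (Or.inl (sub_eq_zero.1 (tb_pz h)).symm)
  · refine Or.inr (Or.inr ?_)
    unfold cz
    rw [eq_div_iff h3]
    linear_combination -h

theorem tb_good {m n : ℕ} (hm : 0 < m) (hn : 0 < n) : Good (Tb m n) := by
  refine ⟨?_, ?_⟩
  · rw [Nat.pos_iff_ne_zero]
    intro h
    obtain ⟨a, ha⟩ := natDegree_eq_zero.1 h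
    have h0 := (tb_zero hm hn 0).2 (Or.inl rfl)
    have h1 := tb_cz hm hn
    rw [← ha, eval_C] at h0 h1
    rw [h0] at h1
    exact zero_ne_one h1
  · intro x hx
    rcases tb_crit hm hn hx with h | h | h
    · exact Or.inl ((tb_zero hm hn x).2 (Or.inl h))
    · exact Or.inl ((tb_zero hm hn x).2 (Or.inr h))
    · right
      rw [h]
      exact tb_cz hm hn

theorem tb_one_sub_ne {m n : ℕ} (hm : 0 < m) (hn : 0 < n) : (1 - Tb m n) ≠ 0 := by
  intro h
  have h0 := (tb_zero hm hn 0).2 (Or.inl rfl)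
  have := congrArg (eval (0 : ℂ)) h
  rw [eval_sub, h0] at this
  simp at this

theorem tb_mult_cz {m n : ℕ} (hm : 0 < m) (hn : 0 < n) :
    (1 - Tb m n).rootMultiplicity (cz m n) = 2 := by
  have h3 : ((m + n : ℕ) : ℂ) ≠ 0 := Nat.cast_ne_zero.2 (by omega)
  have hr : (1 - Tb m n).IsRoot (cz m n) := by
    rw [IsRoot.def, eval_sub, tb_cz hm hn, eval_one, sub_self]
  have h1 := derivative_rootMultiplicity_of_root hr
  have hpos : 0 < (1 - Tb m n).rootMultiplicity (cz m n) :=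
    (rootMultiplicity_pos (tb_one_sub_ne hm hn)).2 hr
  have e : derivative (1 - Tb m n) = (C (tbC m n) * X ^ (m - 1) * (1 - X) ^ (n - 1) *
      C ((m + n : ℕ) : ℂ)) * (X - C (cz m n)) := by
    rw [derivative_sub, derivative_one, zero_sub, tb_deriv hm hn]
    have : C (m : ℂ) = C ((m + n : ℕ) : ℂ) * C (cz m n) := by
      rw [← C_mul]
      congr 1
      unfold cz
      rw [mul_div_cancel₀ _ h3]
    rw [this]
    ring
  have hq : (C (tbC m n) * X ^ (m - 1) * (1 - X) ^ (n - 1) *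
      C ((m + n : ℕ) : ℂ)).eval (cz m n) ≠ 0 := by
    have h4 := (cz_ne hm hn).1
    have h5 : 1 - cz m n ≠ 0 := sub_ne_zero.2 (cz_ne hm hn).2.symm
    have h6 := tbC_ne hm hn
    simp only [eval_mul, eval_C, eval_pow, eval_X, eval_sub, eval_one]
    exact mul_ne_zero (mul_ne_zero (mul_ne_zero h6 (pow_ne_zero _ h4)) (pow_ne_zero _ h5)) h3
  have h2 : (derivative (1 - Tb m n)).rootMultiplicity (cz m n) = 1 := by
    have hq0 : (C (tbC m n) * X ^ (m - 1) * (1 - X) ^ (n - 1) * C ((m + n : ℕ) : ℂ)) ≠ 0 := by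
      intro h
      rw [h] at hq
      simp at hq
    rw [e, rootMultiplicity_mul (mul_ne_zero hq0 (X_sub_C_ne_zero _)),
      rootMultiplicity_X_sub_C_self, rootMultiplicity_eq_zero hq]
  omega

theorem tb_mult {m n : ℕ} (hm : 0 < m) (hn : 0 < n) {z : ℂ} (hz : (1 - Tb m n).eval z = 0)
    (hne : z ≠ cz m n) : (1 - Tb m n).rootMultiplicity z = 1 := by
  have hr : (1 - Tb m n).IsRoot z := hz
  have h1 := derivative_rootMultiplicity_of_root hr
  have hpos : 0 < (1 - Tb m n).rootMultiplicity z :=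
    (rootMultiplicity_pos (tb_one_sub_ne hm hn)).2 hr
  have hT : (Tb m n).eval z ≠ 0 := by
    intro h
    rw [eval_sub, h] at hz
    simp at hz
  have h2 : (derivative (1 - Tb m n)).rootMultiplicity z = 0 := by
    refine rootMultiplicity_eq_zero ?_
    intro h
    have h' : (derivative (Tb m n)).eval z = 0 := by
      rw [IsRoot.def, derivative_sub, derivative_one, zero_sub, eval_neg, neg_eq_zero] at h
      exact h
    rcases tb_crit hm hn h' with h3 | h3 | h3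
    · exact hT ((tb_zero hm hn z).2 (Or.inl h3))
    · exact hT ((tb_zero hm hn z).2 (Or.inr h3))
    · exact hne h3
  omega

end Pool.Agent.H9.GT
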