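import Pool.Agent.H9.GT.Vtx
import Pool.Agent.H9.GT.BelyiZ

/-!
# Two special points of the fibre of `c z^m (1 - z)^n` (job GT-PTS)

`tb_pts`: on the real interval `[0, m/(m+n)]` the real function `T` is continuous and strictly
increasing from `0` to `1`, on `[m/(m+n), 1]` it is strictly decreasing from `1` to `0`. Let
`g₁ : [0,1] → [0, m/(m+n)]`, `g₂ : [0,1] → [m/(m+n), 1]` be the inverse functions (continuous:
`StrictMonoOn.orderIso`, `ContinuousOn` of the inverse of a strictly monotone continuous function).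
`zm = g₁ (1/2)`, `zp = g₂ (1/2)`. The paths `t ↦ g₁ (1/(1+exp t))`, `t ↦ g₂ (1/(1+exp t))`, `t ≥ 0`,
are lifts of `Hm (t, 0)` ending in `0` and `1`: `vt_path`. For `1 - T` use
`t ↦ g₁ (1 - 1/(1+exp t))`, which ends in `m/(m+n)`, and `g₂` in the same way.
-/

set_option autoImplicit false

open Polynomial Set Filter Topology

namespace Pool.Agent.H9.GT

/-- the real function -/
noncomputable def pts_R (m n : ℕ) (x : ℝ) : ℝ :=
  ((m + n : ℕ) : ℝ) ^ (m + n) / ((m : ℝ) ^ m * (n : ℝ) ^ n) * x ^ m * (1 - x) ^ n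

/-- the real critical point -/
noncomputable def pts_z (m n : ℕ) : ℝ := (m : ℝ) / ((m + n : ℕ) : ℝ)

theorem pts_eval (m n : ℕ) (x : ℝ) : (Tb m n).eval (x : ℂ) = ((pts_R m n x : ℝ) : ℂ) := by
  rw [tb_eval]
  unfold pts_R
  push_cast
  ring

theorem pts_cz (m n : ℕ) : ((pts_z m n : ℝ) : ℂ) = cz m n := by
  unfold pts_z cz
  push_cast
  ring

theorem pts_R_z {m n : ℕ} (hm : 0 < m) (hn : 0 < n) : pts_R m n (pts_z m n) = 1 := by
  have h := tb_cz hm hn
  rw [← pts_cz, pts_eval] at h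
  exact_mod_cast h

theorem pts_R_zero {m n : ℕ} (hm : 0 < m) : pts_R m n 0 = 0 := by
  unfold pts_R
  rw [zero_pow hm.ne']
  ring

theorem pts_R_cont (m n : ℕ) : Continuous (pts_R m n) := by
  unfold pts_R
  fun_prop

theorem pts_z_pos {m n : ℕ} (hm : 0 < m) : 0 < pts_z m n := by
  unfold pts_z
  have h1 : (0 : ℝ) < m := by exact_mod_cast hm
  have h2 : (0 : ℝ) < ((m + n : ℕ) : ℝ) := by
    have : 0 < m + n := by omega
    exact_mod_cast this
  exact div_pos h1 h2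

theorem pts_mono {m n : ℕ} (hm : 0 < m) (hn : 0 < n) :
    StrictMonoOn (pts_R m n) (Icc 0 (pts_z m n)) := by
  refine strictMonoOn_of_deriv_pos (convex_Icc _ _) (pts_R_cont m n).continuousOn ?_
  intro x hx
  rw [interior_Icc] at hx
  obtain ⟨m', rfl⟩ : ∃ m', m = m' + 1 := ⟨m - 1, by omega⟩
  obtain ⟨n', rfl⟩ : ∃ n', n = n' + 1 := ⟨n - 1, by omega⟩
  have hsum : (0 : ℝ) < ((m' + 1 + (n' + 1) : ℕ) : ℝ) := by positivity
  have hx1 : x * ((m' + 1 + (n' + 1) : ℕ) : ℝ) < ((m' + 1 : ℕ) : ℝ) := by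
    have h2 := hx.2
    unfold pts_z at h2
    exact (lt_div_iff₀ hsum).1 h2
  have hx0 : 0 < x := hx.1
  have hx2 : x < 1 := by
    push_cast at hx1
    by_contra hcon
    push Not at hcon
    have hn0 : (0 : ℝ) ≤ (n' : ℝ) := Nat.cast_nonneg _
    have hm0 : (0 : ℝ) ≤ (m' : ℝ) := Nat.cast_nonneg _
    nlinarith
  set c : ℝ := ((m' + 1 + (n' + 1) : ℕ) : ℝ) ^ (m' + 1 + (n' + 1)) /
    (((m' + 1 : ℕ) : ℝ) ^ (m' + 1) * ((n' + 1 : ℕ) : ℝ) ^ (n' + 1)) with hc
  have hcpos : 0 < c := by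
    rw [hc]
    positivity
  have hd : HasDerivAt (pts_R (m' + 1) (n' + 1))
      (c * (((m' + 1 : ℕ) : ℝ) * x ^ m' * 1) * (1 - x) ^ (n' + 1) +
        c * x ^ (m' + 1) * (((n' + 1 : ℕ) : ℝ) * (1 - x) ^ n' * (0 - 1))) x := by
    have h1 : HasDerivAt (fun y : ℝ => y ^ (m' + 1)) (((m' + 1 : ℕ) : ℝ) * x ^ m' * 1) x :=
      (hasDerivAt_id x).pow (m' + 1)
    have h2 : HasDerivAt (fun y : ℝ => (1 - y) ^ (n' + 1))
        (((n' + 1 : ℕ) : ℝ) * (1 - x) ^ n' * (0 - 1)) x :=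
      (((hasDerivAt_const x (1 : ℝ)).sub (hasDerivAt_id x)).pow (n' + 1))
    exact (h1.const_mul c).mul h2
  rw [hd.deriv]
  have h3 : c * (((m' + 1 : ℕ) : ℝ) * x ^ m' * 1) * (1 - x) ^ (n' + 1) +
        c * x ^ (m' + 1) * (((n' + 1 : ℕ) : ℝ) * (1 - x) ^ n' * (0 - 1)) =
      c * x ^ m' * (1 - x) ^ n' *
        (((m' + 1 : ℕ) : ℝ) - x * ((m' + 1 + (n' + 1) : ℕ) : ℝ)) := by
    push_cast
    ring
  rw [h3]
  have h4 : 0 < 1 - x := by linarith
  have h5 : 0 < ((m' + 1 : ℕ) : ℝ) - x * ((m' + 1 + (n' + 1) : ℕ) : ℝ) := by linarith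
  positivity

/-- continuous inverse function -/
theorem pts_inv {m n : ℕ} (hm : 0 < m) (hn : 0 < n) :
    ∃ g : Icc (0 : ℝ) 1 → ℝ, Continuous g ∧ (∀ y, pts_R m n (g y) = y) ∧
      g ⟨0, by simp⟩ = 0 ∧ g ⟨1, by simp⟩ = pts_z m n := by
  have hz := pts_z_pos (n := n) hm
  have hmono := pts_mono hm hn
  have h0 := pts_R_zero (n := n) hm
  have h1 := pts_R_z hm hn
  have hmaps : ∀ x ∈ Icc 0 (pts_z m n), pts_R m n x ∈ Icc (0 : ℝ) 1 := by
    intro x hx
    refine ⟨?_, ?_⟩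
    · rw [← h0]
      exact hmono.monotoneOn ⟨le_rfl, hz.le⟩ hx hx.1
    · rw [← h1]
      exact hmono.monotoneOn hx ⟨hz.le, le_rfl⟩ hx.2
  have hcont := pts_R_cont m n
  let f : Icc (0 : ℝ) (pts_z m n) → Icc (0 : ℝ) 1 := fun x => ⟨pts_R m n x.1, hmaps x.1 x.2⟩
  have hf : Function.Bijective f := by
    refine ⟨?_, ?_⟩
    · intro a b hab
      apply Subtype.ext
      exact hmono.injOn a.2 b.2 (congrArg Subtype.val hab)
    · intro y
      have h2 := intermediate_value_Icc hz.le hcont.continuousOn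
      rw [h0, h1] at h2
      obtain ⟨x, hx, hxy⟩ := h2 y.2
      exact ⟨⟨x, hx⟩, Subtype.ext hxy⟩
  have hfc : Continuous f := (hcont.comp continuous_subtype_val).subtype_mk _
  let e := Equiv.ofBijective f hf
  have hec : Continuous e := hfc
  let E := hec.homeoOfEquivCompactToT2
  have hE : ∀ y, f (E.symm y) = y := fun y => E.apply_symm_apply y
  refine ⟨fun y => (E.symm y).1, continuous_subtype_val.comp E.symm.continuous, ?_, ?_, ?_⟩
  · intro y
    exact congrArg Subtype.val (hE y)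
  · have h2 : f ⟨0, le_rfl, hz.le⟩ = ⟨0, by simp⟩ := Subtype.ext h0
    have h3 : E.symm ⟨0, by simp⟩ = ⟨0, le_rfl, hz.le⟩ := by
      rw [← h2]
      exact E.symm_apply_apply _
    exact congrArg Subtype.val h3
  · have h2 : f ⟨pts_z m n, hz.le, le_rfl⟩ = ⟨1, by simp⟩ := Subtype.ext h1
    have h3 : E.symm ⟨1, by simp⟩ = ⟨pts_z m n, hz.le, le_rfl⟩ := by
      rw [← h2]
      exact E.symm_apply_apply _
    exact congrArg Subtype.val h3

theorem pts_Hm (t : ℝ) : Hm (t, 0) = ((1 / (1 + Real.exp t) : ℝ) : ℂ) := by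
  unfold Hm
  simp

theorem pts_one_sub (Q : ℂ[X]) (h : Good Q) : Good (1 - Q) := by
  have h1 := h.tw 1
  unfold twP at h1
  rw [if_neg (by decide)] at h1
  exact h1

theorem pts_tend : Tendsto (fun t : ℝ => 1 / (1 + Real.exp t)) atTop (𝓝 0) := nf_base_tendsto

/-- one half of the statement -/
theorem pts_half {m n : ℕ} (hm : 0 < m) (hn : 0 < n) :
    ∃ zm : ℂ, (Tb m n).eval zm = 1 / 2 ∧ vt (Tb m n) zm = 0 ∧ vt (1 - Tb m n) zm = cz m n := by
  obtain ⟨g, hg, hgR, hg0, hg1⟩ := pts_inv hm hn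
  have hgood := tb_good hm hn
  have hmem : ∀ t : ℝ, 1 / (1 + Real.exp t) ∈ Icc (0 : ℝ) 1 := by
    intro t
    have h0 := Real.exp_pos t
    refine ⟨by positivity, ?_⟩
    rw [div_le_one (by positivity)]
    linarith
  have hmem2 : ∀ t : ℝ, 1 - 1 / (1 + Real.exp t) ∈ Icc (0 : ℝ) 1 := by
    intro t
    have := hmem t
    exact ⟨by linarith [this.2], by linarith [this.1]⟩
  have hhalf : (1 / 2 : ℝ) ∈ Icc (0 : ℝ) 1 := by constructor <;> norm_num
  have hcb : Continuous fun t : ℝ => 1 / (1 + Real.exp t) := by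
    refine Continuous.div continuous_const (by fun_prop) fun t => ?_
    positivity
  have hzm : (Tb m n).eval ((g ⟨1 / 2, hhalf⟩ : ℝ) : ℂ) = 1 / 2 := by
    rw [pts_eval, hgR]
    push_cast
    ring
  refine ⟨((g ⟨1 / 2, hhalf⟩ : ℝ) : ℂ), hzm, ?_, ?_⟩
  · refine vt_path hgood hzm (fun t => ((g ⟨1 / (1 + Real.exp t), hmem t⟩ : ℝ) : ℂ)) ?_ ?_ ?_ 0 ?_
    · refine Continuous.continuousOn ?_
      exact Complex.continuous_ofReal.comp (hg.comp (hcb.subtype_mk _))
    · have : (⟨1 / (1 + Real.exp 0), hmem 0⟩ : Icc (0 : ℝ) 1) = ⟨1 / 2, hhalf⟩ := by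
        apply Subtype.ext
        simp only [Real.exp_zero]
        norm_num
      rw [this]
    · intro t _
      rw [pts_eval, hgR, pts_Hm]
    · have h1 : Tendsto (fun t : ℝ => (⟨1 / (1 + Real.exp t), hmem t⟩ : Icc (0 : ℝ) 1)) atTop
          (𝓝 ⟨0, by simp⟩) := by
        rw [tendsto_subtype_rng]
        exact pts_tend
      have h2 := (Complex.continuous_ofReal.comp hg).continuousAt.tendsto.comp h1
      have h3 : (Complex.ofReal ∘ g) ⟨0, by simp⟩ = 0 := by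
        simp only [Function.comp_apply]
        rw [hg0]
        simp
      rw [h3] at h2
      exact h2
  · have hzm' : (1 - Tb m n).eval ((g ⟨1 / 2, hhalf⟩ : ℝ) : ℂ) = 1 / 2 := by
      rw [eval_sub, eval_one, hzm]
      norm_num
    refine vt_path (pts_one_sub _ hgood) hzm'
      (fun t => ((g ⟨1 - 1 / (1 + Real.exp t), hmem2 t⟩ : ℝ) : ℂ)) ?_ ?_ ?_ (cz m n) ?_
    · refine Continuous.continuousOn ?_
      exact Complex.continuous_ofReal.comp (hg.comp ((continuous_const.sub hcb).subtype_mk _))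
    · have : (⟨1 - 1 / (1 + Real.exp 0), hmem2 0⟩ : Icc (0 : ℝ) 1) = ⟨1 / 2, hhalf⟩ := by
        apply Subtype.ext
        simp only [Real.exp_zero]
        norm_num
      rw [this]
    · intro t _
      rw [eval_sub, eval_one, pts_eval, hgR, pts_Hm]
      push_cast
      ring
    · have h1 : Tendsto (fun t : ℝ => (⟨1 - 1 / (1 + Real.exp t), hmem2 t⟩ : Icc (0 : ℝ) 1)) atTop
          (𝓝 ⟨1, by simp⟩) := by
        rw [tendsto_subtype_rng]
        have := (tendsto_const_nhds (x := (1 : ℝ))).sub pts_tend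
        rw [sub_zero] at this
        exact this
      have h2 := (Complex.continuous_ofReal.comp hg).continuousAt.tendsto.comp h1
      have h3 : (Complex.ofReal ∘ g) ⟨1, by simp⟩ = cz m n := by
        simp only [Function.comp_apply]
        rw [hg1]
        exact pts_cz m n
      rw [h3] at h2
      exact h2

theorem pts_refl {m n : ℕ} (z : ℂ) : (Tb m n).eval (1 - z) = (Tb n m).eval z := by
  rw [tb_eval, tb_eval, sub_sub_cancel, Nat.add_comm m n]
  ring

theorem tb_pts {m n : ℕ} (hm : 0 < m) (hn : 0 < n) :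
    ∃ zm zp : ℂ, (Tb m n).eval zm = 1 / 2 ∧ (Tb m n).eval zp = 1 / 2 ∧
      vt (Tb m n) zm = 0 ∧ vt (Tb m n) zp = 1 ∧
      vt (1 - Tb m n) zm = cz m n ∧ vt (1 - Tb m n) zp = cz m n := by
  obtain ⟨zm, h1, h2, h3⟩ := pts_half hm hn
  obtain ⟨z, h4, h5, h6⟩ := pts_half hn hm
  have hc : Continuous fun x : ℂ => 1 - x := by fun_prop
  refine ⟨zm, 1 - z, h1, ?_, h2, ?_, h3, ?_⟩
  · rw [pts_refl, h4]
  · have h7 := vt_nat (tb_good hn hm) (tb_good hm hn) (fun x => 1 - x) hc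
      (fun x => pts_refl x) h4
    rw [h7, h5, sub_zero]
  · have h7 := vt_nat (pts_one_sub _ (tb_good hn hm)) (pts_one_sub _ (tb_good hm hn))
      (fun x => 1 - x) hc
      (fun x => by rw [eval_sub, eval_sub, eval_one, eval_one, pts_refl]) (x := z) (by
        rw [eval_sub, eval_one, h4]
        norm_num)
    rw [h7, h6]
    unfold cz
    have hne : ((n + m : ℕ) : ℂ) ≠ 0 := by
      have : n + m ≠ 0 := by omega
      exact_mod_cast this
    rw [Nat.add_comm m n, eq_div_iff hne, sub_mul, div_mul_cancel₀ _ hne]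
    push_cast
    ring

end Pool.Agent.H9.GT
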