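import Mathlib

/-!
# Local charts of a polynomial at a root (job GT-CHART)

Let `r` be a root of `Q ≠ 0` of multiplicity `m`, `Q = (X - r) ^ m * U`, `U(r) ≠ 0`. Choose `c` with
`c ^ m = U(r)` and put `v x = c * (U x / U r) ^ (1/m)` (principal branch, analytic near `r`),
`W x = (x - r) * v x`. Then `Q x = W x ^ m` near `r` and `W` has the strict derivative `c ≠ 0` at `r`,
so it is a local homeomorphism; `psi` is its local inverse, and `u w = 1 / v (psi w)`.
-/

set_option autoImplicit false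

open Polynomial Set Filter Topology

namespace Pool.Agent.H9.GT

/-- a chart at the root `r` of `Q` in which `Q` is the power map -/
structure IsChart (Q : ℂ[X]) (r : ℂ) (ψ u : ℂ → ℂ) (δ ε : ℝ) : Prop where
  δpos : 0 < δ
  εpos : 0 < ε
  cont : ContinuousOn ψ (Metric.ball 0 δ)
  inj : InjOn ψ (Metric.ball 0 δ)
  eq : ∀ w ∈ Metric.ball (0 : ℂ) δ, Q.eval (ψ w) = w ^ Q.rootMultiplicity r
  zero : ψ 0 = r
  surj : ∀ x ∈ Metric.ball r ε, ∃ w ∈ Metric.ball (0 : ℂ) δ, ψ w = x
  contu : ContinuousOn u (Metric.ball 0 δ)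
  une : ∀ w ∈ Metric.ball (0 : ℂ) δ, u w ≠ 0
  fac : ∀ w ∈ Metric.ball (0 : ℂ) δ, ψ w = r + w * u w

theorem exists_chart (Q : ℂ[X]) (hQ : Q ≠ 0) (r : ℂ) (hr : Q.eval r = 0) :
    ∃ (ψ u : ℂ → ℂ) (δ ε : ℝ), IsChart Q r ψ u δ ε := by
  obtain ⟨U, hU, hUr⟩ := Polynomial.exists_eq_pow_rootMultiplicity_mul_and_not_dvd Q hQ r
  set m := Q.rootMultiplicity r with hm
  have hm0 : 0 < m := (Polynomial.rootMultiplicity_pos hQ).2 hr
  have hUr0 : U.eval r ≠ 0 := fun h => hUr (Polynomial.dvd_iff_isRoot.2 h)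
  obtain ⟨c, hc⟩ := IsAlgClosed.exists_pow_nat_eq (U.eval r) hm0
  have hc0 : c ≠ 0 := by
    rintro rfl
    rw [zero_pow hm0.ne'] at hc
    exact hUr0 hc.symm
  set v : ℂ → ℂ := fun x => c * (U.eval x / U.eval r) ^ ((m : ℂ)⁻¹) with hv
  have hvm : ∀ x, v x ^ m = U.eval x := by
    intro x
    rw [hv]
    simp only
    rw [mul_pow, Complex.cpow_nat_inv_pow _ hm0.ne', hc]
    field_simp
  set W : ℂ → ℂ := fun x => (x - r) * v x with hW
  have hWm : ∀ x, W x ^ m = Q.eval x := by
    intro x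
    rw [hW]
    simp only
    rw [mul_pow, hvm]
    conv_rhs => rw [hU]
    simp
  set N : Set ℂ := {x | U.eval x / U.eval r ∈ Complex.slitPlane} with hN
  have hcU : Continuous fun x => U.eval x / U.eval r := U.continuous.div_const _
  have hNo : IsOpen N := Complex.isOpen_slitPlane.preimage hcU
  have hNr : r ∈ N := by
    change U.eval r / U.eval r ∈ Complex.slitPlane
    rw [div_self hUr0]; simp
  have hvc : ContinuousOn v N := by
    refine continuousOn_const.mul ?_
    exact hcU.continuousOn.cpow_const fun x hx => hx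
  have hvn : ∀ x ∈ N, v x ≠ 0 := by
    intro x hx h
    have h1 := hvm x
    rw [h, zero_pow hm0.ne'] at h1
    have h2 : U.eval x / U.eval r ∈ Complex.slitPlane := hx
    rw [← h1, zero_div] at h2
    simp at h2
  have hvr : v r = c := by
    rw [hv]
    simp only
    rw [div_self hUr0, Complex.one_cpow, mul_one]
  have hvd : ∃ v', HasStrictDerivAt v v' r := by
    have h1 : HasStrictDerivAt (fun x => U.eval x / U.eval r)
        (U.derivative.eval r / U.eval r) r := (U.hasStrictDerivAt r).div_const _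
    exact ⟨_, (h1.cpow_const hNr).const_mul c⟩
  obtain ⟨v', hv'⟩ := hvd
  have hWd : HasStrictDerivAt W c r := by
    have h0 : HasStrictDerivAt (fun x : ℂ => x - r) 1 r := (hasStrictDerivAt_id r).sub_const r
    have h1 := h0.mul hv'
    have h2 : (1 : ℂ) * v r + (r - r) * v' = c := by
      rw [hvr]; simp
    rw [← h2]
    exact h1
  have hWf := hWd.hasStrictFDerivAt_equiv hc0
  set e := hWf.toOpenPartialHomeomorph W with he
  have hrs : r ∈ e.source := hWf.mem_toOpenPartialHomeomorph_source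
  have hew : ∀ x, e x = W x := fun x => rfl
  have hW0 : W r = 0 := by
    rw [hW]; simp
  have ht0 : (0 : ℂ) ∈ e.target := by
    have := e.map_source hrs
    rwa [hew, hW0] at this
  have hs0 : e.symm 0 = r := by
    have := e.left_inv hrs
    rwa [hew, hW0] at this
  have hO : IsOpen (e.target ∩ e.symm ⁻¹' N) := e.symm.isOpen_inter_preimage hNo
  obtain ⟨δ, hδ, hδs⟩ := Metric.isOpen_iff.1 hO 0 ⟨ht0, by
    change e.symm 0 ∈ N
    rw [hs0]; exact hNr⟩
  have hO2 : IsOpen (e.source ∩ e ⁻¹' (Metric.ball 0 δ)) := e.isOpen_inter_preimage Metric.isOpen_ball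
  obtain ⟨ε, hε, hεs⟩ := Metric.isOpen_iff.1 hO2 r ⟨hrs, by
    change e r ∈ Metric.ball 0 δ
    rw [hew, hW0]; exact Metric.mem_ball_self hδ⟩
  have hinv : ∀ w ∈ Metric.ball (0 : ℂ) δ, W (e.symm w) = w := fun w hw => by
    rw [← hew]; exact e.right_inv (hδs hw).1
  have hcont : ContinuousOn e.symm (Metric.ball 0 δ) :=
    e.continuousOn_symm.mono fun w hw => (hδs hw).1
  refine ⟨e.symm, fun w => (v (e.symm w))⁻¹, δ, ε, hδ, hε, hcont, ?_, ?_, hs0, ?_, ?_, ?_, ?_⟩
  · intro a ha b hb hab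
    rw [← hinv a ha, ← hinv b hb, hab]
  · intro w hw
    rw [← hWm, hinv w hw]
  · intro x hx
    have := hεs hx
    exact ⟨e x, this.2, e.left_inv this.1⟩
  · refine ContinuousOn.inv₀ (hvc.comp hcont fun w hw => (hδs hw).2) fun w hw => ?_
    exact hvn _ (hδs hw).2
  · intro w hw
    exact inv_ne_zero (hvn _ (hδs hw).2)
  · intro w hw
    have h1 : (e.symm w - r) * v (e.symm w) = w := hinv w hw
    have h2 := hvn _ (hδs hw).2
    nth_rewrite 2 [← h1]
    field_simp
    ring

/-- If `Q x` is small then `x` is close to a root of `Q`: factor `Q` into linear factors. -/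
theorem near_root (Q : ℂ[X]) (hQ : 0 < Q.natDegree) (ε : ℝ) (hε : 0 < ε) :
    ∃ ρ > 0, ∀ x, ‖Q.eval x‖ < ρ → ∃ r, Q.eval r = 0 ∧ ‖x - r‖ < ε := by
  have hQ0 : Q ≠ 0 := by
    rintro rfl
    simp at hQ
  have hl : Q.leadingCoeff ≠ 0 := Polynomial.leadingCoeff_ne_zero.2 hQ0
  refine ⟨‖Q.leadingCoeff‖ * ε ^ Multiset.card Q.roots, by positivity, fun x hx => ?_⟩
  by_contra hcon
  push Not at hcon
  have h1 := (IsAlgClosed.splits Q).eval_eq_prod_roots x
  rw [h1, norm_mul] at hx
  have h2 : ∀ s : Multiset ℂ, (∀ r ∈ s, ε ≤ ‖x - r‖) →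
      ε ^ Multiset.card s ≤ ‖(s.map fun a => x - a).prod‖ := by
    intro s
    induction s using Multiset.induction_on with
    | empty => intro _; simp
    | cons a s ih =>
      intro h
      rw [Multiset.card_cons, Multiset.map_cons, Multiset.prod_cons, norm_mul, pow_succ']
      exact mul_le_mul (h a (Multiset.mem_cons_self a s))
        (ih fun r hr => h r (Multiset.mem_cons_of_mem hr)) (by positivity) (norm_nonneg _)
  have h3 := h2 Q.roots fun r hr => hcon r ((Polynomial.mem_roots hQ0).1 hr)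
  have h4 := mul_le_mul_of_nonneg_left h3 (norm_nonneg Q.leadingCoeff)
  exact absurd hx (not_lt.2 h4)

end Pool.Agent.H9.GT
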