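import Mathlib

/-!
# Cocycles on a dessin which is a tree (job GT-CORE)

`Ω` is a finite set, `p0, p1` permutations which generate a transitive group, the fibres of
`v0 : Ω → C0` are the cycles of `p0`, those of `v1` the cycles of `p1`, and
`|C0| + |C1| = |Ω| + 1`. `A` is a finite abelian group. If `r0, r1 : Ω → A` have product `1` along
every cycle of `p0` resp. `p1`, then there is `b : Ω → A` with `r0 x = b (p0 x) / b x` and
`r1 x = b (p1 x) / b x`.

Proof by counting. Let `Zi` be the subgroup of `Ω → A` of all `r` with product `1` along every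
cycle of `pi`. It is the kernel of the homomorphism `(Ω → A) → (Ci → A)`,
`r ↦ (c ↦ ∏ x with vi x = c, r x)`, which is surjective (choose a section of `vi`), so
`|Zi| * |A| ^ |Ci| = |A| ^ |Ω|`. The homomorphism `D b = (b ∘ p0 / b, b ∘ p1 / b)` maps `Ω → A` to
`Z0 × Z1` (the fibres of `vi` are invariant under `pi`, `Fintype.prod_equiv`), its kernel consists
of the constant functions (transitivity; `Subgroup.closure_induction` gives `b (g x) = b x` for all
`g` of the group), so the image has `|A| ^ |Ω| / |A|` elements and `|Z0 × Z1| =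
|A| ^ (2 |Ω| - |C0| - |C1|) = |A| ^ (|Ω| - 1)`. Hence `D` is surjective onto `Z0 × Z1`
(`Subgroup.eq_of_le_of_card_ge` or finite cardinalities).
-/

set_option autoImplicit false

namespace Pool.Agent.H9.GT

open Equiv

/-- the products over the fibres of `v` -/
noncomputable def gtcK {Ω C : Type} (A : Type) [Fintype Ω] [DecidableEq C] [CommGroup A]
    (v : Ω → C) : (Ω → A) →* (C → A) where
  toFun r := fun c => ∏ x with v x = c, r x
  map_one' := by
    funext c
    simp
  map_mul' r s := by
    funext c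
    simp [Finset.prod_mul_distrib]

theorem gtcK_apply {Ω C A : Type} [Fintype Ω] [DecidableEq C] [CommGroup A]
    (v : Ω → C) (r : Ω → A) (c : C) : gtcK A v r c = ∏ x with v x = c, r x := rfl

theorem gtcK_surjective {Ω C A : Type} [Fintype Ω] [DecidableEq C] [CommGroup A]
    (v : Ω → C) (hs : Function.Surjective v) : Function.Surjective (gtcK A v) := by
  classical
  intro t
  obtain ⟨s, hs⟩ := hs.hasRightInverse
  refine ⟨fun x => if x = s (v x) then t (v x) else 1, ?_⟩
  funext c
  rw [gtcK_apply, Finset.prod_eq_single (s c)]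
  · rw [hs c, if_pos rfl]
  · intro x hx hne
    rw [Finset.mem_filter] at hx
    rw [if_neg]
    rw [hx.2]
    exact hne
  · intro h
    exfalso
    apply h
    rw [Finset.mem_filter]
    exact ⟨Finset.mem_univ _, hs c⟩

theorem gtcK_card {Ω C A : Type} [Fintype Ω] [Finite C] [DecidableEq C] [CommGroup A] [Finite A]
    (v : Ω → C) (hs : Function.Surjective v) :
    Nat.card (gtcK A v).ker * Nat.card A ^ Nat.card C = Nat.card A ^ Nat.card Ω := by
  have h1 := Subgroup.card_mul_index (gtcK A v).ker
  rw [Subgroup.index_ker, MonoidHom.range_eq_top.mpr (gtcK_surjective v hs),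
    Subgroup.card_top, Nat.card_fun, Nat.card_fun] at h1
  exact h1

/-- the coboundary -/
def gtcD {Ω A : Type} [CommGroup A] (p0 p1 : Perm Ω) : (Ω → A) →* (Ω → A) × (Ω → A) where
  toFun b := (fun x => b (p0 x) / b x, fun x => b (p1 x) / b x)
  map_one' := by
    ext x <;> simp
  map_mul' b c := by
    ext x
    · simp only [Pi.mul_apply, Prod.mk_mul_mk]
      exact mul_div_mul_comm _ _ _ _
    · simp only [Pi.mul_apply, Prod.mk_mul_mk]
      exact mul_div_mul_comm _ _ _ _

theorem gtcD_ker {Ω A : Type} [Fintype Ω] [CommGroup A] [Finite A] (p0 p1 : Perm Ω) (x0 : Ω)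
    (htr : ∀ x y, ∃ g ∈ Subgroup.closure {p0, p1}, g x = y) :
    Nat.card (gtcD (A := A) p0 p1).ker ≤ Nat.card A := by
  refine Nat.card_le_card_of_injective (fun b : (gtcD (A := A) p0 p1).ker => b.1 x0) ?_
  have key : ∀ b : (gtcD (A := A) p0 p1).ker, ∀ x, b.1 x = b.1 x0 := by
    intro b x
    have hb : gtcD p0 p1 b.1 = 1 := b.2
    have hb0 : ∀ y, b.1 (p0 y) = b.1 y := fun y =>
      div_eq_one.mp (congrFun (congrArg Prod.fst hb) y)
    have hb1 : ∀ y, b.1 (p1 y) = b.1 y := fun y =>
      div_eq_one.mp (congrFun (congrArg Prod.snd hb) y)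
    obtain ⟨g, hg, hgx⟩ := htr x0 x
    have h2 : ∀ y, b.1 (g y) = b.1 y := by
      clear hgx
      induction hg using Subgroup.closure_induction with
      | mem h hh =>
        rcases hh with h' | h'
        · rw [h']; exact hb0
        · rw [Set.mem_singleton_iff.mp h']; exact hb1
      | one => intro y; rfl
      | mul g h _ _ ihg ihh =>
        intro y
        rw [Perm.mul_apply, ihg, ihh]
      | inv g _ ih =>
        intro y
        have h3 := ih (g⁻¹ y)
        have h4 : g (g⁻¹ y) = y := by
          rw [← Perm.mul_apply, mul_inv_cancel, Perm.one_apply]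
        rw [h4] at h3
        exact h3.symm
    rw [← hgx, h2]
  intro b c hbc
  apply Subtype.ext
  funext x
  rw [key b x, key c x]
  exact hbc

theorem gtcK_cob {Ω A C : Type} [Fintype Ω] [DecidableEq C] [CommGroup A] (p : Perm Ω)
    (v : Ω → C) (h : ∀ x y, v x = v y ↔ p.SameCycle x y) (b : Ω → A) (c : C) :
    ∏ x with v x = c, b (p x) / b x = 1 := by
  rw [Finset.prod_div_distrib, div_eq_one]
  refine Finset.prod_equiv p ?_ (fun _ _ => rfl)
  intro x
  have h1 : v (p x) = v x := by
    rw [h]
    exact (Perm.sameCycle_apply_left).mpr (Perm.SameCycle.refl p x)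
  rw [Finset.mem_filter, Finset.mem_filter, h1]
  simp

/-- cocycles, with the products over the fibres of the vertex maps -/
theorem core {Ω A C0 C1 : Type} [Fintype Ω] [Finite C0] [Finite C1] [DecidableEq C0]
    [DecidableEq C1] [CommGroup A] [Finite A] (p0 p1 : Perm Ω) (v0 : Ω → C0) (v1 : Ω → C1)
    (hs0 : Function.Surjective v0) (hs1 : Function.Surjective v1)
    (h0 : ∀ x y, v0 x = v0 y ↔ p0.SameCycle x y) (h1 : ∀ x y, v1 x = v1 y ↔ p1.SameCycle x y)
    (hcard : Nat.card C0 + Nat.card C1 = Nat.card Ω + 1)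
    (htr : ∀ x y, ∃ g ∈ Subgroup.closure {p0, p1}, g x = y) (r0 r1 : Ω → A)
    (hr0 : ∀ c, ∏ x with v0 x = c, r0 x = 1) (hr1 : ∀ c, ∏ x with v1 x = c, r1 x = 1) :
    ∃ b : Ω → A, ∀ x, r0 x = b (p0 x) / b x ∧ r1 x = b (p1 x) / b x := by
  classical
  rcases isEmpty_or_nonempty Ω with hΩ | ⟨⟨x0⟩⟩
  · exact ⟨fun _ => 1, fun x => (hΩ.false x).elim⟩
  have hle : (gtcD (A := A) p0 p1).range ≤ (gtcK A v0).ker.prod (gtcK A v1).ker := by
    rintro _ ⟨b, rfl⟩
    rw [Subgroup.mem_prod]
    constructor
    · rw [MonoidHom.mem_ker]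
      funext c
      exact gtcK_cob p0 v0 h0 b c
    · rw [MonoidHom.mem_ker]
      funext c
      exact gtcK_cob p1 v1 h1 b c
  have hA : 0 < Nat.card A := Nat.card_pos
  have hc1 := gtcK_card (A := A) v0 hs0
  have hc2 := gtcK_card (A := A) v1 hs1
  have hd1 := Subgroup.card_mul_index (gtcD (A := A) p0 p1).ker
  rw [Subgroup.index_ker, Nat.card_fun] at hd1
  have hd2 := gtcD_ker (A := A) p0 p1 x0 htr
  have hprod : Nat.card ((gtcK A v0).ker.prod (gtcK A v1).ker) =
      Nat.card (gtcK A v0).ker * Nat.card (gtcK A v1).ker := by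
    rw [Nat.card_congr (Subgroup.prodEquiv _ _).toEquiv, Nat.card_prod]
  have hge : Nat.card ((gtcK A v0).ker.prod (gtcK A v1).ker) ≤
      Nat.card (gtcD (A := A) p0 p1).range := by
    rw [hprod]
    have e1 : (Nat.card (gtcK A v0).ker * Nat.card (gtcK A v1).ker) * Nat.card A *
        Nat.card A ^ Nat.card Ω = Nat.card A ^ Nat.card Ω * Nat.card A ^ Nat.card Ω := by
      calc (Nat.card (gtcK A v0).ker * Nat.card (gtcK A v1).ker) * Nat.card A *
        Nat.card A ^ Nat.card Ω
          = (Nat.card (gtcK A v0).ker * Nat.card (gtcK A v1).ker) *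
            Nat.card A ^ (Nat.card Ω + 1) := by ring
        _ = (Nat.card (gtcK A v0).ker * Nat.card A ^ Nat.card C0) *
            (Nat.card (gtcK A v1).ker * Nat.card A ^ Nat.card C1) := by
            rw [← hcard]; ring
        _ = _ := by rw [hc1, hc2]
    have e2 : (Nat.card (gtcK A v0).ker * Nat.card (gtcK A v1).ker) * Nat.card A =
        Nat.card A ^ Nat.card Ω :=
      Nat.eq_of_mul_eq_mul_right (pow_pos hA _) e1
    have e3 : (Nat.card (gtcK A v0).ker * Nat.card (gtcK A v1).ker) * Nat.card A ≤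
        Nat.card (gtcD (A := A) p0 p1).range * Nat.card A := by
      rw [e2, ← hd1, mul_comm]
      exact Nat.mul_le_mul_left _ hd2
    exact Nat.le_of_mul_le_mul_right e3 hA
  have heq := Subgroup.eq_of_le_of_card_ge hle hge
  have hmem : (r0, r1) ∈ (gtcK A v0).ker.prod (gtcK A v1).ker := by
    rw [Subgroup.mem_prod]
    constructor
    · rw [MonoidHom.mem_ker]
      funext c
      exact hr0 c
    · rw [MonoidHom.mem_ker]
      funext c
      exact hr1 c
  rw [← heq] at hmem
  obtain ⟨b, hb⟩ := hmem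
  refine ⟨b, fun x => ⟨?_, ?_⟩⟩
  · exact (congrFun (congrArg Prod.fst hb) x).symm
  · exact (congrFun (congrArg Prod.snd hb) x).symm

/-- The product over the cycle of `x` is the product over a fibre. With `n` the minimal period:
`j ↦ (p ^ j) x` is a bijection from `range n` onto the fibre. -/
theorem prod_cycle {Ω A C : Type} [Fintype Ω] [DecidableEq C] [CommGroup A] (p : Perm Ω)
    (v : Ω → C) (h : ∀ x y, v x = v y ↔ p.SameCycle x y) (r : Ω → A) (x : Ω) :
    ∏ j ∈ Finset.range (Function.minimalPeriod (⇑p) x), r ((p ^ j) x) =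
      ∏ y with v y = v x, r y := by
  have hper : ∃ n : ℕ, 0 < n ∧ (p ^ n) x = x :=
    ⟨orderOf p, orderOf_pos p, by rw [pow_orderOf_eq_one]; rfl⟩
  have hpos : 0 < Function.minimalPeriod (⇑p) x := by
    obtain ⟨n, hn, hx⟩ := hper
    apply Function.IsPeriodicPt.minimalPeriod_pos hn
    rw [Function.IsPeriodicPt, Function.IsFixedPt, Perm.iterate_eq_pow]
    exact hx
  refine Finset.prod_nbij (fun j => (p ^ j) x) ?_ ?_ ?_ (fun _ _ => rfl)
  · intro j _
    rw [Finset.mem_filter]
    refine ⟨Finset.mem_univ _, ?_⟩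
    rw [h]
    exact (Perm.sameCycle_pow_left).mpr (Perm.SameCycle.refl p x)
  · intro i hi j hj hij
    have h1 : Set.InjOn (fun k => (⇑p)^[k] x) (Set.Iio (Function.minimalPeriod (⇑p) x)) :=
      Function.iterate_injOn_Iio_minimalPeriod
    apply h1
    · simpa using hi
    · simpa using hj
    · simp only [Perm.iterate_eq_pow]
      exact hij
  · intro y hy
    have hy' : v x = v y := by
      have h2 := (Finset.mem_filter.mp (Finset.mem_coe.mp hy)).2
      exact h2.symm
    rw [h] at hy'
    obtain ⟨i, hi⟩ := hy'.exists_nat_pow_eq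
    refine ⟨i % Function.minimalPeriod (⇑p) x, ?_, ?_⟩
    · rw [Finset.mem_coe, Finset.mem_range]
      exact Nat.mod_lt _ hpos
    · change (p ^ (i % Function.minimalPeriod (⇑p) x)) x = y
      rw [← Perm.iterate_eq_pow, Function.iterate_mod_minimalPeriod_eq, Perm.iterate_eq_pow, hi]

end Pool.Agent.H9.GT
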