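import Pool.Agent.H9.GT.CovPoly

/-!
# Counting (job GT-COUNT)

`fb_card`: `1/2` is not a critical value, so all roots of `Q - 1/2` are simple and there are
`natDegree Q` of them (`Polynomial.nodup_roots`, `IsAlgClosed.card_roots_eq_natDegree`...).

`count_roots`: every root `x` of `Q` (of `1 - Q`) of multiplicity `m` is a root of `Q'` of
multiplicity `m - 1` (`Polynomial.derivative_rootMultiplicity_of_root`), and all roots of `Q'` are
such; sum the multiplicities: `deg Q - 1 = 2 deg Q - (number of roots of Q and of 1 - Q)`.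
-/

set_option autoImplicit false

open Polynomial Set

namespace Pool.Agent.H9.GT

theorem ct_card {P : ℂ[X]} (hP : P ≠ 0) :
    Nat.card {x : ℂ // P.eval x = 0} = P.roots.toFinset.card := by
  refine Nat.subtype_card _ fun x => ?_
  rw [Multiset.mem_toFinset, mem_roots hP, IsRoot.def]

/-- `1/2` is not a critical value, so all roots of `Q - 1/2` are simple. -/
theorem fb_card {Q : ℂ[X]} (h : Good Q) : Nat.card (Fb (ev Q)) = Q.natDegree := by
  have hd : (Q - C (1 / 2)).natDegree = Q.natDegree := natDegree_sub_C
  have hP : Q - C (1 / 2) ≠ 0 := by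
    intro h0
    rw [h0, natDegree_zero] at hd
    exact h.deg.ne hd
  have h1 : Nat.card (Fb (ev Q)) = (Q - C (1 / 2)).roots.toFinset.card := by
    refine Nat.subtype_card _ fun x => ?_
    rw [Multiset.mem_toFinset, mem_roots hP, IsRoot.def, eval_sub, eval_C, sub_eq_zero, ev]
  have h2 : (Q - C (1 / 2)).roots.Nodup := by
    refine Multiset.nodup_iff_count_le_one.2 fun x => ?_
    rw [count_roots]
    by_contra hc
    have hc1 : 1 < (Q - C (1 / 2)).rootMultiplicity x := not_le.1 hc
    rw [one_lt_rootMultiplicity_iff_isRoot hP] at hc1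
    obtain ⟨ha, hb⟩ := hc1
    rw [IsRoot.def, eval_sub, eval_C, sub_eq_zero] at ha
    rw [derivative_sub, derivative_C, sub_zero, IsRoot.def] at hb
    rcases h.crit x hb with h3 | h3
    · rw [ha] at h3
      norm_num at h3
    · rw [ha] at h3
      norm_num at h3
  rw [h1, Multiset.toFinset_card_of_nodup h2, IsAlgClosed.card_roots_eq_natDegree, hd]

theorem ct_sum {P : ℂ[X]} (hP : P ≠ 0) (D : ℂ[X])
    (hD : ∀ x, P.eval x = 0 → D.rootMultiplicity x = P.derivative.rootMultiplicity x) :
    ∑ x ∈ P.roots.toFinset, D.roots.count x + P.roots.toFinset.card = P.natDegree := by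
  rw [← IsAlgClosed.card_roots_eq_natDegree (p := P),
    ← Multiset.sum_count_eq_card (s := P.roots.toFinset) (m := P.roots)
      (fun a ha => Multiset.mem_toFinset.2 ha), Finset.card_eq_sum_ones, ← Finset.sum_add_distrib]
  refine Finset.sum_congr rfl fun x hx => ?_
  rw [Multiset.mem_toFinset, mem_roots hP] at hx
  have h1 := derivative_rootMultiplicity_of_root hx
  have h2 : 0 < P.rootMultiplicity x := (rootMultiplicity_pos hP).2 hx
  rw [Polynomial.count_roots, Polynomial.count_roots, hD x hx, h1]
  omega

theorem count_roots {Q : ℂ[X]} (h : Good Q) :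
    Nat.card {x : ℂ // Q.eval x = 0} + Nat.card {x : ℂ // (1 - Q).eval x = 0} =
      Q.natDegree + 1 := by
  have hQ : Q ≠ 0 := h.ne_zero
  have hd1 : (1 - Q).natDegree = Q.natDegree := by
    rw [natDegree_sub, ← C_1, natDegree_sub_C]
  have hQ1 : 1 - Q ≠ 0 := by
    intro h0
    rw [h0, natDegree_zero] at hd1
    exact h.deg.ne hd1
  have hD : Q.derivative ≠ 0 := by
    intro h0
    have := natDegree_eq_zero_of_derivative_eq_zero h0
    exact h.deg.ne' this
  have hDn : Q.derivative.natDegree = Q.natDegree - 1 :=
    natDegree_eq_of_degree_eq_some (degree_derivative h.deg.ne')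
  rw [ct_card hQ, ct_card hQ1]
  have h0 := ct_sum hQ Q.derivative fun x _ => rfl
  have h1 := ct_sum hQ1 Q.derivative fun x _ => by
    rw [derivative_sub, derivative_one, zero_sub]
    have h5 : -derivative Q = C (-1) * derivative Q := by
      rw [C_neg, C_1, neg_one_mul]
    rw [h5, ← Polynomial.count_roots, ← Polynomial.count_roots, roots_C_mul _ (by norm_num)]
  have hdis : Disjoint Q.roots.toFinset (1 - Q).roots.toFinset := by
    rw [Finset.disjoint_left]
    intro x hx hx'
    rw [Multiset.mem_toFinset, mem_roots hQ, IsRoot.def] at hx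
    rw [Multiset.mem_toFinset, mem_roots hQ1, IsRoot.def, eval_sub, eval_one, hx] at hx'
    norm_num at hx'
  have h2 : ∑ x ∈ Q.roots.toFinset ∪ (1 - Q).roots.toFinset, Q.derivative.roots.count x =
      Q.derivative.roots.card := by
    refine Multiset.sum_count_eq_card fun x hx => ?_
    rw [mem_roots hD, IsRoot.def] at hx
    rw [Finset.mem_union, Multiset.mem_toFinset, Multiset.mem_toFinset, mem_roots hQ,
      mem_roots hQ1, IsRoot.def, IsRoot.def, eval_sub, eval_one]
    rcases h.crit x hx with h3 | h3
    · exact Or.inl h3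
    · exact Or.inr (by rw [h3, sub_self])
  rw [Finset.sum_union hdis, IsAlgClosed.card_roots_eq_natDegree, hDn] at h2
  have := h.deg
  omega

end Pool.Agent.H9.GT
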