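import Pool.Agent.H9.GT.Defs

/-!
# Unique lifting and monodromy permutations (job GT-COV)

`Cov p`: maps from simply connected, locally path connected spaces to `ℂ \ {0, 1}` lift along
`p : E → ℂ`, and lifts are unique (on connected spaces). `Hm (t, s) = exp(2πis) / (1 + exp t)`
maps the plane into the punctured unit disc; for `t = 0` it is the loop `loop0`. `gl p e` is the
lift of `Hm` with value `e` at `(0, 0)`. The monodromy permutation is `e ↦ gl p e (0, 1)`.

`tw i p` is `p` for `i = 0` and `1 - p` for `i = 1`.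

All proofs: uniqueness of lifts on `ℝ × ℝ` (a simply connected locally path connected space:
instances exist for real topological vector spaces: contractible), resp. on `[0,1]` for `mn0`,
`mn1` (restrict the path and `s ↦ gl p e (0, s)` to the subtype `Icc 0 1`, which is preconnected).
-/

set_option autoImplicit false

open Set Filter Topology

namespace Pool.Agent.H9.GT

/-- unique lifting of maps to the plane without `0, 1` -/
structure Cov {E : Type} [TopologicalSpace E] (p : E → ℂ) : Prop where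
  cont : Continuous p
  ex : ∀ (f : ℝ × ℝ → ℂ), Continuous f → (∀ a, f a ≠ 0 ∧ f a ≠ 1) → ∀ (a₀ : ℝ × ℝ) (e₀ : E),
    p e₀ = f a₀ → ∃ F : ℝ × ℝ → E, Continuous F ∧ F a₀ = e₀ ∧ ∀ a, p (F a) = f a
  uni : ∀ {A : Type} [TopologicalSpace A] [PreconnectedSpace A] (F G : A → E), Continuous F →
    Continuous G → (∀ a, p (F a) = p (G a)) → (∀ a, p (F a) ≠ 0 ∧ p (F a) ≠ 1) →
    ∀ a₀ : A, F a₀ = G a₀ → F = G

/-- `p` or `1 - p` -/
def tw {E : Type} (i : Fin 2) (p : E → ℂ) (e : E) : ℂ := if i = 0 then p e else 1 - p e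

/-- the map from the plane to the punctured unit disc -/
noncomputable def Hm (q : ℝ × ℝ) : ℂ :=
  Complex.exp (2 * Real.pi * q.2 * Complex.I) / (1 + Real.exp q.1 : ℝ)

open Classical in
/-- the lift of `Hm` through `e` -/
noncomputable def gl {E : Type} [TopologicalSpace E] (p : E → ℂ) (e : E) : ℝ × ℝ → E :=
  if h : ∃ F : ℝ × ℝ → E, Continuous F ∧ F (0, 0) = e ∧ ∀ q, p (F q) = Hm q then h.choose
  else fun _ => e

/-- the fibre over `1/2` -/
abbrev Fb {E : Type} (p : E → ℂ) : Type := {e : E // p e = 1 / 2}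

section
variable {E : Type} [TopologicalSpace E] {p : E → ℂ}

theorem Hm_cont : Continuous Hm := by
  unfold Hm
  refine Continuous.div (by fun_prop) (by fun_prop) fun q => ?_
  have : (0 : ℝ) < 1 + Real.exp q.1 := by positivity
  exact_mod_cast this.ne'

theorem Hm_norm (q : ℝ × ℝ) : ‖Hm q‖ = 1 / (1 + Real.exp q.1) := by
  unfold Hm
  have h1 : (0 : ℝ) < 1 + Real.exp q.1 := by positivity
  have h2 : (2 * Real.pi * q.2 * Complex.I : ℂ) = ((2 * Real.pi * q.2 : ℝ) : ℂ) * Complex.I := by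
    push_cast; ring
  rw [norm_div, h2, Complex.norm_exp_ofReal_mul_I, Complex.norm_real, Real.norm_eq_abs,
    abs_of_pos h1]

theorem Hm_ne (q : ℝ × ℝ) : Hm q ≠ 0 ∧ Hm q ≠ 1 := by
  have h1 : (0 : ℝ) < 1 + Real.exp q.1 := by positivity
  have hn := Hm_norm q
  constructor
  · intro h
    rw [h, norm_zero] at hn
    have : (0 : ℝ) < 1 / (1 + Real.exp q.1) := by positivity
    exact absurd hn this.ne
  · intro h
    rw [h, norm_one, eq_div_iff h1.ne', one_mul] at hn
    have := Real.exp_pos q.1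
    linarith

theorem Hm_zero : Hm (0, 0) = 1 / 2 := by
  unfold Hm
  simp
  norm_num

theorem Hm_add_int (t s : ℝ) (n : ℤ) : Hm (t, s + n) = Hm (t, s) := by
  unfold Hm
  have h : (2 * Real.pi * ((s + n : ℝ) : ℂ) * Complex.I : ℂ) =
      2 * Real.pi * (s : ℂ) * Complex.I + n * (2 * Real.pi * Complex.I) := by
    push_cast; ring
  change Complex.exp (2 * Real.pi * ((s + n : ℝ) : ℂ) * Complex.I) / _ =
    Complex.exp (2 * Real.pi * (s : ℂ) * Complex.I) / _
  rw [h, Complex.exp_add, Complex.exp_int_mul_two_pi_mul_I, mul_one]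

theorem Hm_loop (s : ℝ) : Hm (0, s) = loop0 s := by
  unfold Hm loop0
  simp
  norm_num

theorem tw_half (i : Fin 2) (e : E) : tw i p e = 1 / 2 ↔ p e = 1 / 2 := by
  unfold tw
  split_ifs
  · exact Iff.rfl
  · constructor
    · intro h
      linear_combination -h
    · intro h
      rw [h]; norm_num

theorem cov_one_sub (hc : Cov p) : Cov (fun e => 1 - p e) where
  cont := continuous_const.sub hc.cont
  ex f hf h0 a₀ e₀ he := by
    obtain ⟨F, h1, h2, h3⟩ := hc.ex (fun a => 1 - f a) (continuous_const.sub hf)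
      (fun a => ⟨sub_ne_zero.2 (h0 a).2.symm, fun h => (h0 a).1 (by linear_combination -h)⟩)
      a₀ e₀ (by linear_combination -he)
    exact ⟨F, h1, h2, fun a => by rw [h3 a]; ring⟩
  uni F G hF hG h1 h2 a₀ h3 := by
    refine hc.uni F G hF hG (fun a => by linear_combination -h1 a) (fun a => ?_) a₀ h3
    exact ⟨fun h => (h2 a).2 (by rw [h]; ring), fun h => (h2 a).1 (by rw [h]; ring)⟩

theorem tw_zero (p : E → ℂ) : tw 0 p = p := by
  funext e; simp [tw]

theorem tw_one (p : E → ℂ) : tw 1 p = fun e => 1 - p e := by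
  funext e; simp [tw]

theorem Cov.tw (hc : Cov p) (i : Fin 2) : Cov (tw i p) := by
  fin_cases i
  · change Cov (Pool.Agent.H9.GT.tw 0 p)
    rw [tw_zero]; exact hc
  · change Cov (Pool.Agent.H9.GT.tw 1 p)
    rw [tw_one]; exact cov_one_sub hc

theorem gl_spec (hc : Cov p) {e : E} (he : p e = 1 / 2) :
    Continuous (gl p e) ∧ gl p e (0, 0) = e ∧ ∀ q, p (gl p e q) = Hm q := by
  have h : ∃ F : ℝ × ℝ → E, Continuous F ∧ F (0, 0) = e ∧ ∀ q, p (F q) = Hm q :=
    hc.ex Hm Hm_cont Hm_ne (0, 0) e (by rw [he, Hm_zero])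
  have h1 : gl p e = h.choose := by
    unfold gl
    rw [dif_pos h]
  rw [h1]
  exact h.choose_spec

theorem gl_unique (hc : Cov p) {e : E} (he : p e = 1 / 2) (F : ℝ × ℝ → E) (hF : Continuous F)
    (hF' : ∀ q, p (F q) = Hm q) (q₀ : ℝ × ℝ) (h : F q₀ = gl p e q₀) : F = gl p e := by
  obtain ⟨h1, _, h3⟩ := gl_spec hc he
  exact hc.uni F (gl p e) hF h1 (fun a => by rw [hF', h3]) (fun a => by rw [hF']; exact Hm_ne a)
    q₀ h

theorem gl_half (hc : Cov p) {e : E} (he : p e = 1 / 2) (n : ℤ) :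
    p (gl p e (0, n)) = 1 / 2 := by
  rw [(gl_spec hc he).2.2, ← zero_add (n : ℝ), Hm_add_int, Hm_zero]

theorem gl_shift_aux (hc : Cov p) {e : E} (he : p e = 1 / 2) (n : ℤ) :
    Continuous (fun q : ℝ × ℝ => gl p e (q.1, q.2 + n)) ∧
      ∀ q : ℝ × ℝ, p (gl p e (q.1, q.2 + n)) = Hm q := by
  obtain ⟨h1, _, h3⟩ := gl_spec hc he
  exact ⟨h1.comp (by fun_prop), fun q => by rw [h3, Hm_add_int]⟩

theorem gl_shift (hc : Cov p) {e : E} (he : p e = 1 / 2) (n : ℤ) (t s : ℝ) :
    gl p (gl p e (0, n)) (t, s) = gl p e (t, s + n) := by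
  obtain ⟨h1, h2⟩ := gl_shift_aux hc he n
  have hh := gl_half hc he n
  have h3 := gl_unique hc hh _ h1 h2 (0, 0) (by
    rw [(gl_spec hc hh).2.1]
    simp)
  exact (congrFun h3 (t, s)).symm

/-- two points whose lifts meet are related by a power of the monodromy -/
theorem gl_meet (hc : Cov p) {e e' : E} (he : p e = 1 / 2) (he' : p e' = 1 / 2) (t : ℝ) (n : ℤ)
    (h : gl p e' (t, 0) = gl p e (t, n)) : e' = gl p e (0, n) := by
  obtain ⟨h1, h2⟩ := gl_shift_aux hc he n
  have h3 := gl_unique hc he' _ h1 h2 (t, 0) (by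
    rw [h]
    simp)
  have h4 := congrFun h3 (0, 0)
  rw [(gl_spec hc he').2.1] at h4
  rw [← h4]
  simp

theorem gl_nat {E' : Type} [TopologicalSpace E'] {p' : E' → ℂ} (hc : Cov p) (hc' : Cov p')
    (φ : E → E') (hφ : Continuous φ) (h : ∀ e, p' (φ e) = p e) {e : E} (he : p e = 1 / 2)
    (q : ℝ × ℝ) : gl p' (φ e) q = φ (gl p e q) := by
  obtain ⟨h1, h2, h3⟩ := gl_spec hc he
  have he' : p' (φ e) = 1 / 2 := by rw [h, he]
  have h4 := gl_unique hc' he' (fun q => φ (gl p e q)) (hφ.comp h1) (fun q => by rw [h, h3])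
    (0, 0) (by rw [(gl_spec hc' he').2.1, h2])
  exact (congrFun h4 q).symm

/-- The monodromy permutation along the loop around `0` (`i = 0`) or `1` (`i = 1`). -/
noncomputable def moi (p : E → ℂ) (hc : Cov p) (i : Fin 2) : Equiv.Perm (Fb p) where
  toFun e := ⟨gl (tw i p) e.1 (0, 1), by
    have := gl_half (hc.tw i) ((tw_half i e.1).2 e.2) 1
    rw [tw_half, Int.cast_one] at this
    exact this⟩
  invFun e := ⟨gl (tw i p) e.1 (0, -1), by
    have := gl_half (hc.tw i) ((tw_half i e.1).2 e.2) (-1)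
    rw [tw_half, Int.cast_neg, Int.cast_one] at this
    exact this⟩
  left_inv e := by
    apply Subtype.ext
    have he := (tw_half (p := p) i e.1).2 e.2
    have h := gl_shift (hc.tw i) he 1 0 (-1)
    rw [Int.cast_one] at h
    change gl (tw i p) (gl (tw i p) e.1 (0, 1)) (0, -1) = e.1
    rw [h, neg_add_cancel]
    exact (gl_spec (hc.tw i) he).2.1
  right_inv e := by
    apply Subtype.ext
    have he := (tw_half (p := p) i e.1).2 e.2
    have h := gl_shift (hc.tw i) he (-1) 0 1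
    rw [Int.cast_neg, Int.cast_one] at h
    change gl (tw i p) (gl (tw i p) e.1 (0, -1)) (0, 1) = e.1
    rw [h, add_neg_cancel]
    exact (gl_spec (hc.tw i) he).2.1

theorem moi_apply (hc : Cov p) (i : Fin 2) (e : Fb p) :
    (moi p hc i e).1 = gl (tw i p) e.1 (0, 1) := rfl

theorem moi_pow (hc : Cov p) (i : Fin 2) (n : ℕ) (e : Fb p) :
    ((moi p hc i ^ n) e).1 = gl (tw i p) e.1 (0, n) := by
  have he := (tw_half (p := p) i e.1).2 e.2
  induction n with
  | zero =>
    rw [pow_zero, Nat.cast_zero]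
    exact (gl_spec (hc.tw i) he).2.1.symm
  | succ n ih =>
    rw [pow_succ', Equiv.Perm.mul_apply, moi_apply, ih]
    have h := gl_shift (hc.tw i) he n 0 1
    rw [Int.cast_natCast] at h
    rw [h]
    push_cast
    rw [add_comm]

theorem moi_zpow (hc : Cov p) (i : Fin 2) (n : ℤ) (e : Fb p) :
    ((moi p hc i ^ n) e).1 = gl (tw i p) e.1 (0, n) := by
  obtain ⟨m, rfl | rfl⟩ := n.eq_nat_or_neg
  · rw [zpow_natCast, moi_pow, Int.cast_natCast]
  · set e1 := (moi p hc i ^ (-(m : ℤ))) e with he1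
    have h1 : (moi p hc i ^ m) e1 = e := by
      rw [he1, ← Equiv.Perm.mul_apply, ← zpow_natCast, ← zpow_add, add_neg_cancel, zpow_zero]
      rfl
    have h2 := moi_pow hc i m e1
    rw [h1] at h2
    have he := (tw_half (p := p) i e1.1).2 e1.2
    have h := gl_shift (hc.tw i) he m 0 (-m)
    rw [Int.cast_natCast, ← h2, neg_add_cancel, (gl_spec (hc.tw i) he).2.1] at h
    rw [Int.cast_neg, Int.cast_natCast]
    exact h.symm

theorem moi_sameCycle [Finite (Fb p)] (hc : Cov p) (i : Fin 2) (e e' : Fb p) :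
    (moi p hc i).SameCycle e e' ↔ ∃ n : ℤ, gl (tw i p) e.1 (0, n) = e'.1 := by
  constructor
  · rintro ⟨n, hn⟩
    exact ⟨n, by rw [← moi_zpow hc, hn]⟩
  · rintro ⟨n, hn⟩
    exact ⟨n, Subtype.ext (by rw [moi_zpow hc, hn])⟩

theorem moi_period (hc : Cov p) (i : Fin 2) (e : Fb p) (d : ℕ)
    (h : ∀ n : ℕ, gl (tw i p) e.1 (0, n) = e.1 ↔ d ∣ n) :
    Function.minimalPeriod (⇑(moi p hc i)) e = d := by
  have h1 : ∀ n : ℕ, Function.minimalPeriod (⇑(moi p hc i)) e ∣ n ↔ d ∣ n := by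
    intro n
    rw [← h n, ← Function.isPeriodicPt_iff_minimalPeriod_dvd]
    unfold Function.IsPeriodicPt Function.IsFixedPt
    rw [Equiv.Perm.iterate_eq_pow]
    constructor
    · intro h2
      rw [← moi_pow hc, h2]
    · intro h2
      exact Subtype.ext (by rw [moi_pow hc, h2])
  exact Nat.dvd_antisymm ((h1 d).2 dvd_rfl) ((h1 _).1 dvd_rfl)

/-- lifts of paths -/
def Mn (p : E → ℂ) (c : ℝ → ℂ) (e e' : E) : Prop :=
  ∃ γ : ℝ → E, ContinuousOn γ (Icc 0 1) ∧ γ 0 = e ∧ γ 1 = e' ∧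
    ∀ s ∈ Icc (0 : ℝ) 1, p (γ s) = c s

theorem mn_gen (hc : Cov p) {e e' : E} (he : p e = 1 / 2) :
    Mn p loop0 e e' ↔ gl p e (0, 1) = e' := by
  obtain ⟨h1, h2, h3⟩ := gl_spec hc he
  constructor
  · rintro ⟨γ, hγ, hγ0, hγ1, hγp⟩
    have : PreconnectedSpace (Icc (0 : ℝ) 1) :=
      Subtype.preconnectedSpace isPreconnected_Icc
    have h4 := hc.uni (A := Icc (0 : ℝ) 1) (fun s => γ s) (fun s => gl p e (0, s))
      (continuousOn_iff_continuous_restrict.1 hγ) (h1.comp (by fun_prop))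
      (fun s => by rw [hγp s s.2, h3, Hm_loop])
      (fun s => by rw [hγp s s.2, ← Hm_loop]; exact Hm_ne _) ⟨0, by simp⟩ (by
        change γ 0 = gl p e (0, 0)
        rw [hγ0, h2])
    have h5 := congrFun h4 ⟨1, by simp⟩
    rw [← hγ1]
    exact h5.symm
  · intro h
    refine ⟨fun s => gl p e (0, s), (h1.comp (by fun_prop)).continuousOn, h2, h, fun s _ => ?_⟩
    rw [h3, Hm_loop]

theorem mn0 (hc : Cov p) (e e' : Fb p) : Mn p loop0 e.1 e'.1 ↔ moi p hc 0 e = e' := by
  rw [mn_gen hc e.2, Subtype.ext_iff, moi_apply, tw_zero]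

theorem mn1 (hc : Cov p) (e e' : Fb p) : Mn p loop1 e.1 e'.1 ↔ moi p hc 1 e = e' := by
  rw [Subtype.ext_iff, moi_apply, ← mn_gen (hc.tw 1) ((tw_half (p := p) 1 e.1).2 e.2)]
  unfold Mn
  rw [tw_one]
  have h : ∀ s, loop1 s = 1 - loop0 s := fun s => rfl
  constructor
  · rintro ⟨γ, h1, h2, h3, h4⟩
    exact ⟨γ, h1, h2, h3, fun s hs => by
      change 1 - p (γ s) = loop0 s
      rw [h4 s hs, h]; ring⟩
  · rintro ⟨γ, h1, h2, h3, h4⟩
    exact ⟨γ, h1, h2, h3, fun s hs => by rw [h, ← h4 s hs]; ring⟩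

end

end Pool.Agent.H9.GT
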