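import Pool.Agent.H9.GT.Cov

/-!
# Unique lifting for polynomials and for the curve (job GT-COVP)

`cov_poly`: existence from `Polynomial.isCoveringMapOn_eval` (the set of critical values is
contained in `{0, 1}`; `IsCoveringMapOn.mono`) and `IsCoveringMapOn.existsUnique_continuousMap_lifts`.
Uniqueness: the set where `F = G` is closed, nonempty, and open because `Q.eval` is injective near
`F a` (its derivative is not zero there: `HasStrictDerivAt`, `HasStrictFDerivAt.toOpenPartialHomeomorph`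
or use `IsCoveringMapOn` and `IsSeparatedMap.eq_of_comp_eq` for the restriction to the preimage).

`cov_curve`: project to the first coordinate, which is covered by `cov_poly`; for the second
coordinate lift the nowhere vanishing map `x (x - 1) (x - l)` along `y ↦ y ^ 2`
(`isCoveringMapOn_npow 2`); `x = F a` is none of `0, 1, l` because `Q (F a)` is not `0` or `1`.
For uniqueness apply the same to `y ↦ y ^ 2` (or: the two second coordinates `y, y'` satisfy
`y ^ 2 = y' ^ 2 ≠ 0`, so `y / y'` is continuous with values in `{1, -1}`, hence constant).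
-/

set_option autoImplicit false

open Polynomial Set Filter Topology

namespace Pool.Agent.H9.GT

theorem covp_uni {E X A : Type} [TopologicalSpace E] [TopologicalSpace X] [TopologicalSpace A]
    [PreconnectedSpace A] {p : E → X} {s : Set X} (hcov : IsCoveringMapOn p s) (F G : A → E)
    (hF : Continuous F) (hG : Continuous G) (h : ∀ a, p (F a) = p (G a)) (hs : ∀ a, p (F a) ∈ s)
    (a₀ : A) (h0 : F a₀ = G a₀) : F = G := by
  have h1 : (fun a => (⟨F a, hs a⟩ : p ⁻¹' s)) =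
      fun a => (⟨G a, by rw [Set.mem_preimage, ← h a]; exact hs a⟩ : p ⁻¹' s) := by
    refine hcov.isCoveringMap_restrictPreimage.eq_of_comp_eq (by fun_prop) (by fun_prop) ?_ a₀ ?_
    · funext a
      exact Subtype.ext (h a)
    · exact Subtype.ext h0
  funext a
  exact congrArg Subtype.val (congrFun h1 a)

theorem covp_sq_finite (c : ℂ) : {y : ℂ | y ^ 2 = c}.Finite := by
  have hne : (X ^ 2 - C c : ℂ[X]) ≠ 0 := X_pow_sub_C_ne_zero (by norm_num) c
  refine ((X ^ 2 - C c : ℂ[X]).rootSet_finite ℂ).subset ?_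
  intro y hy
  rw [mem_rootSet]
  refine ⟨hne, ?_⟩
  have : y ^ 2 = c := hy
  simp [this]

theorem covp_ev_finite {Q : ℂ[X]} (hQ : 0 < Q.natDegree) (c : ℂ) :
    {x : ℂ | Q.eval x = c}.Finite := by
  have hne : Q - C c ≠ 0 := by
    intro h
    rw [sub_eq_zero] at h
    rw [h, natDegree_C] at hQ
    exact lt_irrefl 0 hQ
  refine ((Q - C c).rootSet_finite ℂ).subset ?_
  intro y hy
  rw [mem_rootSet]
  refine ⟨hne, ?_⟩
  have : Q.eval y = c := hy
  simp [this]

/-- nonconstant polynomials with critical values in `{0, 1}` -/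
structure Good (Q : ℂ[X]) : Prop where
  deg : 0 < Q.natDegree
  crit : ∀ x, Q.derivative.eval x = 0 → Q.eval x = 0 ∨ Q.eval x = 1

/-- `Q` or `1 - Q` -/
noncomputable def twP (i : Fin 2) (Q : ℂ[X]) : ℂ[X] := if i = 0 then Q else 1 - Q

/-- evaluation as a function -/
noncomputable def ev (Q : ℂ[X]) (x : ℂ) : ℂ := Q.eval x

/-- the function `Q(x)` on the curve -/
noncomputable def evC (Q : ℂ[X]) (l : ℂ) (e : Curve l) : ℂ := Q.eval e.1.1

theorem tw_ev (i : Fin 2) (Q : ℂ[X]) : tw i (ev Q) = ev (twP i Q) := by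
  funext x
  unfold tw ev twP
  split <;> simp

theorem tw_evC (i : Fin 2) (Q : ℂ[X]) (l : ℂ) : tw i (evC Q l) = evC (twP i Q) l := by
  funext x
  unfold tw evC twP
  split <;> simp

theorem Good.tw {Q : ℂ[X]} (h : Good Q) (i : Fin 2) : Good (twP i Q) := by
  unfold twP
  split
  · exact h
  · refine ⟨?_, ?_⟩
    · rw [natDegree_sub_eq_right_of_natDegree_lt]
      · exact h.deg
      · rw [natDegree_one]
        exact h.deg
    · intro x hx
      have h1 : Q.derivative.eval x = 0 := by simpa using hx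
      rcases h.crit x h1 with h2 | h2
      · right
        simp [h2]
      · left
        simp [h2]

theorem Good.ne_zero {Q : ℂ[X]} (h : Good Q) : Q ≠ 0 := by
  rintro rfl
  simpa using h.deg

theorem covp_on {Q : ℂ[X]} (h : Good Q) : IsCoveringMapOn (ev Q) ({0, 1}ᶜ : Set ℂ) := by
  refine (Q.isCoveringMapOn_eval).mono ?_
  rw [compl_subset_compl]
  rintro _ ⟨k, hk, rfl⟩
  exact h.crit k hk

theorem covp_sq_on : IsCoveringMapOn (fun x : ℂ => x ^ 2) ({0}ᶜ : Set ℂ) :=
  isCoveringMapOn_npow 2 (by norm_num)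

theorem covp_lift {s : Set ℂ} {p : ℂ → ℂ} (hcov : IsCoveringMapOn p s) (f : ℝ × ℝ → ℂ)
    (hf : Continuous f) (hs : ∀ a, f a ∈ s) (a₀ : ℝ × ℝ) (e₀ : ℂ) (h0 : p e₀ = f a₀) :
    ∃ F : ℝ × ℝ → ℂ, Continuous F ∧ F a₀ = e₀ ∧ ∀ a, p (F a) = f a := by
  obtain ⟨F, ⟨h1, h2⟩, -⟩ := hcov.existsUnique_continuousMap_lifts (⟨f, hf⟩ : C(ℝ × ℝ, ℂ))
    (a₀ := a₀) (e₀ := e₀) h0 hs
  exact ⟨F, F.continuous, h1, fun a => congrFun h2 a⟩

theorem cov_poly {Q : ℂ[X]} (h : Good Q) : Cov (ev Q) where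
  cont := Q.continuous
  ex f hf hs a₀ e₀ h0 := covp_lift (covp_on h) f hf (fun a => by
    simpa [not_or] using hs a) a₀ e₀ h0
  uni F G hF hG h1 h2 a₀ h3 := covp_uni (covp_on h) F G hF hG h1 (fun a => by
    simpa [not_or] using h2 a) a₀ h3

theorem cov_curve {Q : ℂ[X]} (h : Good Q) {l : ℂ} (h0 : Q.eval 0 = 0 ∨ Q.eval 0 = 1)
    (h1 : Q.eval 1 = 0 ∨ Q.eval 1 = 1) (hl : Q.eval l = 0 ∨ Q.eval l = 1) : Cov (evC Q l) := by
  have hne : ∀ x : ℂ, Q.eval x ≠ 0 ∧ Q.eval x ≠ 1 → x * (x - 1) * (x - l) ≠ 0 := by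
    intro x hx h2
    have h3 : x = 0 ∨ x = 1 ∨ x = l := by
      rcases mul_eq_zero.1 h2 with h3 | h3
      · rcases mul_eq_zero.1 h3 with h4 | h4
        · exact Or.inl h4
        · exact Or.inr (Or.inl (sub_eq_zero.1 h4))
      · exact Or.inr (Or.inr (sub_eq_zero.1 h3))
    rcases h3 with rfl | rfl | rfl
    · rcases h0 with h4 | h4
      · exact hx.1 h4
      · exact hx.2 h4
    · rcases h1 with h4 | h4
      · exact hx.1 h4
      · exact hx.2 h4
    · rcases hl with h4 | h4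
      · exact hx.1 h4
      · exact hx.2 h4
  refine ⟨?_, ?_, ?_⟩
  · exact Q.continuous.comp (continuous_fst.comp continuous_subtype_val)
  · intro f hf hs a₀ e₀ he
    obtain ⟨F1, c1, v1, l1⟩ := (cov_poly h).ex f hf hs a₀ e₀.1.1 he
    obtain ⟨F2, c2, v2, l2⟩ := covp_lift covp_sq_on (fun a => F1 a * (F1 a - 1) * (F1 a - l))
      (by fun_prop) (fun a => by
        rw [mem_compl_iff, mem_singleton_iff]
        refine hne _ ?_
        have : Q.eval (F1 a) = f a := l1 a
        rw [this]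
        exact hs a) a₀ e₀.1.2 (by
          rw [v1]
          exact e₀.2)
    refine ⟨fun a => ⟨(F1 a, F2 a), l2 a⟩, by fun_prop, ?_, ?_⟩
    · apply Subtype.ext
      exact Prod.ext v1 v2
    · intro a
      exact l1 a
  · intro A _ _ F G hF hG hFG hne2 a₀ ha
    have e1 : (fun a => (F a).1.1) = fun a => (G a).1.1 := by
      refine covp_uni (covp_on h) _ _ (by fun_prop) (by fun_prop) hFG (fun a => ?_) a₀ ?_
      · have h3 : Q.eval (F a).1.1 ≠ 0 ∧ Q.eval (F a).1.1 ≠ 1 := hne2 a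
        have h4 : ev Q (F a).1.1 ≠ 0 ∧ ev Q (F a).1.1 ≠ 1 := h3
        simpa [not_or] using h4
      · rw [ha]
    have e2 : (fun a => (F a).1.2) = fun a => (G a).1.2 := by
      refine covp_uni covp_sq_on _ _ (by fun_prop) (by fun_prop) (fun a => ?_) (fun a => ?_) a₀ ?_
      · have h3 : (F a).1.2 ^ 2 = (F a).1.1 * ((F a).1.1 - 1) * ((F a).1.1 - l) := (F a).2
        have h4 : (G a).1.2 ^ 2 = (G a).1.1 * ((G a).1.1 - 1) * ((G a).1.1 - l) := (G a).2
        have h5 : (F a).1.1 = (G a).1.1 := congrFun e1 a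
        rw [h3, h4, h5]
      · have h3 : (F a).1.2 ^ 2 = (F a).1.1 * ((F a).1.1 - 1) * ((F a).1.1 - l) := (F a).2
        rw [mem_compl_iff, mem_singleton_iff]
        rw [h3]
        exact hne _ (hne2 a)
      · rw [ha]
    funext a
    apply Subtype.ext
    exact Prod.ext (congrFun e1 a) (congrFun e2 a)

theorem fb_finite {Q : ℂ[X]} (h : Good Q) : Finite (Fb (ev Q)) :=
  (covp_ev_finite h.deg (1 / 2)).to_subtype

theorem fbC_finite {Q : ℂ[X]} (h : Good Q) (l : ℂ) : Finite (Fb (evC Q l)) := by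
  have hS : {x : ℂ | Q.eval x = 1 / 2}.Finite := covp_ev_finite h.deg (1 / 2)
  have hT : (⋃ x ∈ {x : ℂ | Q.eval x = 1 / 2},
      {y : ℂ | y ^ 2 = x * (x - 1) * (x - l)}).Finite :=
    hS.biUnion fun x _ => covp_sq_finite _
  have hST := hS.prod hT
  have : Finite ↥({x : ℂ | Q.eval x = 1 / 2} ×ˢ (⋃ x ∈ {x : ℂ | Q.eval x = 1 / 2},
      {y : ℂ | y ^ 2 = x * (x - 1) * (x - l)})) := hST.to_subtype
  refine Finite.of_injective (β := ↥({x : ℂ | Q.eval x = 1 / 2} ×ˢ
      (⋃ x ∈ {x : ℂ | Q.eval x = 1 / 2}, {y : ℂ | y ^ 2 = x * (x - 1) * (x - l)})))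
    (fun e => ⟨e.1.1, ⟨e.2, ?_⟩⟩) ?_
  · rw [mem_iUnion₂]
    exact ⟨e.1.1.1, e.2, e.1.2⟩
  · intro e e' he
    apply Subtype.ext
    apply Subtype.ext
    have h3 := congrArg Subtype.val he
    exact h3

end Pool.Agent.H9.GT
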