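import Mathlib

/-!
# The action of (a group containing) the Grothendieck-Teichmueller group on dessins (MP_1530fa_nt)

Definitions.
-/

set_option autoImplicit false

open Polynomial Set

namespace Pool.Agent.H9.GT

/-- A unit of the ring of profinite integers, given by its residue `r n` modulo every `n ≥ 1`. -/
structure ZHatUnit where
  r : ℕ → ℕ
  compat : ∀ m n : ℕ, 0 < n → m ∣ n → r n ≡ r m [MOD m]
  cop : ∀ n : ℕ, 0 < n → (r n).Coprime n

/-- The power `g ^ μ` in a finite group. -/
noncomputable def ZHatUnit.pow (μ : ZHatUnit) {G : Type} [Group G] (g : G) : G := g ^ μ.r (orderOf g)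

/-- An element `f` of the free profinite group on two generators, given by its values `f(a, b)` in
all finite groups. -/
structure FHat where
  ev : ∀ (G : Type) [Group G] [Finite G], G → G → G
  nat : ∀ (G H : Type) [Group G] [Finite G] [Group H] [Finite H] (φ : G →* H) (a b : G),
    φ (ev G a b) = ev H (φ a) (φ b)

/-- Pairs `F = (μ, f)`, with `μ` a profinite unit and `f` in the free profinite group. -/
structure GPair where
  mu : ZHatUnit
  f : FHat

/-- `F` acts on pairs of elements of a finite group: first component `a ^ μ`. -/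
noncomputable def GPair.X (F : GPair) {G : Type} [Group G] [Finite G] (a _b : G) : G := F.mu.pow a

/-- `F` acts on pairs of elements of a finite group: second component `f(a,b)⁻¹ b ^ μ f(a,b)`. -/
noncomputable def GPair.Y (F : GPair) {G : Type} [Group G] [Finite G] (a b : G) : G :=
  (F.f.ev G a b)⁻¹ * F.mu.pow b * F.f.ev G a b

/-- The endomorphism `x ↦ x ^ μ`, `y ↦ f⁻¹ y ^ μ f` of the free profinite group is an
automorphism: it induces bijections on the pairs of elements of all finite groups. -/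
def GPair.IsAut (F : GPair) : Prop :=
  ∀ (G : Type) [Group G] [Finite G],
    Function.Bijective fun p : G × G => ((F.X p.1 p.2, F.Y p.1 p.2) : G × G)

/-- The loop around `0` based at `1/2`. -/
noncomputable def loop0 (s : ℝ) : ℂ := Complex.exp (2 * Real.pi * s * Complex.I) / 2

/-- The loop around `1` based at `1/2`. -/
noncomputable def loop1 (s : ℝ) : ℂ := 1 - Complex.exp (2 * Real.pi * s * Complex.I) / 2

/-- The affine elliptic curve `y² = x (x - 1) (x - l)`. -/
def Curve (l : ℂ) : Set (ℂ × ℂ) := {p | p.2 ^ 2 = p.1 * (p.1 - 1) * (p.1 - l)}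

/-- The points of the curve over `1/2`, for the function `B(x)`. -/
abbrev Fibre (B : ℂ[X]) (l : ℂ) : Type := {p : ℂ × ℂ // p ∈ Curve l ∧ B.eval p.1 = 1 / 2}

/-- The lift of the path `c` which starts in `p` ends in `q`. -/
def Mon (B : ℂ[X]) (l : ℂ) (c : ℝ → ℂ) (p q : ℂ × ℂ) : Prop :=
  ∃ γ : ℝ → ℂ × ℂ, ContinuousOn γ (Icc 0 1) ∧ γ 0 = p ∧ γ 1 = q ∧
    ∀ s ∈ Icc (0 : ℝ) 1, γ s ∈ Curve l ∧ B.eval (γ s).1 = c s

/-- `(Ω, σ₀, σ₁)` is the dessin of the function `B(x)` on the curve `y² = x (x - 1) (x - l)`: the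
finite set `Ω` with two permutations is isomorphic to the fibre over `1/2` with the monodromy
along the loops around `0` and `1`. -/
def IsDessin (B : ℂ[X]) (l : ℂ) (Ω : Type) (σ₀ σ₁ : Equiv.Perm Ω) : Prop :=
  ∃ e : Ω ≃ Fibre B l, ∀ w : Ω,
    Mon B l loop0 (e w).1 (e (σ₀ w)).1 ∧ Mon B l loop1 (e w).1 (e (σ₁ w)).1

/-- The polynomial `((m+n)^(m+n) / (m^m n^n)) z^m (1 - z)^n` of Belyi. -/
noncomputable def belyi (m n : ℕ) : ℚ[X] :=
  C (((m + n : ℕ) : ℚ) ^ (m + n) / ((m : ℚ) ^ m * (n : ℚ) ^ n)) * X ^ m * (1 - X) ^ n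

/-- Last step of the algorithm of Belyi, for a set `S` of three rational points: a rational affine
map sends `S` to `{0, m/(m+n), 1}`, and is followed by `belyi m n`. -/
def LastStep (S : Set ℚ) (T : ℚ[X]) : Prop :=
  ∃ (a b : ℚ) (m n : ℕ), a ≠ 0 ∧ 0 < m ∧ 0 < n ∧
    (fun t => a * t + b) '' S = {0, (m : ℚ) / (m + n : ℕ), 1} ∧
    T = (belyi m n).comp (C a * X + C b)

/-- The `j`-invariant of `y² = x (x - 1) (x - l)`. -/
noncomputable def jInv (l : ℂ) : ℂ := 256 * (l ^ 2 - l + 1) ^ 3 / (l ^ 2 * (l - 1) ^ 2)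

end Pool.Agent.H9.GT
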