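import Pool.Agent.H9.GT.Core

/-!
# Torsors over a tree (job GT-TORSOR)

`X`, `X'` are torsors of the finite abelian group `A` over `Ω` (free action, orbits = fibres of
`π`, `π'`), `S0, S1` resp. `S0', S1'` are permutations over `p0, p1` which commute with `A`, and
`θ` is an automorphism of `A`. If the holonomies along all cycles correspond under `θ`, there is
a bijection `φ : X ≃ X'` over `Ω`, `θ`-equivariant, which intertwines the permutations.

Proof. Choose sections `s : Ω → X`, `s' : Ω → X'` of `π`, `π'`. Define `a_i : Ω → A` by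
`S_i (s x) = a_i x • s (p_i x)` and `a_i'` in the same way. By induction
`(S_i ^ n) (s x) = (∏ j < n, a_i ((p_i ^ j) x)) • s ((p_i ^ n) x)`; with `n` the minimal period of
`x` under `p_i` this is `(∏ y with v_i y = v_i x, a_i y) • s x` (`prod_cycle`). So the hypothesis
gives `θ (∏ y with v_i y = c, a_i y) = ∏ y with v_i y = c, a_i' y` for all `c` (surjectivity of
`v_i`). Put `r_i x = a_i' x / θ (a_i x)` and take `b` with `r_i x = b (p_i x) / b x` from `core`.
Define `φ (a • s x) = θ a • (b x)⁻¹ • s' x`. Then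
`φ (S_i (s x)) = φ (a_i x • s (p_i x)) = θ (a_i x) • (b (p_i x))⁻¹ • s' (p_i x)` and
`S_i' (φ (s x)) = (b x)⁻¹ • a_i' x • s' (p_i x)`; these are equal as
`a_i' x / θ (a_i x) = b (p_i x) / b x`... (check the sign; if necessary use `b` instead of `b⁻¹`).
-/

set_option autoImplicit false

namespace Pool.Agent.H9.GT

open Equiv

/-- `X` is an `A`-torsor over `Ω` with projection `π`, and `S0, S1` are `A`-equivariant
permutations over `p0, p1`. -/
structure IsTors (A : Type) {X Ω : Type} [CommGroup A] [MulAction A X] (π : X → Ω)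
    (p0 p1 : Perm Ω) (S0 S1 : Perm X) : Prop where
  surj : Function.Surjective π
  orbit : ∀ x y : X, π x = π y ↔ ∃ a : A, a • x = y
  free : ∀ (a : A) (x : X), a • x = x → a = 1
  comm0 : ∀ (a : A) (x : X), S0 (a • x) = a • S0 x
  comm1 : ∀ (a : A) (x : X), S1 (a • x) = a • S1 x
  cov0 : ∀ x, π (S0 x) = p0 (π x)
  cov1 : ∀ x, π (S1 x) = p1 (π x)

/-- `Ω` with `p0, p1` is a tree with vertex maps `v0, v1`. -/
structure IsTree {Ω C0 C1 : Type} (p0 p1 : Perm Ω) (v0 : Ω → C0) (v1 : Ω → C1) : Prop where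
  surj0 : Function.Surjective v0
  surj1 : Function.Surjective v1
  same0 : ∀ x y, v0 x = v0 y ↔ p0.SameCycle x y
  same1 : ∀ x y, v1 x = v1 y ↔ p1.SameCycle x y
  card : Nat.card C0 + Nat.card C1 = Nat.card Ω + 1
  trans : ∀ x y, ∃ g ∈ Subgroup.closure {p0, p1}, g x = y

section TorsOne

variable {A X Ω : Type} [CommGroup A] [MulAction A X]

theorem tors_pow {p : Perm Ω} {S : Perm X} {s : Ω → X} {a : Ω → A}
    (comm : ∀ (a : A) (x : X), S (a • x) = a • S x) (h : ∀ x, S (s x) = a x • s (p x)) (x : Ω)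
    (n : ℕ) : (S ^ n) (s x) = (∏ j ∈ Finset.range n, a ((p ^ j) x)) • s ((p ^ n) x) := by
  induction n with
  | zero => simp
  | succ n ih =>
    rw [pow_succ', Perm.mul_apply, ih, comm, h, Finset.prod_range_succ, mul_smul, pow_succ',
      Perm.mul_apply]

theorem tors_eq {s : X} (free : ∀ (a : A) (x : X), a • x = x → a = 1) {a b : A}
    (h : a • s = b • s) : a = b := by
  have h1 : (b⁻¹ * a) • s = s := by
    rw [mul_smul, h, ← mul_smul, inv_mul_cancel, one_smul]
  have h2 := free _ _ h1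
  exact (inv_mul_eq_one.1 h2).symm

/-- the product over the cycle -/
theorem tors_hol {C : Type} [Fintype Ω] [DecidableEq C] {p : Perm Ω} {v : Ω → C}
    (hv : ∀ x y, v x = v y ↔ p.SameCycle x y) {S : Perm X} {s : Ω → X} {a : Ω → A}
    (free : ∀ (a : A) (x : X), a • x = x → a = 1)
    (comm : ∀ (a : A) (x : X), S (a • x) = a • S x) (h : ∀ x, S (s x) = a x • s (p x)) (x : Ω)
    {c : A} (hc : (S ^ Function.minimalPeriod (⇑p) x) (s x) = c • s x) :
    ∏ y with v y = v x, a y = c := by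
  rw [tors_pow comm h, prod_cycle p v hv] at hc
  have h1 : (p ^ Function.minimalPeriod (⇑p) x) x = x := by
    rw [← Equiv.Perm.iterate_eq_pow]
    exact Function.iterate_minimalPeriod
  rw [h1] at hc
  exact tors_eq free hc

end TorsOne

/-- one permutation: the quotient of the cocycles has product `1` along the cycles -/
theorem tors_r {Ω A C X X' : Type} [Fintype Ω] [DecidableEq C] [CommGroup A]
    [MulAction A X] [MulAction A X'] (θ : A ≃* A) {p : Perm Ω} {v : Ω → C}
    (hv : ∀ x y, v x = v y ↔ p.SameCycle x y) (hsv : Function.Surjective v)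
    {S : Perm X} {S' : Perm X'} {s : Ω → X} {s' : Ω → X'} {a a' : Ω → A}
    (free : ∀ (a : A) (x : X), a • x = x → a = 1)
    (free' : ∀ (a : A) (x : X'), a • x = x → a = 1)
    (comm : ∀ (a : A) (x : X), S (a • x) = a • S x)
    (comm' : ∀ (a : A) (x : X'), S' (a • x) = a • S' x)
    (h : ∀ x, S (s x) = a x • s (p x)) (h' : ∀ x, S' (s' x) = a' x • s' (p x))
    (hol : ∀ x, ∃ c : A, (S ^ Function.minimalPeriod (⇑p) x) (s x) = c • s x ∧
      (S' ^ Function.minimalPeriod (⇑p) x) (s' x) = θ c • s' x) (k : C) :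
    ∏ y with v y = k, a' y / θ (a y) = 1 := by
  obtain ⟨x, rfl⟩ := hsv k
  obtain ⟨c, hc, hc'⟩ := hol x
  rw [Finset.prod_div_distrib, tors_hol hv free' comm' h' x hc', ← map_prod,
    tors_hol hv free comm h x hc, div_self']

theorem torsor {Ω A C0 C1 X X' : Type} [Finite Ω] [Finite C0] [Finite C1] [CommGroup A] [Finite A]
    [MulAction A X] [MulAction A X'] (θ : A ≃* A) (p0 p1 : Perm Ω) (v0 : Ω → C0) (v1 : Ω → C1)
    (ht : IsTree p0 p1 v0 v1) (π : X → Ω) (π' : X' → Ω) (S0 S1 : Perm X) (S0' S1' : Perm X')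
    (hX : IsTors A π p0 p1 S0 S1) (hX' : IsTors A π' p0 p1 S0' S1')
    (hol0 : ∀ x x', π x = π' x' → ∃ a : A,
      (S0 ^ Function.minimalPeriod (⇑p0) (π x)) x = a • x ∧
      (S0' ^ Function.minimalPeriod (⇑p0) (π x)) x' = θ a • x')
    (hol1 : ∀ x x', π x = π' x' → ∃ a : A,
      (S1 ^ Function.minimalPeriod (⇑p1) (π x)) x = a • x ∧
      (S1' ^ Function.minimalPeriod (⇑p1) (π x)) x' = θ a • x') :
    ∃ φ : X ≃ X', (∀ (a : A) (x : X), φ (a • x) = θ a • φ x) ∧ (∀ x, π' (φ x) = π x) ∧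
      (∀ x, φ (S0 x) = S0' (φ x)) ∧ ∀ x, φ (S1 x) = S1' (φ x) := by
  classical
  cases nonempty_fintype Ω
  choose s hs using hX.surj
  choose s' hs' using hX'.surj
  have hπ : ∀ (a : A) (x : X), π (a • x) = π x := fun a x => ((hX.orbit x (a • x)).2 ⟨a, rfl⟩).symm
  have hπ' : ∀ (a : A) (x : X'), π' (a • x) = π' x := fun a x =>
    ((hX'.orbit x (a • x)).2 ⟨a, rfl⟩).symm
  have e0 : ∀ x, ∃ a : A, a • s (p0 x) = S0 (s x) := fun x =>
    (hX.orbit _ _).1 (by rw [hX.cov0, hs, hs])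
  have e1 : ∀ x, ∃ a : A, a • s (p1 x) = S1 (s x) := fun x =>
    (hX.orbit _ _).1 (by rw [hX.cov1, hs, hs])
  have e0' : ∀ x, ∃ a : A, a • s' (p0 x) = S0' (s' x) := fun x =>
    (hX'.orbit _ _).1 (by rw [hX'.cov0, hs', hs'])
  have e1' : ∀ x, ∃ a : A, a • s' (p1 x) = S1' (s' x) := fun x =>
    (hX'.orbit _ _).1 (by rw [hX'.cov1, hs', hs'])
  choose a0 ha0 using e0
  choose a1 ha1 using e1
  choose a0' ha0' using e0'
  choose a1' ha1' using e1'
  have hr0 := tors_r θ ht.same0 ht.surj0 hX.free hX'.free hX.comm0 hX'.comm0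
    (fun x => (ha0 x).symm) (fun x => (ha0' x).symm) (fun x => by
      have := hol0 (s x) (s' x) (by rw [hs, hs'])
      rwa [hs] at this)
  have hr1 := tors_r θ ht.same1 ht.surj1 hX.free hX'.free hX.comm1 hX'.comm1
    (fun x => (ha1 x).symm) (fun x => (ha1' x).symm) (fun x => by
      have := hol1 (s x) (s' x) (by rw [hs, hs'])
      rwa [hs] at this)
  obtain ⟨b, hb⟩ := core p0 p1 v0 v1 ht.surj0 ht.surj1 ht.same0 ht.same1 ht.card ht.trans
    _ _ hr0 hr1
  -- coordinates
  have hc : ∀ z : X, ∃ c : A, c • s (π z) = z := fun z => (hX.orbit _ _).1 (hs _)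
  choose c hc using hc
  have hc_eq : ∀ (a : A) (x : Ω), c (a • s x) = a := by
    intro a x
    have h1 := hc (a • s x)
    rw [hπ, hs] at h1
    exact tors_eq hX.free h1
  let f : X → X' := fun z => (θ (c z) * b (π z)) • s' (π z)
  have hf : ∀ (a : A) (x : Ω), f (a • s x) = (θ a * b x) • s' x := by
    intro a x
    show (θ (c (a • s x)) * b (π (a • s x))) • s' (π (a • s x)) = _
    rw [hc_eq, hπ, hs]
  have hfπ : ∀ z, π' (f z) = π z := by
    intro z
    show π' ((θ (c z) * b (π z)) • s' (π z)) = π z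
    rw [hπ', hs']
  have hsmul : ∀ (a : A) (z : X), f (a • z) = θ a • f z := by
    intro a z
    obtain ⟨d, x, rfl⟩ : ∃ (d : A) (x : Ω), z = d • s x := ⟨c z, π z, (hc z).symm⟩
    rw [← mul_smul, hf, hf, map_mul, ← mul_smul, mul_assoc]
  have hbij : Function.Bijective f := by
    constructor
    · intro z w h
      have h1 : π z = π w := by rw [← hfπ z, h, hfπ]
      have h2 : (θ (c z) * b (π z)) • s' (π z) = (θ (c w) * b (π w)) • s' (π w) := h
      rw [← h1] at h2
      have h3 := tors_eq hX'.free h2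
      have h4 : c z = c w := θ.injective (mul_right_cancel h3)
      rw [← hc z, ← hc w, h4, h1]
    · intro z'
      obtain ⟨d, hd⟩ := (hX'.orbit (s' (π' z')) z').1 (hs' _)
      refine ⟨θ.symm (d / b (π' z')) • s (π' z'), ?_⟩
      rw [hf, MulEquiv.apply_symm_apply, div_mul_cancel, hd]
  have hS : ∀ {p : Perm Ω} {S : Perm X} {S' : Perm X'} {a a' : Ω → A},
      (∀ (a : A) (x : X), S (a • x) = a • S x) → (∀ (a : A) (x : X'), S' (a • x) = a • S' x) →
      (∀ x, a x • s (p x) = S (s x)) → (∀ x, a' x • s' (p x) = S' (s' x)) →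
      (∀ x, a' x / θ (a x) = b (p x) / b x) → ∀ z, f (S z) = S' (f z) := by
    intro p S S' a a' hcomm hcomm' h h' hbb z
    obtain ⟨d, x, rfl⟩ : ∃ (d : A) (x : Ω), z = d • s x := ⟨c z, π z, (hc z).symm⟩
    rw [hcomm, ← h, ← mul_smul, hf, hf, hcomm', ← h', ← mul_smul, map_mul]
    congr 1
    have h1 := hbb x
    rw [div_eq_div_iff_mul_eq_mul] at h1
    rw [mul_assoc, mul_assoc]
    congr 1
    rw [mul_comm (θ (a x)), ← h1, mul_comm]
  refine ⟨Equiv.ofBijective f hbij, hsmul, hfπ, ?_, ?_⟩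
  · exact hS hX.comm0 hX'.comm0 ha0 ha0' fun x => (hb x).1
  · exact hS hX.comm1 hX'.comm1 ha1 ha1' fun x => (hb x).2

end Pool.Agent.H9.GT
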