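import Pool.Agent.H9.GT.Ev
import Pool.Agent.H9.GT.Torsor

/-!
# The action of `F` on a torsor over a tree (job GT-LEVEL)

`Ω` with `s0, s1` is a tree with vertex maps `v0, v1`, `τ` is an isomorphism from
`(Ω, F.X s0 s1, F.Y s0 s1)` to `(Ω, s0, s1)`, `Y` and `Y'` are `A`-torsors over it, with holonomies
`c_i` resp. `c_i'`, and `c_0' (τ w) = c_0 w`, `c_1' (τ w) = c_1 (g w)` with `g = f(s0, s1)`.
Then there is an isomorphism from `(Y, F.X S0 S1, F.Y S0 S1)` to `(Y', S0', S1')` over `τ`.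

Proof. Apply `torsor` to the base permutations `p0 = F.X s0 s1`, `p1 = F.Y s0 s1`, vertex maps
`v0` and `v1 ∘ g`, the torsor `Y` with `F.X S0 S1`, `F.Y S0 S1`, and the torsor `Y'` with
projection `τ.symm ∘ π'` and `S0', S1'`, and `θ` the inverse of the automorphism
`a ↦ a ^ μ.r (Nat.card A)` of `A` (it is `μ.pow`, see `pow_eq_of_dvd`; bijective because
`μ.r (Nat.card A)` is coprime to `Nat.card A`: `powCoprime`).
* `IsTree`: `same0` from `pow_sameCycle`; `same1`: `F.Y s0 s1 = g⁻¹ * μ.pow s1 * g`, so `x, y` are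
  in the same cycle iff `g x, g y` are in the same cycle of `μ.pow s1` (`Perm.sameCycle_conj`);
  `trans` from `closure_eq`.
* `IsTors` for `Y`: `comm` from `X_equivariant`, `Y_equivariant` with `π = (a • ·)`; `cov` from
  the same lemmas with `π`.
* Holonomy of `Y`: with `n = minimalPeriod (F.X s0 s1) w = minimalPeriod s0 w` (`pow_period`),
  `(F.X S0 S1 ^ n) y = μ.pow (c_0 w) • y` (`pow_hol`). With `G = f(S0, S1)`, which commutes with `A`
  and satisfies `π (G y) = g (π y)` (`ev_equivariant`): `(F.Y S0 S1) ^ n = G⁻¹ (μ.pow S1) ^ n G`, and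
  `minimalPeriod (F.Y s0 s1) w = minimalPeriod s1 (g w)`, so
  `(F.Y S0 S1 ^ n) y = μ.pow (c_1 (g w)) • y`.
* Holonomy of `Y'` at a point `y'` with `π' y' = τ w`: the minimal period of `w` under `F.X s0 s1`
  is the minimal period of `τ w` under `s0` (conjugation by `τ`), so the holonomy is
  `c_0' (τ w) = c_0 w = θ (μ.pow (c_0 w))`.
-/

set_option autoImplicit false

namespace Pool.Agent.H9.GT

open Equiv

theorem level_period {X Y : Type} (τ : X → Y) (hτ : Function.Injective τ) (p : X → X) (q : Y → Y)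
    (h : ∀ x, τ (p x) = q (τ x)) (x : X) :
    Function.minimalPeriod p x = Function.minimalPeriod q (τ x) := by
  have hs : Function.Semiconj τ p q := h
  rw [Function.minimalPeriod_eq_minimalPeriod_iff]
  intro n
  have h1 : τ (p^[n] x) = q^[n] (τ x) := (hs.iterate_right n) x
  constructor
  · intro h2
    change q^[n] (τ x) = τ x
    rw [← h1]
    exact congrArg τ h2
  · intro h2
    apply hτ
    rw [h1]
    exact h2

theorem level {Ω A C0 C1 Y Y' : Type} [Finite Ω] [Finite C0] [Finite C1] [CommGroup A] [Finite A]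
    [MulAction A Y] [MulAction A Y'] [Finite Y] [Finite Y'] (F : GPair) (hF : F.IsAut)
    (s0 s1 : Perm Ω) (v0 : Ω → C0) (v1 : Ω → C1) (ht : IsTree s0 s1 v0 v1) (τ : Perm Ω)
    (hτ0 : ∀ w, τ (F.X s0 s1 w) = s0 (τ w)) (hτ1 : ∀ w, τ (F.Y s0 s1 w) = s1 (τ w))
    (π : Y → Ω) (π' : Y' → Ω) (S0 S1 : Perm Y) (S0' S1' : Perm Y')
    (hY : IsTors A π s0 s1 S0 S1) (hY' : IsTors A π' s0 s1 S0' S1')
    (c0 c1 c0' c1' : Ω → A)
    (h0 : ∀ y, (S0 ^ Function.minimalPeriod (⇑s0) (π y)) y = c0 (π y) • y)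
    (h1 : ∀ y, (S1 ^ Function.minimalPeriod (⇑s1) (π y)) y = c1 (π y) • y)
    (h0' : ∀ y, (S0' ^ Function.minimalPeriod (⇑s0) (π' y)) y = c0' (π' y) • y)
    (h1' : ∀ y, (S1' ^ Function.minimalPeriod (⇑s1) (π' y)) y = c1' (π' y) • y)
    (hm0 : ∀ w, c0' (τ w) = c0 w) (hm1 : ∀ w, c1' (τ w) = c1 (F.f.ev (Perm Ω) s0 s1 w)) :
    ∃ (φ : Y ≃ Y') (θ : A ≃* A), (∀ (a : A) (y : Y), φ (a • y) = θ a • φ y) ∧
      (∀ y, π' (φ y) = τ (π y)) ∧ (∀ y, φ (F.X S0 S1 y) = S0' (φ y)) ∧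
      ∀ y, φ (F.Y S0 S1 y) = S1' (φ y) := by
  set g : Perm Ω := F.f.ev (Perm Ω) s0 s1 with hg
  set G : Perm Y := F.f.ev (Perm Y) S0 S1 with hG
  have hXdef : F.X s0 s1 = F.mu.pow s0 := rfl
  have hYdef : F.Y s0 s1 = g⁻¹ * F.mu.pow s1 * g := rfl
  -- the tree
  have ht' : IsTree (F.X s0 s1) (F.Y s0 s1) v0 (fun w => v1 (g w)) := by
    refine ⟨ht.surj0, ?_, ?_, ?_, ht.card, ?_⟩
    · intro c
      obtain ⟨w, hw⟩ := ht.surj1 c
      exact ⟨g⁻¹ w, by simpa using hw⟩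
    · intro x y
      rw [ht.same0, hXdef, pow_sameCycle]
    · intro x y
      rw [ht.same1, hYdef, ← pow_sameCycle F.mu s1]
      have h := Equiv.Perm.sameCycle_conj (f := F.mu.pow s1) (g := g⁻¹) (x := x) (y := y)
      rw [inv_inv] at h
      exact h.symm
    · intro x y
      rw [closure_eq F hF]
      exact ht.trans x y
  -- the first torsor
  have hT : IsTors A π (F.X s0 s1) (F.Y s0 s1) (F.X S0 S1) (F.Y S0 S1) := by
    refine ⟨hY.surj, hY.orbit, hY.free, ?_, ?_, ?_, ?_⟩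
    · intro a y
      exact (X_equivariant F (fun y : Y => a • y) S0 S1 S0 S1 (fun x => (hY.comm0 a x).symm)
        y).symm
    · intro a y
      exact (Y_equivariant F (fun y : Y => a • y) S0 S1 S0 S1 (fun x => (hY.comm0 a x).symm)
        (fun x => (hY.comm1 a x).symm) y).symm
    · exact X_equivariant F π S0 S1 s0 s1 hY.cov0
    · exact Y_equivariant F π S0 S1 s0 s1 hY.cov0 hY.cov1
  -- the second torsor
  have hT' : IsTors A (fun y => τ.symm (π' y)) (F.X s0 s1) (F.Y s0 s1) S0' S1' := by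
    refine ⟨τ.symm.surjective.comp hY'.surj, ?_, hY'.free, hY'.comm0, hY'.comm1, ?_, ?_⟩
    · intro x y
      rw [← hY'.orbit x y]
      exact τ.symm.injective.eq_iff
    · intro x
      rw [hY'.cov0, Equiv.symm_apply_eq, hτ0, Equiv.apply_symm_apply]
    · intro x
      rw [hY'.cov1, Equiv.symm_apply_eq, hτ1, Equiv.apply_symm_apply]
  -- the automorphism
  have hN : 0 < Nat.card A := Nat.card_pos
  have hbij : Function.Bijective (powMonoidHom (F.mu.r (Nat.card A)) : A →* A) :=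
    (powCoprime (G := A) (F.mu.cop _ hN).symm).bijective
  let Θ : A ≃* A := MulEquiv.ofBijective (powMonoidHom (F.mu.r (Nat.card A)) : A →* A) hbij
  have hΘ : ∀ a : A, Θ a = F.mu.pow a := fun a =>
    pow_eq_of_dvd F.mu a (Nat.card A) hN (orderOf_dvd_natCard a)
  have hΘ' : ∀ a : A, Θ.symm (F.mu.pow a) = a := fun a => by
    rw [← hΘ, MulEquiv.symm_apply_apply]
  -- facts on `G`
  have hGA : ∀ (a : A) (y : Y), G (a • y) = a • G y := fun a y =>
    (ev_equivariant F.f (fun y : Y => a • y) S0 S1 S0 S1 (fun x => (hY.comm0 a x).symm)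
      (fun x => (hY.comm1 a x).symm) y).symm
  have hGπ : ∀ y : Y, π (G y) = g (π y) := fun y =>
    ev_equivariant F.f π S0 S1 s0 s1 hY.cov0 hY.cov1 y
  have hper1 : ∀ w, Function.minimalPeriod (⇑(F.Y s0 s1)) w =
      Function.minimalPeriod (⇑s1) (g w) := by
    intro w
    rw [← pow_period F.mu s1 (g w)]
    refine level_period (⇑g) g.injective _ _ (fun x => ?_) w
    rw [hYdef]
    simp [Perm.mul_apply]
  have hol0 : ∀ x x', π x = τ.symm (π' x') → ∃ a : A,
      ((F.X S0 S1) ^ Function.minimalPeriod (⇑(F.X s0 s1)) (π x)) x = a • x ∧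
        (S0' ^ Function.minimalPeriod (⇑(F.X s0 s1)) (π x)) x' = Θ.symm a • x' := by
    intro x x' hx
    have hx' : π' x' = τ (π x) := by rw [hx, Equiv.apply_symm_apply]
    refine ⟨F.mu.pow (c0 (π x)), ?_, ?_⟩
    · rw [hXdef, pow_period]
      exact pow_hol F.mu hY.free S0 hY.comm0 _ x _ (h0 x)
    · rw [hΘ', level_period (⇑τ) τ.injective _ _ hτ0, ← hx', h0' x', hx', hm0]
  have hol1 : ∀ x x', π x = τ.symm (π' x') → ∃ a : A,
      ((F.Y S0 S1) ^ Function.minimalPeriod (⇑(F.Y s0 s1)) (π x)) x = a • x ∧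
        (S1' ^ Function.minimalPeriod (⇑(F.Y s0 s1)) (π x)) x' = Θ.symm a • x' := by
    intro x x' hx
    have hx' : π' x' = τ (π x) := by rw [hx, Equiv.apply_symm_apply]
    refine ⟨F.mu.pow (c1 (g (π x))), ?_, ?_⟩
    · rw [hper1]
      have e1 : F.Y S0 S1 = G⁻¹ * F.mu.pow S1 * G := rfl
      have e2 : ∀ n : ℕ, (G⁻¹ * F.mu.pow S1 * G) ^ n = G⁻¹ * (F.mu.pow S1) ^ n * G := by
        intro n
        have := conj_pow (i := n) (a := G⁻¹) (b := F.mu.pow S1)
        rwa [inv_inv] at this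
      rw [e1, e2]
      have e3 := pow_hol F.mu hY.free S1 hY.comm1 (Function.minimalPeriod (⇑s1) (g (π x))) (G x)
        (c1 (g (π x))) (by
          have := h1 (G x)
          rwa [hGπ] at this)
      rw [Perm.mul_apply, Perm.mul_apply, e3, ← hGA]
      exact G.symm_apply_apply _
    · rw [hΘ', level_period (⇑τ) τ.injective _ _ hτ1, ← hx', h1' x', hx', hm1]
  obtain ⟨φ, hφ1, hφ2, hφ3, hφ4⟩ := torsor Θ.symm (F.X s0 s1) (F.Y s0 s1) v0 (fun w => v1 (g w))
    ht' π (fun y => τ.symm (π' y)) (F.X S0 S1) (F.Y S0 S1) S0' S1' hT hT' hol0 hol1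
  refine ⟨φ, Θ.symm, hφ1, fun y => ?_, hφ3, hφ4⟩
  rw [← hφ2 y, Equiv.apply_symm_apply]

end Pool.Agent.H9.GT
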