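import Pool.Agent.H9.GT.Vtx

/-!
# The sign of the double cover `y² = x (x - 1) (x - l)` around a vertex (job GT-SIGN)

`e = (x, y)` a point of the curve over `1/2`, `r = vt Q x`, `m` the multiplicity of `r` in `Q`. After
`m` turns around `0` the lift of `e` is `(x, y)` or `(x, -y)`; the sign is `-1` iff `r` is one of
`0, 1, l`.

Proof. Let `X q = gl (ev Q) x q` and `Γ q = gl (evC Q l) e q`; `(Γ q).1.1 = X q` (`gl_nat` for the
first projection), `Y q = (Γ q).1.2`, `Y q ^ 2 = g (X q)` with `g x = x (x - 1) (x - l)`, never zero.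
`X (t, m) = X (t, 0)` for all `t` (`vt_period`, `gl_shift`), so `Y (t, m) / Y (t, 0)` is a continuous
function of `t` with values `1, -1`, hence constant; compute it for one large `t ≥ T`.
Take a chart at `r` and the normal form `X (t, s) = ψ (wp m w1 (t, s))`.
Case `g r ≠ 0`: for `t` large `‖g (ψ w) - g r‖ < ‖g r‖` for all `‖w‖ ≤ kap m t`, so
`Z s = c * ((g (X (t, s)) / g r) ^ (1/2))` (`c ^ 2 = g r`, principal square root, the argument has
positive real part) is continuous on `[0, m]`, `Z s ^ 2 = Y (t, s) ^ 2` and `Z m = Z 0`;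
`Y (t, s) / Z s` is continuous with values `1, -1`, so constant: `Y (t, m) = Y (t, 0)`.
Case `g r = 0`: `g x = (x - r) g₁ x` with `g₁ r ≠ 0` (`0, 1, l` are distinct), and
`ψ w = r + w u w`, so `g (ψ w) = w * b w` with `b w = u w * g₁ (ψ w)`, `b 0 ≠ 0`, `b` continuous. Take
`Z s = w₂ * kap' * exp(2πis/(2m)) * c * (b (wp m w1 (t, s)) / b 0) ^ (1/2)` with `w₂ ^ 2 = w1`,
`kap' ^ 2 = kap m t`, `c ^ 2 = b 0`; again `Z s ^ 2 = Y (t, s) ^ 2`, and now `Z m = - Z 0`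
because `exp(2πim/(2m)) = -1`.
-/

set_option autoImplicit false

open Polynomial Set Filter Topology

namespace Pool.Agent.H9.GT

/-- the cubic of the curve -/
def sgnG (l x : ℂ) : ℂ := x * (x - 1) * (x - l)

theorem sgnG_cont (l : ℂ) : Continuous (sgnG l) := by
  unfold sgnG
  fun_prop

/-- a continuous square root of a continuous function near a point where it is not zero -/
theorem sgn_sqrt (b : ℂ → ℂ) {δ : ℝ} (hδ : 0 < δ) (hb : ContinuousOn b (Metric.ball 0 δ))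
    (hb0 : b 0 ≠ 0) : ∃ ρ > 0, ρ ≤ δ ∧ ∃ B : ℂ → ℂ, ContinuousOn B (Metric.ball 0 ρ) ∧
      ∀ w ∈ Metric.ball (0 : ℂ) ρ, B w ^ 2 = b w := by
  obtain ⟨c, hc⟩ := IsAlgClosed.exists_pow_nat_eq (b 0) (n := 2) (by norm_num)
  have hcont : ContinuousAt (fun w => b w / b 0) 0 :=
    (hb.continuousAt (Metric.ball_mem_nhds 0 hδ)).div_const _
  have hev : ∀ᶠ w in 𝓝 (0 : ℂ), ‖b w / b 0 - 1‖ < 1 := by
    have h1 := Metric.tendsto_nhds.1 hcont.tendsto 1 one_pos
    filter_upwards [h1] with w hw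
    simp only [div_self hb0, dist_eq_norm] at hw
    exact hw
  obtain ⟨ρ0, hρ0, hρ0'⟩ := Metric.eventually_nhds_iff_ball.1 hev
  have hslit : ∀ w ∈ Metric.ball (0 : ℂ) (min ρ0 δ), b w / b 0 ∈ Complex.slitPlane := by
    intro w hw
    have h1 := hρ0' w (Metric.ball_subset_ball (min_le_left _ _) hw)
    have h2 := Complex.mem_slitPlane_of_norm_lt_one h1
    rwa [add_sub_cancel] at h2
  refine ⟨min ρ0 δ, lt_min hρ0 hδ, min_le_right _ _,
    fun w => c * Complex.exp (Complex.log (b w / b 0) / 2), ?_, ?_⟩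
  · have hsub : Metric.ball (0 : ℂ) (min ρ0 δ) ⊆ Metric.ball 0 δ :=
      Metric.ball_subset_ball (min_le_right _ _)
    refine continuousOn_const.mul (Complex.continuous_exp.comp_continuousOn
      (ContinuousOn.div_const (ContinuousOn.clog ((hb.mono hsub).div_const _) hslit) _))
  · intro w hw
    have hne : b w / b 0 ≠ 0 := Complex.slitPlane_ne_zero (hslit w hw)
    have h2 : ((2 : ℕ) : ℂ) * (Complex.log (b w / b 0) / 2) = Complex.log (b w / b 0) := by
      push_cast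
      ring
    simp only
    rw [mul_pow, hc, ← Complex.exp_nat_mul, h2, Complex.exp_log hne]
    field_simp

theorem sgn_core {Q : ℂ[X]} (h : Good Q) {l : ℂ}
    (h0 : Q.eval 0 = 0 ∨ Q.eval 0 = 1) (h1 : Q.eval 1 = 0 ∨ Q.eval 1 = 1)
    (hl : Q.eval l = 0 ∨ Q.eval l = 1) (e : Curve l) (he : evC Q l e = 1 / 2) (σ : ℂ)
    (hσ : σ = 1 ∨ σ = -1) (t : ℝ) (Z : ℝ → ℂ)
    (hZ : ContinuousOn Z (Icc 0 ((Q.rootMultiplicity (vt Q e.1.1) : ℕ) : ℝ)))
    (hZ2 : ∀ s ∈ Icc (0 : ℝ) ((Q.rootMultiplicity (vt Q e.1.1) : ℕ) : ℝ),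
      Z s ^ 2 = sgnG l (gl (ev Q) e.1.1 (t, s)))
    (hZm : Z ((Q.rootMultiplicity (vt Q e.1.1) : ℕ) : ℝ) = σ * Z 0) :
    (gl (evC Q l) e (0, (Q.rootMultiplicity (vt Q e.1.1) : ℕ))).1 = (e.1.1, σ * e.1.2) := by
  have hx : Q.eval e.1.1 = 1 / 2 := he
  have hcov := cov_curve h h0 h1 hl
  have hcp := cov_poly h
  set m := Q.rootMultiplicity (vt Q e.1.1) with hm
  obtain ⟨g1, g2, g3⟩ := gl_spec hcov he
  have hX : ∀ q, gl (ev Q) e.1.1 q = (gl (evC Q l) e q).1.1 := fun q =>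
    gl_nat hcov hcp (fun e : Curve l => e.1.1) (continuous_fst.comp continuous_subtype_val)
      (fun _ => rfl) he q
  have hY : ∀ q, (gl (evC Q l) e q).1.2 ^ 2 = sgnG l (gl (ev Q) e.1.1 q) := fun q => by
    rw [hX]
    exact (gl (evC Q l) e q).2
  have hYne : ∀ q, (gl (evC Q l) e q).1.2 ≠ 0 := by
    intro q hq
    have h5 := hY q
    rw [hq, zero_pow two_ne_zero] at h5
    have h6 : Q.eval (gl (ev Q) e.1.1 q) = Hm q := (gl_spec hcp hx).2.2 q
    have h7 := Hm_ne q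
    rw [← h6] at h7
    unfold sgnG at h5
    rcases mul_eq_zero.1 h5.symm with h8 | h8
    · rcases mul_eq_zero.1 h8 with h9 | h9
      · rw [h9] at h7
        rcases h0 with h10 | h10
        · exact h7.1 h10
        · exact h7.2 h10
      · rw [sub_eq_zero.1 h9] at h7
        rcases h1 with h10 | h10
        · exact h7.1 h10
        · exact h7.2 h10
    · rw [sub_eq_zero.1 h8] at h7
      rcases hl with h10 | h10
      · exact h7.1 h10
      · exact h7.2 h10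
  have hper : ∀ t : ℝ, gl (ev Q) e.1.1 (t, (m : ℝ)) = gl (ev Q) e.1.1 (t, 0) := by
    intro t
    have h5 := (vt_period h hx m).2 dvd_rfl
    have h6 := gl_shift hcp hx (m : ℤ) t 0
    rw [Int.cast_natCast, h5, zero_add] at h6
    exact h6.symm
  have hYc : Continuous fun q => (gl (evC Q l) e q).1.2 :=
    continuous_snd.comp (continuous_subtype_val.comp g1)
  have hm0 : (0 : ℝ) ≤ (m : ℝ) := Nat.cast_nonneg m
  -- the sign at `t`
  have hsig : (gl (evC Q l) e (t, (m : ℝ))).1.2 = σ * (gl (evC Q l) e (t, 0)).1.2 := by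
    have h5 := isPreconnected_Icc.eq_or_eq_neg_of_sq_eq (S := Icc (0 : ℝ) (m : ℝ))
      (f := fun s => Z s) (g := fun s => (gl (evC Q l) e (t, s)).1.2) hZ
      (hYc.comp (by fun_prop)).continuousOn (fun s hs => by
        simp only [Pi.pow_apply]
        rw [hZ2 s hs, hY]) (fun _ => hYne _)
    have e0 : (0 : ℝ) ∈ Icc (0 : ℝ) (m : ℝ) := ⟨le_rfl, hm0⟩
    have em : (m : ℝ) ∈ Icc (0 : ℝ) (m : ℝ) := ⟨hm0, le_rfl⟩
    rcases h5 with h6 | h6
    · have a0 : Z 0 = (gl (evC Q l) e (t, 0)).1.2 := h6 e0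
      have am : Z (m : ℝ) = (gl (evC Q l) e (t, (m : ℝ))).1.2 := h6 em
      rw [← am, hZm, a0]
    · have a0 : Z 0 = -(gl (evC Q l) e (t, 0)).1.2 := h6 e0
      have am : Z (m : ℝ) = -(gl (evC Q l) e (t, (m : ℝ))).1.2 := h6 em
      rw [am, a0] at hZm
      linear_combination -hZm
  have h2 := isPreconnected_univ.eq_or_eq_neg_of_sq_eq (S := (univ : Set ℝ))
      (f := fun t => (gl (evC Q l) e (t, (m : ℝ))).1.2)
      (g := fun t => (gl (evC Q l) e (t, 0)).1.2)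
      (hYc.comp (by fun_prop)).continuousOn (hYc.comp (by fun_prop)).continuousOn (fun s _ => by
        simp only [Pi.pow_apply]
        rw [hY, hY, hper]) (fun _ => hYne _)
  have hfin : (gl (evC Q l) e (0, (m : ℝ))).1.2 = σ * (gl (evC Q l) e (0, 0)).1.2 := by
    have hne := hYne (t, 0)
    rcases h2 with h3 | h3
    · have a1 : (gl (evC Q l) e (t, (m : ℝ))).1.2 = (gl (evC Q l) e (t, 0)).1.2 := h3 (mem_univ t)
      have a2 : (gl (evC Q l) e (0, (m : ℝ))).1.2 = (gl (evC Q l) e (0, 0)).1.2 := h3 (mem_univ 0)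
      rcases hσ with h4 | h4
      · rw [a2, h4, one_mul]
      · exfalso
        rw [a1, h4] at hsig
        apply hne
        linear_combination (1 / 2 : ℂ) * hsig
    · have a1 : (gl (evC Q l) e (t, (m : ℝ))).1.2 = -(gl (evC Q l) e (t, 0)).1.2 :=
        h3 (mem_univ t)
      have a2 : (gl (evC Q l) e (0, (m : ℝ))).1.2 = -(gl (evC Q l) e (0, 0)).1.2 :=
        h3 (mem_univ 0)
      rcases hσ with h4 | h4
      · exfalso
        rw [a1, h4] at hsig
        apply hne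
        linear_combination (-1 / 2 : ℂ) * hsig
      · rw [a2, h4, neg_one_mul]
  have hX0 : (gl (evC Q l) e (0, (m : ℝ))).1.1 = e.1.1 := by
    rw [← hX, hper, (gl_spec hcp hx).2.1]
  rw [g2] at hfin
  exact Prod.ext hX0 hfin

theorem sgn_wp_end (m : ℕ) (hm : 0 < m) (w1 : ℂ) (t : ℝ) :
    wp m w1 (t, (m : ℝ)) = wp m w1 (t, 0) := by
  unfold wp
  have hm' : (m : ℂ) ≠ 0 := by
    have : m ≠ 0 := by omega
    exact_mod_cast this
  have h1 : (2 * Real.pi * ((m : ℝ) : ℂ) * Complex.I / m : ℂ) = 2 * Real.pi * Complex.I := by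
    push_cast
    field_simp
  simp only
  rw [h1, Complex.exp_two_pi_mul_I]
  simp

theorem sgn_unit {m : ℕ} (hm : 0 < m) {w1 : ℂ} (h : w1 ^ m = 1) : ‖w1‖ = 1 := by
  have h1 : ‖w1‖ ^ m = 1 := by rw [← norm_pow, h, norm_one]
  exact (pow_eq_one_iff_of_nonneg (norm_nonneg _) hm.ne').1 h1

theorem sign_pos {Q : ℂ[X]} (h : Good Q) {l : ℂ}
    (h0 : Q.eval 0 = 0 ∨ Q.eval 0 = 1) (h1 : Q.eval 1 = 0 ∨ Q.eval 1 = 1)
    (hl : Q.eval l = 0 ∨ Q.eval l = 1) (e : Curve l) (he : evC Q l e = 1 / 2)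
    (hv : ¬ (vt Q e.1.1 = 0 ∨ vt Q e.1.1 = 1 ∨ vt Q e.1.1 = l)) :
    (gl (evC Q l) e (0, (Q.rootMultiplicity (vt Q e.1.1) : ℕ))).1 = (e.1.1, e.1.2) := by
  have hx : Q.eval e.1.1 = 1 / 2 := he
  have hr := vt_root h hx
  have hlim := vt_tendsto h hx
  have hm := nf_mult_pos h hr
  obtain ⟨ψ, u, δ, ε, hc⟩ := exists_chart Q h.ne_zero (vt Q e.1.1) hr
  obtain ⟨w1, T, hw1, hnf⟩ := normal_form h hx hr hlim hc
  have hn1 := sgn_unit hm hw1
  have hg0 : sgnG l (ψ 0) ≠ 0 := by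
    rw [hc.zero]
    unfold sgnG
    intro h5
    apply hv
    rcases mul_eq_zero.1 h5 with h8 | h8
    · rcases mul_eq_zero.1 h8 with h9 | h9
      · exact Or.inl h9
      · exact Or.inr (Or.inl (sub_eq_zero.1 h9))
    · exact Or.inr (Or.inr (sub_eq_zero.1 h8))
  obtain ⟨ρ, hρ, hρδ, B, hB, hB2⟩ := sgn_sqrt (fun w => sgnG l (ψ w)) hc.δpos
    ((sgnG_cont l).comp_continuousOn hc.cont) hg0
  have hev : ∀ᶠ t : ℝ in atTop, kap (Q.rootMultiplicity (vt Q e.1.1)) t < ρ :=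
    (tendsto_order.1 (kap_tendsto _ hm)).2 _ hρ
  obtain ⟨t, ht1, ht2⟩ := (hev.and (eventually_ge_atTop T)).exists
  have hball : ∀ s : ℝ, wp (Q.rootMultiplicity (vt Q e.1.1)) w1 (t, s) ∈
      Metric.ball (0 : ℂ) ρ := by
    intro s
    rw [mem_ball_zero_iff, wp_norm _ _ hn1]
    exact ht1
  have hcore := sgn_core h h0 h1 hl e he 1 (Or.inl rfl) t
    (fun s => B (wp (Q.rootMultiplicity (vt Q e.1.1)) w1 (t, s)))
    ((hB.comp_continuous ((wp_cont _ w1).comp (by fun_prop : Continuous fun s : ℝ => (t, s)))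
      hball).continuousOn)
    (fun s _ => by
      rw [hB2 _ (hball s), (hnf (t, s) ht2).2])
    (by
      rw [sgn_wp_end _ hm, one_mul])
  rw [one_mul] at hcore
  exact hcore

theorem sign_neg {Q : ℂ[X]} (h : Good Q) {l : ℂ} (hl0 : l ≠ 0) (hl1 : l ≠ 1)
    (h0 : Q.eval 0 = 0 ∨ Q.eval 0 = 1) (h1 : Q.eval 1 = 0 ∨ Q.eval 1 = 1)
    (hl : Q.eval l = 0 ∨ Q.eval l = 1) (e : Curve l) (he : evC Q l e = 1 / 2)
    (hv : vt Q e.1.1 = 0 ∨ vt Q e.1.1 = 1 ∨ vt Q e.1.1 = l) :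
    (gl (evC Q l) e (0, (Q.rootMultiplicity (vt Q e.1.1) : ℕ))).1 = (e.1.1, -e.1.2) := by
  have hx : Q.eval e.1.1 = 1 / 2 := he
  have hr := vt_root h hx
  have hlim := vt_tendsto h hx
  have hm := nf_mult_pos h hr
  obtain ⟨ψ, u, δ, ε, hc⟩ := exists_chart Q h.ne_zero (vt Q e.1.1) hr
  obtain ⟨w1, T, hw1, hnf⟩ := normal_form h hx hr hlim hc
  have hn1 := sgn_unit hm hw1
  obtain ⟨g₁, hg₁c, hg₁0, hg₁⟩ : ∃ g₁ : ℂ → ℂ, Continuous g₁ ∧ g₁ (vt Q e.1.1) ≠ 0 ∧
      ∀ x, sgnG l x = (x - vt Q e.1.1) * g₁ x := by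
    rcases hv with h5 | h5 | h5
    · rw [h5]
      refine ⟨fun x => (x - 1) * (x - l), by fun_prop, ?_, fun x => ?_⟩
      · simp only [zero_sub]
        exact mul_ne_zero (neg_ne_zero.2 one_ne_zero) (neg_ne_zero.2 hl0)
      · unfold sgnG
        ring
    · rw [h5]
      refine ⟨fun x => x * (x - l), by fun_prop, ?_, fun x => ?_⟩
      · simp only [one_mul]
        exact sub_ne_zero.2 (Ne.symm hl1)
      · unfold sgnG
        ring
    · rw [h5]
      refine ⟨fun x => x * (x - 1), by fun_prop, ?_, fun x => ?_⟩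
      · exact mul_ne_zero hl0 (sub_ne_zero.2 hl1)
      · unfold sgnG
        ring
  have h0δ : (0 : ℂ) ∈ Metric.ball (0 : ℂ) δ := Metric.mem_ball_self hc.δpos
  obtain ⟨ρ, hρ, hρδ, B, hB, hB2⟩ := sgn_sqrt (fun w => u w * g₁ (ψ w)) hc.δpos
    (hc.contu.mul (hg₁c.comp_continuousOn hc.cont))
    (mul_ne_zero (hc.une 0 h0δ) (by rw [hc.zero]; exact hg₁0))
  have hev : ∀ᶠ t : ℝ in atTop, kap (Q.rootMultiplicity (vt Q e.1.1)) t < ρ :=
    (tendsto_order.1 (kap_tendsto _ hm)).2 _ hρ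
  obtain ⟨t, ht1, ht2⟩ := (hev.and (eventually_ge_atTop T)).exists
  have hball : ∀ s : ℝ, wp (Q.rootMultiplicity (vt Q e.1.1)) w1 (t, s) ∈
      Metric.ball (0 : ℂ) ρ := by
    intro s
    rw [mem_ball_zero_iff, wp_norm _ _ hn1]
    exact ht1
  obtain ⟨w2, hw2⟩ := IsAlgClosed.exists_pow_nat_eq w1 (n := 2) (by norm_num)
  have hk : ((Real.sqrt (kap (Q.rootMultiplicity (vt Q e.1.1)) t) : ℝ) : ℂ) ^ 2 =
      ((kap (Q.rootMultiplicity (vt Q e.1.1)) t : ℝ) : ℂ) := by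
    rw [← Complex.ofReal_pow, Real.sq_sqrt (kap_pos _ t).le]
  have hm' : ((Q.rootMultiplicity (vt Q e.1.1) : ℕ) : ℂ) ≠ 0 := by
    exact_mod_cast hm.ne'
  have hcore := sgn_core h h0 h1 hl e he (-1) (Or.inr rfl) t
    (fun s => w2 * ((Real.sqrt (kap (Q.rootMultiplicity (vt Q e.1.1)) t) : ℝ) : ℂ) *
      Complex.exp (Real.pi * s * Complex.I / ((Q.rootMultiplicity (vt Q e.1.1) : ℕ) : ℂ)) *
      B (wp (Q.rootMultiplicity (vt Q e.1.1)) w1 (t, s)))
    (by
      refine Continuous.continuousOn ?_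
      refine Continuous.mul (by fun_prop) ?_
      exact hB.comp_continuous ((wp_cont _ w1).comp (by fun_prop : Continuous fun s : ℝ => (t, s)))
        hball)
    (fun s _ => by
      have hsδ := Metric.ball_subset_ball hρδ (hball s)
      have e3 : ψ (wp (Q.rootMultiplicity (vt Q e.1.1)) w1 (t, s)) - vt Q e.1.1 =
          wp (Q.rootMultiplicity (vt Q e.1.1)) w1 (t, s) *
            u (wp (Q.rootMultiplicity (vt Q e.1.1)) w1 (t, s)) :=
        sub_eq_iff_eq_add'.2 (hc.fac _ hsδ)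
      rw [mul_pow, hB2 _ (hball s), (hnf (t, s) ht2).2, hg₁, e3, mul_pow, mul_pow, hw2,
        hk, ← Complex.exp_nat_mul]
      have e1 : ((2 : ℕ) : ℂ) * (Real.pi * s * Complex.I /
          ((Q.rootMultiplicity (vt Q e.1.1) : ℕ) : ℂ)) =
          2 * Real.pi * s * Complex.I / ((Q.rootMultiplicity (vt Q e.1.1) : ℕ) : ℂ) := by
        push_cast
        ring
      rw [e1]
      have e2 : w1 * ((kap (Q.rootMultiplicity (vt Q e.1.1)) t : ℝ) : ℂ) *
          Complex.exp (2 * Real.pi * s * Complex.I /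
            ((Q.rootMultiplicity (vt Q e.1.1) : ℕ) : ℂ)) =
          wp (Q.rootMultiplicity (vt Q e.1.1)) w1 (t, s) := rfl
      rw [e2]
      ring)
    (by
      rw [sgn_wp_end _ hm]
      have e1 : (Real.pi * (((Q.rootMultiplicity (vt Q e.1.1) : ℕ) : ℝ) : ℂ) * Complex.I /
          ((Q.rootMultiplicity (vt Q e.1.1) : ℕ) : ℂ) : ℂ) = Real.pi * Complex.I := by
        rw [Complex.ofReal_natCast]
        field_simp
      rw [e1, Complex.exp_pi_mul_I]
      simp)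
  rw [neg_one_mul] at hcore
  exact hcore

end Pool.Agent.H9.GT
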