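import Pool.Agent.H9.GT.Tree
import Pool.Agent.H9.GT.Sign
import Pool.Agent.H9.GT.Level

/-!
# The action of `F` on the curve (job GT-EISO)

`Q` good, `0, 1, l` and `0, 1, l'` are mapped to `{0, 1}` by `Q`; the group `ℤˣ` acts on the fibre of
the curve by `(x, y) ↦ (x, u y)` (free since `y ≠ 0` over `1/2`), the quotient is the fibre of `Q`.

`e_tors`: `gl_nat` for the first projection and for `(x, y) ↦ (x, u y)`; surjectivity of the
projection: `ℂ` is algebraically closed (`IsAlgClosed.exists_pow_nat_eq`).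
`e_hol`: `sign_pos`, `sign_neg` for `twP i Q` together with `pm_period`, `moi_pow`, `tw_evC`.
`e_iso`: `level` with `A = ℤˣ`, `τ = φ₀`, `c_i x = -1` if `vt (twP i Q) x ∈ {0, 1, l}`, else `1`, and
`c_i'` the same with `l'`.
-/

set_option autoImplicit false

open Polynomial Set Equiv

namespace Pool.Agent.H9.GT

/-- the three branch points are vertices -/
def Br (Q : ℂ[X]) (l : ℂ) : Prop :=
  l ≠ 0 ∧ l ≠ 1 ∧ (Q.eval 0 = 0 ∨ Q.eval 0 = 1) ∧ (Q.eval 1 = 0 ∨ Q.eval 1 = 1) ∧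
    (Q.eval l = 0 ∨ Q.eval l = 1)

theorem Br.cov {Q : ℂ[X]} (h : Good Q) {l : ℂ} (hb : Br Q l) : Cov (evC Q l) :=
  cov_curve h hb.2.2.1 hb.2.2.2.1 hb.2.2.2.2

/-- monodromy permutations of the curve -/
noncomputable def em {Q : ℂ[X]} (h : Good Q) {l : ℂ} (hb : Br Q l) (i : Fin 2) :
    Perm (Fb (evC Q l)) := moi (evC Q l) (hb.cov h) i

/-- the action of the signs -/
noncomputable def sgnAct (Q : ℂ[X]) (l : ℂ) : MulAction ℤˣ (Fb (evC Q l)) where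
  smul u e := ⟨⟨(e.1.1.1, ((u : ℤ) : ℂ) * e.1.1.2), by
    have h1 := e.1.2
    have h2 : (((u : ℤ) : ℂ)) ^ 2 = 1 := by
      rcases Int.units_eq_one_or u with rfl | rfl <;> simp
    unfold Curve at h1 ⊢
    simp only [mem_setOf_eq] at h1 ⊢
    rw [mul_pow, h2, one_mul]
    exact h1⟩, e.2⟩
  one_smul e := by
    apply Subtype.ext
    apply Subtype.ext
    refine Prod.ext rfl ?_
    change (((1 : ℤˣ) : ℤ) : ℂ) * e.1.1.2 = e.1.1.2
    simp
  mul_smul u v e := by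
    apply Subtype.ext
    apply Subtype.ext
    refine Prod.ext rfl ?_
    change (((u * v : ℤˣ) : ℤ) : ℂ) * e.1.1.2 = ((u : ℤ) : ℂ) * (((v : ℤ) : ℂ) * e.1.1.2)
    push_cast
    ring

/-- the projection to the fibre of `Q` -/
def eprj (Q : ℂ[X]) (l : ℂ) (e : Fb (evC Q l)) : Fb (ev Q) := ⟨e.1.1.1, e.2⟩

/-- multiplication of the second coordinate by a sign -/
noncomputable def eisoM (l : ℂ) (u : ℤˣ) (e : Curve l) : Curve l :=
  ⟨(e.1.1, ((u : ℤ) : ℂ) * e.1.2), by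
    have h1 := e.2
    have h2 : (((u : ℤ) : ℂ)) ^ 2 = 1 := by
      rcases Int.units_eq_one_or u with rfl | rfl <;> simp
    unfold Curve at h1 ⊢
    simp only [mem_setOf_eq] at h1 ⊢
    rw [mul_pow, h2, one_mul]
    exact h1⟩

theorem eisoM_cont (l : ℂ) (u : ℤˣ) : Continuous (eisoM l u) := by
  unfold eisoM
  refine Continuous.subtype_mk ?_ _
  fun_prop

theorem eiso_y_ne {Q : ℂ[X]} {l : ℂ} (hb : Br Q l) (e : Fb (evC Q l)) : e.1.1.2 ≠ 0 := by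
  intro h0
  have h1 : e.1.1.2 ^ 2 = e.1.1.1 * (e.1.1.1 - 1) * (e.1.1.1 - l) := e.1.2
  have h2 : Q.eval e.1.1.1 = 1 / 2 := e.2
  rw [h0, zero_pow two_ne_zero] at h1
  have h3 : e.1.1.1 = 0 ∨ e.1.1.1 = 1 ∨ e.1.1.1 = l := by
    rcases mul_eq_zero.1 h1.symm with h3 | h3
    · rcases mul_eq_zero.1 h3 with h4 | h4
      · exact Or.inl h4
      · exact Or.inr (Or.inl (sub_eq_zero.1 h4))
    · exact Or.inr (Or.inr (sub_eq_zero.1 h3))
  have h4 : Q.eval e.1.1.1 = 0 ∨ Q.eval e.1.1.1 = 1 := by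
    rcases h3 with h | h | h
    · rw [h]; exact hb.2.2.1
    · rw [h]; exact hb.2.2.2.1
    · rw [h]; exact hb.2.2.2.2
  rw [h2] at h4
  rcases h4 with h | h
  · norm_num at h
  · norm_num at h

theorem eiso_comm {Q : ℂ[X]} (h : Good Q) {l : ℂ} (hb : Br Q l) (i : Fin 2) :
    letI := sgnAct Q l
    ∀ (a : ℤˣ) (x : Fb (evC Q l)), em h hb i (a • x) = a • em h hb i x := by
  letI := sgnAct Q l
  intro a x
  apply Subtype.ext
  have hc := (hb.cov h).tw i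
  have hx := (tw_half (p := evC Q l) i x.1).2 x.2
  have h1 := gl_nat hc hc (eisoM l a) (eisoM_cont l a) (fun e => rfl) hx (0, 1)
  exact h1

theorem eiso_cov {Q : ℂ[X]} (h : Good Q) {l : ℂ} (hb : Br Q l) (i : Fin 2)
    (x : Fb (evC Q l)) : eprj Q l (em h hb i x) = pm h i (eprj Q l x) := by
  apply Subtype.ext
  have hc := (hb.cov h).tw i
  have hc' := (cov_poly h).tw i
  have hx := (tw_half (p := evC Q l) i x.1).2 x.2
  have h1 := gl_nat hc hc' (fun e : Curve l => e.1.1)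
    (continuous_fst.comp continuous_subtype_val) (fun e => rfl) hx (0, 1)
  exact h1.symm

theorem e_tors {Q : ℂ[X]} (h : Good Q) {l : ℂ} (hb : Br Q l) :
    letI := sgnAct Q l
    IsTors ℤˣ (eprj Q l) (pm h 0) (pm h 1) (em h hb 0) (em h hb 1) := by
  letI := sgnAct Q l
  refine ⟨?_, ?_, ?_, eiso_comm h hb 0, eiso_comm h hb 1, eiso_cov h hb 0, eiso_cov h hb 1⟩
  · intro x
    obtain ⟨y, hy⟩ := IsAlgClosed.exists_pow_nat_eq (x.1 * (x.1 - 1) * (x.1 - l))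
      (show 0 < 2 by norm_num)
    exact ⟨⟨⟨(x.1, y), hy⟩, x.2⟩, rfl⟩
  · intro x y
    constructor
    · intro hxy
      have h1 : x.1.1.1 = y.1.1.1 := congrArg Subtype.val hxy
      have h2 : x.1.1.2 ^ 2 = x.1.1.1 * (x.1.1.1 - 1) * (x.1.1.1 - l) := x.1.2
      have h3 : y.1.1.2 ^ 2 = y.1.1.1 * (y.1.1.1 - 1) * (y.1.1.1 - l) := y.1.2
      have h4 : x.1.1.2 ^ 2 = y.1.1.2 ^ 2 := by rw [h2, h3, h1]
      rcases sq_eq_sq_iff_eq_or_eq_neg.1 h4 with h5 | h5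
      · refine ⟨1, ?_⟩
        rw [one_smul]
        apply Subtype.ext
        apply Subtype.ext
        exact Prod.ext h1 h5
      · refine ⟨-1, ?_⟩
        apply Subtype.ext
        apply Subtype.ext
        refine Prod.ext h1 ?_
        change (((-1 : ℤˣ) : ℤ) : ℂ) * x.1.1.2 = y.1.1.2
        rw [h5]
        simp
    · rintro ⟨a, ha⟩
      rw [← ha]
      rfl
  · intro a x hax
    rcases Int.units_eq_one_or a with rfl | rfl
    · rfl
    · exfalso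
      have h1 : (((-1 : ℤˣ) : ℤ) : ℂ) * x.1.1.2 = x.1.1.2 :=
        congrArg (fun e : Fb (evC Q l) => e.1.1.2) hax
      have h2 : x.1.1.2 ≠ 0 := eiso_y_ne hb x
      apply h2
      push_cast at h1
      linear_combination (-1 / 2 : ℂ) * h1

theorem eiso_br_tw {Q : ℂ[X]} {l : ℂ} (hb : Br Q l) (i : Fin 2) : Br (twP i Q) l := by
  have key : ∀ z : ℂ, (Q.eval z = 0 ∨ Q.eval z = 1) →
      ((twP i Q).eval z = 0 ∨ (twP i Q).eval z = 1) := by
    intro z hz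
    unfold twP
    split
    · exact hz
    · rcases hz with hz | hz
      · right; simp [hz]
      · left; simp [hz]
  exact ⟨hb.1, hb.2.1, key _ hb.2.2.1, key _ hb.2.2.2.1, key _ hb.2.2.2.2⟩

open Classical in
theorem e_hol {Q : ℂ[X]} (h : Good Q) {l : ℂ} (hb : Br Q l) (i : Fin 2) (e : Fb (evC Q l)) :
    letI := sgnAct Q l
    (em h hb i ^ Function.minimalPeriod (⇑(pm h i)) (eprj Q l e)) e =
      (if vt (twP i Q) (eprj Q l e).1 ∈ ({0, 1, l} : Set ℂ) then (-1 : ℤˣ) else 1) • e := by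
  letI := sgnAct Q l
  have hbt := eiso_br_tw hb i
  have hh := h.tw i
  apply Subtype.ext
  have h1 := moi_pow (hb.cov h) i (Function.minimalPeriod (⇑(pm h i)) (eprj Q l e)) e
  have h2 : ((em h hb i ^ Function.minimalPeriod (⇑(pm h i)) (eprj Q l e)) e).1 =
      gl (tw i (evC Q l)) e.1
        (0, (Function.minimalPeriod (⇑(pm h i)) (eprj Q l e) : ℕ)) := h1
  rw [h2, pm_period, tw_evC]
  have he : evC (twP i Q) l e.1 = 1 / 2 := by
    have := (tw_half (p := evC Q l) i e.1).2 e.2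
    rw [tw_evC] at this
    exact this
  by_cases hv : vt (twP i Q) (eprj Q l e).1 ∈ ({0, 1, l} : Set ℂ)
  · rw [if_pos hv]
    have hv' : vt (twP i Q) e.1.1.1 = 0 ∨ vt (twP i Q) e.1.1.1 = 1 ∨
        vt (twP i Q) e.1.1.1 = l := hv
    have h3 := sign_neg hh hbt.1 hbt.2.1 hbt.2.2.1 hbt.2.2.2.1 hbt.2.2.2.2 e.1 he hv'
    apply Subtype.ext
    refine Eq.trans h3 ?_
    refine Prod.ext rfl ?_
    change -e.1.1.2 = (((-1 : ℤˣ) : ℤ) : ℂ) * e.1.1.2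
    simp
  · rw [if_neg hv]
    have hv' : ¬ (vt (twP i Q) e.1.1.1 = 0 ∨ vt (twP i Q) e.1.1.1 = 1 ∨
        vt (twP i Q) e.1.1.1 = l) := hv
    have h3 := sign_pos hh hbt.2.2.1 hbt.2.2.2.1 hbt.2.2.2.2 e.1 he hv'
    apply Subtype.ext
    refine Eq.trans h3 ?_
    rw [one_smul]

open Classical in
/-- the holonomy -/
noncomputable def eisoC (Q : ℂ[X]) (l : ℂ) (i : Fin 2) (x : Fb (ev Q)) : ℤˣ :=
  if vt (twP i Q) x.1 ∈ ({0, 1, l} : Set ℂ) then (-1 : ℤˣ) else 1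

theorem eisoC_congr {Q : ℂ[X]} {l l' : ℂ} {i : Fin 2} {x x' : Fb (ev Q)}
    (h : vt (twP i Q) x'.1 ∈ ({0, 1, l'} : Set ℂ) ↔ vt (twP i Q) x.1 ∈ ({0, 1, l} : Set ℂ)) :
    eisoC Q l' i x' = eisoC Q l i x := by
  unfold eisoC
  exact if_congr h rfl rfl

theorem e_iso (F : GPair) (hF : F.IsAut) {Q : ℂ[X]} (h : Good Q) {l l' : ℂ} (hb : Br Q l)
    (hb' : Br Q l') [Finite (Fb (ev Q))] [Finite (Fb (evC Q l))] [Finite (Fb (evC Q l'))]
    (ht : IsTree (pm h 0) (pm h 1) (vx h 0) (vx h 1)) (φ₀ : Perm (Fb (ev Q)))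
    (h0 : ∀ x, φ₀ (F.X (pm h 0) (pm h 1) x) = pm h 0 (φ₀ x))
    (h1 : ∀ x, φ₀ (F.Y (pm h 0) (pm h 1) x) = pm h 1 (φ₀ x))
    (hv0 : ∀ x, vt (twP 0 Q) (φ₀ x).1 ∈ ({0, 1, l'} : Set ℂ) ↔
      vt (twP 0 Q) x.1 ∈ ({0, 1, l} : Set ℂ))
    (hv1 : ∀ x, vt (twP 1 Q) (φ₀ x).1 ∈ ({0, 1, l'} : Set ℂ) ↔
      vt (twP 1 Q) (F.f.ev (Perm (Fb (ev Q))) (pm h 0) (pm h 1) x).1 ∈ ({0, 1, l} : Set ℂ)) :
    ∃ φ : Fb (evC Q l) ≃ Fb (evC Q l'),
      (∀ e, φ (F.X (em h hb 0) (em h hb 1) e) = em h hb' 0 (φ e)) ∧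
      ∀ e, φ (F.Y (em h hb 0) (em h hb 1) e) = em h hb' 1 (φ e) := by
  letI i1 := sgnAct Q l
  letI i2 := sgnAct Q l'
  haveI := vt_finite h 0
  haveI := vt_finite h 1
  obtain ⟨φ, θ, _, _, h3, h4⟩ := level (A := ℤˣ) F hF (pm h 0) (pm h 1) (vx h 0) (vx h 1) ht φ₀
    h0 h1 (eprj Q l) (eprj Q l') (em h hb 0) (em h hb 1) (em h hb' 0) (em h hb' 1)
    (e_tors h hb) (e_tors h hb') (eisoC Q l 0) (eisoC Q l 1) (eisoC Q l' 0) (eisoC Q l' 1)
    (fun y => e_hol h hb 0 y) (fun y => e_hol h hb 1 y) (fun y => e_hol h hb' 0 y)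
    (fun y => e_hol h hb' 1 y) (fun w => eisoC_congr (hv0 w)) (fun w => eisoC_congr (hv1 w))
  exact ⟨φ, h3, h4⟩

end Pool.Agent.H9.GT
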