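import Pool.Agent.H9.GT.Defs

/-!
# The action of `F = (μ, f)` on pairs of permutations: formal properties
(job GT-EV)

All groups are finite.

* `ev_equivariant`: let `G` be the subgroup of `Perm X × Perm Y` of all `(p, q)` with
  `π (p x) = q (π x)` for all `x`; `(a, a'), (b, b') ∈ G`. Apply `f.nat` to the two projections
  `G → Perm X`, `G → Perm Y`: both `f(a, b)` and `f(a', b')` are the components of
  `f((a,a'), (b,b')) ∈ G`.
* `pow_equivariant`: `N = orderOf a * orderOf a'`; `r N ≡ r (orderOf a) [MOD orderOf a]`, so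
  `μ.pow a = a ^ r N` and `μ.pow a' = a' ^ r N` (`pow_eq_pow_mod`/`pow_inj_mod`).
* `closure_eq`: put `K = closure {X a b, Y a b}`; it is contained in `H = closure {a, b}` because
  `f(a, b) ∈ H` (naturality for the inclusion of `H`). Apply `IsAut` to the group `K`: there is a
  pair `(c, d)` in `K` with `(X c d, Y c d) = (X a b, Y a b)` (naturality for the inclusion
  `K → G`); injectivity of the map on pairs of `G` gives `c = a`, `d = b`, so `a, b ∈ K`.
* `pow_sameCycle`, `pow_period`: `μ.pow p = p ^ r`, `r` coprime to the order of `p`, so `p` is a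
  power of `μ.pow p` too. The minimal period of `ω` under `p ^ r`, `r` coprime to the order of
  `p`: `(p ^ r) ^ n ω = ω ↔ period ∣ r n ↔ period ∣ n`.
* `pow_hol`: `(p ^ r) ^ n x = (p ^ n) ^ r x = c ^ r • x` by commutation; the order of `c` divides
  the order of `p` (`p ^ (n * orderOf p) x = x = c ^ orderOf p • x`, freeness), so
  `c ^ r (orderOf p) = c ^ r (orderOf c)`.
-/

set_option autoImplicit false

namespace Pool.Agent.H9.GT

open Equiv

theorem pow_eq_of_dvd (μ : ZHatUnit) {G : Type} [Group G] [Finite G] (g : G) (N : ℕ) (hN : 0 < N)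
    (h : orderOf g ∣ N) : g ^ μ.r N = μ.pow g := by
  unfold ZHatUnit.pow
  exact pow_eq_pow_iff_modEq.2 (μ.compat (orderOf g) N hN h)

theorem pow_map (μ : ZHatUnit) {G H : Type} [Group G] [Finite G] [Group H] [Finite H]
    (φ : G →* H) (g : G) : φ (μ.pow g) = μ.pow (φ g) := by
  rw [← pow_eq_of_dvd μ (φ g) (orderOf g) (orderOf_pos g) (orderOf_map_dvd φ g)]
  unfold ZHatUnit.pow
  rw [map_pow]

theorem X_map (F : GPair) {G H : Type} [Group G] [Finite G] [Group H] [Finite H]
    (φ : G →* H) (a b : G) : φ (F.X a b) = F.X (φ a) (φ b) :=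
  pow_map F.mu φ a

theorem Y_map (F : GPair) {G H : Type} [Group G] [Finite G] [Group H] [Finite H]
    (φ : G →* H) (a b : G) : φ (F.Y a b) = F.Y (φ a) (φ b) := by
  unfold GPair.Y
  rw [map_mul, map_mul, map_inv, F.f.nat G H φ a b, pow_map]

theorem ev_apply_inv {X : Type} (q : Perm X) (x : X) : q (q⁻¹ x) = x := by
  rw [← Perm.mul_apply, mul_inv_cancel, Perm.one_apply]

/-- pairs of permutations compatible with `π` -/
def evPairs {X Y : Type} (π : X → Y) : Subgroup (Perm X × Perm Y) where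
  carrier := {p | ∀ x, π (p.1 x) = p.2 (π x)}
  mul_mem' := by
    intro p q hp hq x
    show π (p.1 (q.1 x)) = p.2 (q.2 (π x))
    rw [hp, hq]
  one_mem' := fun _ => rfl
  inv_mem' := by
    intro p hp x
    show π (p.1⁻¹ x) = p.2⁻¹ (π x)
    apply p.2.injective
    rw [← hp, ev_apply_inv, ev_apply_inv]

theorem ev_equivariant (f : FHat) {X Y : Type} [Finite X] [Finite Y] (π : X → Y)
    (a b : Perm X) (a' b' : Perm Y) (ha : ∀ x, π (a x) = a' (π x)) (hb : ∀ x, π (b x) = b' (π x))
    (x : X) : π (f.ev (Perm X) a b x) = f.ev (Perm Y) a' b' (π x) := by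
  let A : evPairs π := ⟨(a, a'), ha⟩
  let B : evPairs π := ⟨(b, b'), hb⟩
  have h1 := f.nat (evPairs π) (Perm X) ((MonoidHom.fst _ _).comp (evPairs π).subtype) A B
  have h2 := f.nat (evPairs π) (Perm Y) ((MonoidHom.snd _ _).comp (evPairs π).subtype) A B
  have h3 : (f.ev (evPairs π) A B).1.1 = f.ev (Perm X) a b := h1
  have h4 : (f.ev (evPairs π) A B).1.2 = f.ev (Perm Y) a' b' := h2
  rw [← h3, ← h4]
  exact (f.ev (evPairs π) A B).2 x

theorem pow_equivariant (μ : ZHatUnit) {X Y : Type} [Finite X] [Finite Y] (π : X → Y)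
    (a : Perm X) (a' : Perm Y) (ha : ∀ x, π (a x) = a' (π x)) (x : X) :
    π (μ.pow a x) = μ.pow a' (π x) := by
  have hN : 0 < orderOf a * orderOf a' := Nat.mul_pos (orderOf_pos a) (orderOf_pos a')
  rw [← pow_eq_of_dvd μ a _ hN (Dvd.intro _ rfl), ← pow_eq_of_dvd μ a' _ hN (Dvd.intro_left _ rfl)]
  generalize μ.r (orderOf a * orderOf a') = n
  induction n with
  | zero => rfl
  | succ n ih =>
    rw [pow_succ', pow_succ', Perm.mul_apply, Perm.mul_apply, ha, ih]

theorem X_equivariant (F : GPair) {X Y : Type} [Finite X] [Finite Y] (π : X → Y)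
    (a b : Perm X) (a' b' : Perm Y) (ha : ∀ x, π (a x) = a' (π x)) (x : X) :
    π (F.X a b x) = F.X a' b' (π x) :=
  pow_equivariant F.mu π a a' ha x

theorem Y_equivariant (F : GPair) {X Y : Type} [Finite X] [Finite Y] (π : X → Y)
    (a b : Perm X) (a' b' : Perm Y) (ha : ∀ x, π (a x) = a' (π x)) (hb : ∀ x, π (b x) = b' (π x))
    (x : X) : π (F.Y a b x) = F.Y a' b' (π x) := by
  have h1 := fun y => ev_equivariant F.f π a b a' b' ha hb y
  show π ((F.f.ev (Perm X) a b)⁻¹ (F.mu.pow b (F.f.ev (Perm X) a b x))) =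
    (F.f.ev (Perm Y) a' b')⁻¹ (F.mu.pow b' (F.f.ev (Perm Y) a' b' (π x)))
  rw [← h1 x, ← pow_equivariant F.mu π b b' hb]
  apply (F.f.ev (Perm Y) a' b').injective
  rw [← h1, ev_apply_inv, ev_apply_inv]

theorem closure_eq (F : GPair) (hF : F.IsAut) {G : Type} [Group G] [Finite G] (a b : G) :
    Subgroup.closure {F.X a b, F.Y a b} = Subgroup.closure {a, b} := by
  apply le_antisymm
  · have haH : a ∈ Subgroup.closure {a, b} := Subgroup.subset_closure (Set.mem_insert _ _)
    have hbH : b ∈ Subgroup.closure {a, b} :=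
      Subgroup.subset_closure (Set.mem_insert_of_mem _ (Set.mem_singleton _))
    have hev : F.f.ev G a b ∈ Subgroup.closure {a, b} := by
      have h := F.f.nat (Subgroup.closure {a, b}) G (Subgroup.closure {a, b}).subtype
        ⟨a, haH⟩ ⟨b, hbH⟩
      have h' : ((F.f.ev (Subgroup.closure {a, b}) ⟨a, haH⟩ ⟨b, hbH⟩ : Subgroup.closure {a, b}) : G)
        = F.f.ev G a b := h
      rw [← h']
      exact Subtype.coe_prop _
    rw [Subgroup.closure_le]
    intro z hz
    rcases hz with rfl | hz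
    · exact Subgroup.pow_mem _ haH _
    · rw [Set.mem_singleton_iff] at hz
      subst hz
      exact Subgroup.mul_mem _ (Subgroup.mul_mem _ (Subgroup.inv_mem _ hev)
        (Subgroup.pow_mem _ hbH _)) hev
  · have hx : F.X a b ∈ Subgroup.closure {F.X a b, F.Y a b} :=
      Subgroup.subset_closure (Set.mem_insert _ _)
    have hy : F.Y a b ∈ Subgroup.closure {F.X a b, F.Y a b} :=
      Subgroup.subset_closure (Set.mem_insert_of_mem _ (Set.mem_singleton _))
    obtain ⟨⟨c, d⟩, hcd⟩ := (hF (Subgroup.closure {F.X a b, F.Y a b})).2 (⟨_, hx⟩, ⟨_, hy⟩)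
    simp only [Prod.mk.injEq] at hcd
    have e1 := X_map F (Subgroup.closure {F.X a b, F.Y a b}).subtype c d
    have e2 := Y_map F (Subgroup.closure {F.X a b, F.Y a b}).subtype c d
    rw [hcd.1] at e1
    rw [hcd.2] at e2
    have e3 : F.X a b = F.X (c : G) (d : G) := e1
    have e4 : F.Y a b = F.Y (c : G) (d : G) := e2
    have h := (hF G).1 (a₁ := (a, b)) (a₂ := ((c : G), (d : G))) (Prod.ext e3 e4)
    simp only [Prod.mk.injEq] at h
    have hc : a ∈ Subgroup.closure {F.X a b, F.Y a b} := by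
      have := c.2
      rwa [← h.1] at this
    have hd : b ∈ Subgroup.closure {F.X a b, F.Y a b} := by
      have := d.2
      rwa [← h.2] at this
    rw [Subgroup.closure_le]
    intro z hz
    rcases hz with rfl | hz
    · exact hc
    · rw [Set.mem_singleton_iff] at hz
      rw [hz]; exact hd

theorem pow_sameCycle (μ : ZHatUnit) {X : Type} [Finite X] (p : Perm X) (x y : X) :
    (μ.pow p).SameCycle x y ↔ p.SameCycle x y := by
  have hc := μ.cop (orderOf p) (orderOf_pos p)
  obtain ⟨m, hm⟩ := exists_pow_eq_self_of_coprime hc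
  unfold ZHatUnit.pow
  constructor
  · exact fun h => h.of_pow
  · intro h
    rw [← hm] at h
    exact h.of_pow

theorem pow_period (μ : ZHatUnit) {X : Type} [Finite X] (p : Perm X) (x : X) :
    Function.minimalPeriod (⇑(μ.pow p : Perm X)) x = Function.minimalPeriod (⇑p) x := by
  have hper : Function.IsPeriodicPt (⇑p) (orderOf p) x := by
    show (⇑p)^[orderOf p] x = x
    rw [Perm.iterate_eq_pow, pow_orderOf_eq_one]
    rfl
  have hmem : x ∈ Function.periodicPts (⇑p) :=
    Function.mk_mem_periodicPts (orderOf_pos p) hper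
  have hc := μ.cop (orderOf p) (orderOf_pos p)
  have h1 : (Function.minimalPeriod (⇑p) x).gcd (μ.r (orderOf p)) = 1 :=
    Nat.Coprime.coprime_dvd_left hper.minimalPeriod_dvd hc.symm
  have h2 : ⇑(μ.pow p : Perm X) = (⇑p)^[μ.r (orderOf p)] := by
    rw [Perm.iterate_eq_pow]
    rfl
  rw [h2, Function.minimalPeriod_iterate_eq_div_gcd' hmem, h1, Nat.div_one]

theorem pow_hol (μ : ZHatUnit) {X A : Type} [Finite X] [CommGroup A] [Finite A] [MulAction A X]
    (hfree : ∀ (a : A) (x : X), a • x = x → a = 1) (p : Perm X)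
    (hcomm : ∀ (a : A) (x : X), p (a • x) = a • p x) (n : ℕ) (x : X) (c : A)
    (h : (p ^ n) x = c • x) : ((μ.pow p) ^ n) x = μ.pow c • x := by
  have hcomm' : ∀ (m : ℕ) (a : A) (y : X), (p ^ m) (a • y) = a • (p ^ m) y := by
    intro m a
    induction m with
    | zero => intro y; rfl
    | succ m ih =>
      intro y
      rw [pow_succ, Perm.mul_apply, Perm.mul_apply, hcomm, ih]
  have hk : ∀ k : ℕ, ((p ^ n) ^ k) x = c ^ k • x := by
    intro k
    induction k with
    | zero => rw [pow_zero, pow_zero, one_smul]; rfl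
    | succ k ih =>
      rw [pow_succ', Perm.mul_apply, ih, hcomm', h, pow_succ, mul_smul]
  have hdvd : orderOf c ∣ orderOf p := by
    apply orderOf_dvd_of_pow_eq_one
    apply hfree _ x
    rw [← hk, ← pow_mul, mul_comm, pow_mul, pow_orderOf_eq_one, one_pow]
    rfl
  rw [← pow_eq_of_dvd μ c (orderOf p) (orderOf_pos p) hdvd, ← hk, ← pow_mul, mul_comm n, pow_mul]
  rfl

end Pool.Agent.H9.GT
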