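import Pool.Agent.H9.GT.Tree
import Pool.Agent.H9.GT.BelyiPts
import Pool.Agent.H9.GT.BaseZ

/-!
# The base level (job GT-ZLEV)

`zm, zp` from `tb_pts`. `pm 1 = swap zm zp`: a point `x` with `vt (1 - T) x ≠ cz` has period `1`
under `pm 1` (`pm_period`, `tb_mult`); a point with `vt (1 - T) x = cz` has period `2`
(`tb_mult_cz`) and is in the cycle of `zm` (`pm_same`), as `zp ≠ zm` (`vt T` is different) is in this
cycle too, the cycle is `{zm, zp}`. All `x` have `vt T x ∈ {0, 1}` (`tb_zero`). Then `base_trans`,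
`base_iso`; and `vt (1 - T) x = cz ↔ x = zm ∨ x = zp`.
-/

set_option autoImplicit false

open Polynomial Set Equiv

namespace Pool.Agent.H9.GT

theorem zlev_tw1 (Q : ℂ[X]) : twP 1 Q = 1 - Q := by
  unfold twP
  rw [if_neg (by decide)]

theorem zlev_tw0 (Q : ℂ[X]) : twP 0 Q = Q := by
  unfold twP
  rw [if_pos rfl]

theorem zlev_same1 {m n : ℕ} (hm : 0 < m) (hn : 0 < n) (x y : Fb (ev (Tb m n))) :
    vt (1 - Tb m n) x.1 = vt (1 - Tb m n) y.1 ↔ (pm (tb_good hm hn) 1).SameCycle x y := by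
  rw [← pm_same, Subtype.ext_iff]
  simp only [vx, zlev_tw1]

theorem zlev_same0 {m n : ℕ} (hm : 0 < m) (hn : 0 < n) (x y : Fb (ev (Tb m n))) :
    vt (Tb m n) x.1 = vt (Tb m n) y.1 ↔ (pm (tb_good hm hn) 0).SameCycle x y := by
  rw [← pm_same, Subtype.ext_iff]
  simp only [vx, zlev_tw0]

theorem zlev_root0 {m n : ℕ} (hm : 0 < m) (hn : 0 < n) (x : Fb (ev (Tb m n))) :
    vt (Tb m n) x.1 = 0 ∨ vt (Tb m n) x.1 = 1 := by
  have h := (vx (tb_good hm hn) 0 x).2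
  simp only [vx, zlev_tw0] at h
  exact (tb_zero hm hn _).1 h

theorem zlev_root1 {m n : ℕ} (hm : 0 < m) (hn : 0 < n) (x : Fb (ev (Tb m n))) :
    (1 - Tb m n).eval (vt (1 - Tb m n) x.1) = 0 := by
  have h := (vx (tb_good hm hn) 1 x).2
  simp only [vx, zlev_tw1] at h
  exact h

theorem zlev_per {m n : ℕ} (hm : 0 < m) (hn : 0 < n) (x : Fb (ev (Tb m n))) :
    Function.minimalPeriod (⇑(pm (tb_good hm hn) 1)) x =
      (1 - Tb m n).rootMultiplicity (vt (1 - Tb m n) x.1) := by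
  rw [pm_period, zlev_tw1]

/-- the two special points -/
theorem zlev_data {m n : ℕ} (hm : 0 < m) (hn : 0 < n) :
    ∃ zm zp : Fb (ev (Tb m n)), vt (Tb m n) zm.1 = 0 ∧ vt (Tb m n) zp.1 = 1 ∧
      (∀ x : Fb (ev (Tb m n)), vt (1 - Tb m n) x.1 = cz m n ↔ x = zm ∨ x = zp) ∧
      ∀ [DecidableEq (Fb (ev (Tb m n)))], pm (tb_good hm hn) 1 = Equiv.swap zm zp := by
  obtain ⟨zm, zp, h1, h2, h3, h4, h5, h6⟩ := tb_pts hm hn
  obtain ⟨zm, rfl⟩ : ∃ z : Fb (ev (Tb m n)), z.1 = zm := ⟨⟨zm, h1⟩, rfl⟩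
  obtain ⟨zp, rfl⟩ : ∃ z : Fb (ev (Tb m n)), z.1 = zp := ⟨⟨zp, h2⟩, rfl⟩
  have hne : zm ≠ zp := by
    intro h
    rw [h, h4] at h3
    exact one_ne_zero h3
  obtain ⟨P, hP⟩ : ∃ P, P = pm (tb_good hm hn) 1 := ⟨_, rfl⟩
  have hper : Function.minimalPeriod (⇑P) zm = 2 := by
    rw [hP, zlev_per hm hn, h5, tb_mult_cz hm hn]
  have hP2 : P (P zm) = zm := by
    have := Function.isPeriodicPt_minimalPeriod (⇑P) zm
    rw [hper] at this
    exact this
  have hcyc : ∀ y, P.SameCycle zm y → y = zm ∨ y = P zm := by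
    rintro y ⟨i, rfl⟩
    rcases Int.even_or_odd i with ⟨k, hk⟩ | ⟨k, hk⟩
    · left
      have : ∀ k : ℤ, (P ^ (k + k)) zm = zm := by
        intro k
        have e : ((2 : ℕ) : ℤ) ∣ k + k := ⟨k, by push_cast; ring⟩
        rw [← hper] at e
        exact (baseZ_zpow_fix P zm (k + k)).2 e
      rw [hk, this]
    · right
      have e : ((2 : ℕ) : ℤ) ∣ 2 * k := ⟨k, by push_cast; ring⟩
      rw [← hper] at e
      rw [hk, add_comm, zpow_add, zpow_one, Perm.mul_apply, (baseZ_zpow_fix P zm (2 * k)).2 e]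
  have hzp : P zm = zp := by
    rcases hcyc zp (by rw [hP, ← zlev_same1 hm hn, h5, h6]) with h | h
    · exact absurd h.symm hne
    · exact h.symm
  have hzm : P zp = zm := by rw [← hzp, hP2]
  have hiff : ∀ x : Fb (ev (Tb m n)), vt (1 - Tb m n) x.1 = cz m n ↔ x = zm ∨ x = zp := by
    intro x
    constructor
    · intro h
      have := hcyc x (by rw [hP, ← zlev_same1 hm hn, h5, h])
      rw [hzp] at this
      exact this
    · rintro (rfl | rfl)
      · exact h5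
      · exact h6
  refine ⟨zm, zp, h3, h4, hiff, ?_⟩
  intro _
  rw [← hP]
  apply Equiv.ext
  intro x
  by_cases hx : x = zm
  · rw [hx, Equiv.swap_apply_left, hzp]
  by_cases hx' : x = zp
  · rw [hx', Equiv.swap_apply_right, hzm]
  rw [Equiv.swap_apply_of_ne_of_ne hx hx']
  have hc : vt (1 - Tb m n) x.1 ≠ cz m n := by
    intro h
    rcases (hiff x).1 h with h | h
    · exact hx h
    · exact hx' h
  have hp1 : Function.minimalPeriod (⇑P) x = 1 := by
    rw [hP, zlev_per hm hn, tb_mult hm hn (zlev_root1 hm hn x) hc]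
  exact Function.minimalPeriod_eq_one_iff_isFixedPt.1 hp1

theorem z_trans {m n : ℕ} (hm : 0 < m) (hn : 0 < n) (x y : Fb (ev (Tb m n))) :
    ∃ g ∈ Subgroup.closure {pm (tb_good hm hn) 0, pm (tb_good hm hn) 1}, g x = y := by
  classical
  have := fb_finite (tb_good hm hn)
  obtain ⟨zm, zp, h1, h2, -, h3⟩ := zlev_data hm hn
  refine base_trans (pm (tb_good hm hn) 0) (pm (tb_good hm hn) 1) (fun x => vt (Tb m n) x.1)
    (fun x y => zlev_same0 hm hn x y) zm zp (fun x => ?_) h3 x y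
  simp only [h1, h2]
  exact zlev_root0 hm hn x

theorem z_iso {m n : ℕ} (hm : 0 < m) (hn : 0 < n) (F : GPair) (hF : F.IsAut)
    [Finite (Fb (ev (Tb m n)))] :
    ∃ τ : Perm (Fb (ev (Tb m n))),
      (∀ w, τ (F.X (pm (tb_good hm hn) 0) (pm (tb_good hm hn) 1) w) =
        pm (tb_good hm hn) 0 (τ w)) ∧
      (∀ w, τ (F.Y (pm (tb_good hm hn) 0) (pm (tb_good hm hn) 1) w) =
        pm (tb_good hm hn) 1 (τ w)) ∧
      (∀ w, vt (Tb m n) (τ w).1 = vt (Tb m n) w.1) ∧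
      ∀ w, vt (1 - Tb m n) (τ w).1 = cz m n ↔ vt (1 - Tb m n)
        (F.f.ev (Perm (Fb (ev (Tb m n)))) (pm (tb_good hm hn) 0) (pm (tb_good hm hn) 1) w).1 =
          cz m n := by
  classical
  obtain ⟨zm, zp, h1, h2, hiff, h3⟩ := zlev_data hm hn
  obtain ⟨τ, t1, t2, t3, t4⟩ := base_iso F hF (pm (tb_good hm hn) 0) (pm (tb_good hm hn) 1)
    (fun x => vt (Tb m n) x.1) (fun x y => zlev_same0 hm hn x y) zm zp
    (by simp only [h1, h2]; exact zero_ne_one)
    (fun x => by simp only [h1, h2]; exact zlev_root0 hm hn x) h3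
  refine ⟨τ, t1, t2, t3, fun w => ?_⟩
  rw [hiff, hiff]
  exact t4 w

end Pool.Agent.H9.GT
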