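import Pool.Agent.H9.GT.XTors
import Pool.Agent.H9.GT.ZLevel
import Pool.Agent.H9.GT.Level

/-!
# The action of `F` on the fibre of `Q = T.comp R` (job GT-XISO)

`T = Tb m n`, `Q = T.comp R`, `R = a ((x - h) ^ k - D) + b`, `R h, R 0, R 1, R l ∈ {0, 1, cz}`.

Step 1: `τ` from `z_iso`, `c_0, c_1` from `x_hol`; `level` with `Y = Y'` = fibre of `Q`,
`A` = `k`-th roots of unity, `c_i' = c_i`. Matching: `c_0 (τ w) = c_0 w` since
`vt T (τ w) = vt T w`. `c_1 (τ w) = c_1 (g w)`: if `R h = cz` since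
`vt (1 - T) (τ w) = cz ↔ vt (1 - T) (g w) = cz`; if `R h ∈ {0, 1}` then `T (R h) = 0` (`tb_zero`), so
`vt (1 - T) _ ≠ R h` always (`vt_root`) and `c_1 = 1`. This gives `φ`, `θ`.

Step 2: vertices. Put `g_0 = 1`, `g_1 = G = f(S0, S1)`, `W_i x = vt (twP i Q) (g_i x)`,
`V_i x = vt (twP i Q) x`. Facts:
(a) `W_i x = W_i y ↔ V_i (φ x) = V_i (φ y)`: both mean that `x, y` are in the same cycle of
    `F.X S0 S1` resp. `F.Y S0 S1` (`pm_same`, `pm_sameCycle`, conjugation by `φ` resp. `G`);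
(b) for `p ∈ {0, 1, cz}` (the `T`-value of `p` being `i`): `R (W_i x) = p ↔ R (V_i (φ x)) = p`
    (`vt_prj`, `prj (φ x) = τ (prj x)`, `prj (G x) = g (prj x)` (`ev_equivariant`), the properties of
    `τ`; for `p = 0, 1`, `i = 0`; for `p = cz`, `i = 1`); for the other `i` both are false;
(c) `V_i (ζ • x) = ζ V_i x`, `W_i (ζ • x) = ζ W_i x`, `φ (ζ • x) = θ ζ • φ x`.
Let `x₁ ∈ {0, 1}`, `x₁ ≠ h` (`x₁ = 1` if `h = 0`, else `x₁ = 0`), `i₁ = T (R x₁)`. Choose `y` with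
`W_{i₁} y = x₁` (`vx_surj`). `R (V (φ y)) = R x₁` by (b), so `V (φ y) = ζ x₁`. Replace `φ` by `ζ⁻¹ • φ`
(still intertwines, all facts remain). Now `V (φ y) = x₁`, so by (a) `W x = x₁ ↔ V (φ x) = x₁`.
`h` itself: `W_i x = h ↔ R (W_i x) = R h ↔ V_i (φ x) = h` (b). The second point `x₂` of `{0, 1}`:
if `x₂ = h` done; else `h = 1/2`, `k` even and `x₂ = ε x₁` with `ε = -1`:
`W x = ε x₁ ↔ W (ε • x) = x₁ ↔ V (φ (ε • x)) = x₁ ↔ V (φ x) = θ ε x₁`, and `θ ε = ε` because `θ ε` has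
order two. `l`: `i₂ = T (R l)`, choose `y'` with `W_{i₂} y' = l`, put `l' = V (φ y')`, `R l' = R l` so
`(l' - h) ^ k = (l - h) ^ k`, and by (a) `W x = l ↔ V (φ x) = l'`. For `i` different from the
`T`-value all these statements are false on both sides.
-/

set_option autoImplicit false

open Polynomial Set Equiv

namespace Pool.Agent.H9.GT

/-- the special points of the base -/
def Sp (m n : ℕ) : Set ℂ := {0, 1, cz m n}

theorem sp_eval {m n : ℕ} (hm : 0 < m) (hn : 0 < n) {z : ℂ} (hz : z ∈ Sp m n) :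
    (Tb m n).eval z = 0 ∨ (Tb m n).eval z = 1 := by
  rcases hz with h | h | h
  · left
    exact (tb_zero hm hn z).2 (Or.inl h)
  · left
    exact (tb_zero hm hn z).2 (Or.inr h)
  · right
    rw [show z = cz m n from h]
    exact tb_cz hm hn

theorem xi_twP_zero (Q : ℂ[X]) : twP 0 Q = Q := rfl

theorem xi_twP_one (Q : ℂ[X]) : twP 1 Q = 1 - Q := rfl

theorem xi_not_both {Q : ℂ[X]} {i j : Fin 2} {r : ℂ} (h1 : (twP i Q).eval r = 0)
    (h2 : (twP j Q).eval r = 0) : i = j := by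
  fin_cases i <;> fin_cases j
  · rfl
  · exfalso
    simp only [twP] at h1 h2
    simp at h1 h2
    rw [h1] at h2
    simp at h2
  · exfalso
    simp only [twP] at h1 h2
    simp at h1 h2
    rw [h2] at h1
    simp at h1
  · rfl

theorem xi_type {Q : ℂ[X]} {r : ℂ} (h : Q.eval r = 0 ∨ Q.eval r = 1) :
    ∃ i : Fin 2, (twP i Q).eval r = 0 := by
  rcases h with h | h
  · exact ⟨0, h⟩
  · refine ⟨1, ?_⟩
    rw [xi_twP_one, eval_sub, h]
    simp

theorem xi_same {X Y : Type} (p : Perm X) (q : Perm Y) (φ : X ≃ Y) (h : ∀ x, φ (p x) = q (φ x))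
    (x y : X) : p.SameCycle x y ↔ q.SameCycle (φ x) (φ y) := by
  have hq : ∀ n : ℤ, (q ^ n) (φ x) = φ ((p ^ n) x) := by
    have h1 : q = φ.permCongr p := by
      ext z
      rw [Equiv.permCongr_apply, h, Equiv.apply_symm_apply]
    intro n
    rw [h1, ← Equiv.permCongrHom_coe, ← map_zpow, Equiv.permCongrHom_coe,
      Equiv.permCongr_apply, Equiv.symm_apply_apply]
  constructor
  · rintro ⟨n, hn⟩
    exact ⟨n, by rw [hq, hn]⟩
  · rintro ⟨n, hn⟩
    refine ⟨n, ?_⟩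
    rw [hq] at hn
    exact φ.injective hn

/-- a vertex which is matched at one point is matched everywhere -/
theorem xi_match {X : Type} {Q : ℂ[X]} {W V : Fin 2 → X → ℂ}
    (hW : ∀ i x, (twP i Q).eval (W i x) = 0) (hV : ∀ i x, (twP i Q).eval (V i x) = 0)
    (ha : ∀ i x y, W i x = W i y ↔ V i x = V i y) {r r' : ℂ} {j : Fin 2} {y : X}
    (h1 : W j y = r) (h2 : V j y = r') (i : Fin 2) (x : X) : W i x = r ↔ V i x = r' := by
  by_cases hij : i = j
  · subst hij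
    rw [← h1, ← h2]
    exact ha i x y
  · constructor
    · intro h
      exfalso
      apply hij
      refine xi_not_both (Q := Q) (r := r) ?_ ?_
      · rw [← h]
        exact hW i x
      · rw [← h1]
        exact hW j y
    · intro h
      exfalso
      apply hij
      refine xi_not_both (Q := Q) (r := r') ?_ ?_
      · rw [← h]
        exact hV i x
      · rw [← h2]
        exact hV j y

theorem xi_rp_rot {a b h D : ℂ} {k : ℕ} (ζ : rootsOfUnity k ℂ) (x : ℂ) :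
    (Rp a b h D k).eval (rot h ((ζ : ℂˣ) : ℂ) x) = (Rp a b h D k).eval x := by
  have h1 : (((ζ : ℂˣ) : ℂ)) ^ k = 1 := by
    have := (mem_rootsOfUnity k (ζ : ℂˣ)).1 ζ.2
    rw [← Units.val_pow_eq_pow_val, this, Units.val_one]
  rw [rp_eval, rp_eval]
  unfold rot
  rw [add_sub_cancel_left, mul_pow, h1, one_mul]

theorem xi_rp_eq {a b h D : ℂ} {k : ℕ} (ha : a ≠ 0) {x y : ℂ}
    (h1 : (Rp a b h D k).eval x = (Rp a b h D k).eval y) : (x - h) ^ k = (y - h) ^ k := by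
  rw [rp_eval, rp_eval] at h1
  have h2 : a * ((x - h) ^ k - (y - h) ^ k) = 0 := by linear_combination h1
  rcases mul_eq_zero.1 h2 with h3 | h3
  · exact absurd h3 ha
  · exact sub_eq_zero.1 h3

/-- two points with the same value differ by a rotation -/
theorem xi_rot_of_eq {a b h D : ℂ} {k : ℕ} (hk : 0 < k) (ha : a ≠ 0) {x y : ℂ} (hy : y ≠ h)
    (h1 : (Rp a b h D k).eval x = (Rp a b h D k).eval y) :
    ∃ ζ : rootsOfUnity k ℂ, rot h ((ζ : ℂˣ) : ℂ) x = y := by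
  have h2 := xi_rp_eq ha h1
  have hy' : y - h ≠ 0 := sub_ne_zero.2 hy
  have hx' : x - h ≠ 0 := by
    intro h3
    rw [h3, zero_pow hk.ne'] at h2
    exact pow_ne_zero k hy' h2.symm
  have h3 : ((y - h) / (x - h)) ^ k = 1 := by
    rw [div_pow, h2, div_self (pow_ne_zero k hy')]
  have h4 : (Units.mk0 ((y - h) / (x - h)) (div_ne_zero hy' hx')) ∈ rootsOfUnity k ℂ := by
    rw [mem_rootsOfUnity]
    ext
    rw [Units.val_pow_eq_pow_val, Units.val_mk0, h3, Units.val_one]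
  refine ⟨⟨_, h4⟩, ?_⟩
  unfold rot
  simp only [Units.val_mk0]
  field_simp
  ring

theorem xi_rot_inj {h : ℂ} {k : ℕ} (ζ : rootsOfUnity k ℂ) {x y : ℂ}
    (h1 : rot h ((ζ : ℂˣ) : ℂ) x = rot h ((ζ : ℂˣ) : ℂ) y) : x = y := by
  unfold rot at h1
  have h2 : ((ζ : ℂˣ) : ℂ) ≠ 0 := (ζ : ℂˣ).ne_zero
  have h3 := mul_left_cancel₀ h2 (add_left_cancel h1)
  linear_combination h3

/-- an automorphism fixes `-1` -/
theorem xi_neg_one {k : ℕ} (θ : rootsOfUnity k ℂ ≃* rootsOfUnity k ℂ) (ε : rootsOfUnity k ℂ)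
    (hε : ((ε : ℂˣ) : ℂ) = -1) : θ ε = ε := by
  have h1 : ε ^ 2 = 1 := by
    ext
    push_cast
    rw [hε]
    norm_num
  have h2 : (θ ε) ^ 2 = 1 := by rw [← map_pow, h1, map_one]
  have h3 : (((θ ε : ℂˣ)) : ℂ) ^ 2 = 1 := by
    have := congrArg (fun z : rootsOfUnity k ℂ => ((z : ℂˣ) : ℂ)) h2
    simpa using this
  have h4 : ε ≠ 1 := by
    rintro rfl
    norm_num at hε
  have h5 : θ ε ≠ 1 := fun h => h4 (θ.injective (by rw [h, map_one]))
  have h6 : ((((θ ε : ℂˣ)) : ℂ) - 1) * ((((θ ε : ℂˣ)) : ℂ) + 1) = 0 := by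
    linear_combination h3
  rcases mul_eq_zero.1 h6 with h7 | h7
  · exfalso
    apply h5
    ext
    push_cast
    exact sub_eq_zero.1 h7
  · ext
    rw [hε]
    exact eq_neg_of_add_eq_zero_left h7

/-- Step 1: the equivariant isomorphism -/
theorem xi_step1 (F : GPair) (hF : F.IsAut) {m n : ℕ} (hm : 0 < m) (hn : 0 < n) {a b h D : ℂ}
    {k : ℕ} (ha : a ≠ 0) (hk : 0 < k) (hsh : (Rp a b h D k).eval h ∈ Sp m n)
    (hQ : Good ((Tb m n).comp (Rp a b h D k)))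
    [Finite (Fb (ev ((Tb m n).comp (Rp a b h D k))))] [Finite (Fb (ev (Tb m n)))] :
    letI := rotAct (Tb m n) a b h D k
    ∃ (τ : Perm (Fb (ev (Tb m n)))) (φ : Perm (Fb (ev ((Tb m n).comp (Rp a b h D k)))))
      (θ : rootsOfUnity k ℂ ≃* rootsOfUnity k ℂ),
      (∀ (ζ : rootsOfUnity k ℂ) x, φ (ζ • x) = θ ζ • φ x) ∧
      (∀ x, prj (Tb m n) a b h D k (φ x) = τ (prj (Tb m n) a b h D k x)) ∧
      (∀ x, φ (F.X (pm hQ 0) (pm hQ 1) x) = pm hQ 0 (φ x)) ∧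
      (∀ x, φ (F.Y (pm hQ 0) (pm hQ 1) x) = pm hQ 1 (φ x)) ∧
      (∀ w, vt (Tb m n) (τ w).1 = vt (Tb m n) w.1) ∧
      ∀ w, vt (1 - Tb m n) (τ w).1 = cz m n ↔ vt (1 - Tb m n)
        (F.f.ev (Perm (Fb (ev (Tb m n)))) (pm (tb_good hm hn) 0) (pm (tb_good hm hn) 1) w).1 =
          cz m n := by
  have hT := tb_good hm hn
  have hc := sp_eval hm hn hsh
  have hnz : NeZero k := ⟨hk.ne'⟩
  obtain ⟨τ, hτ0, hτ1, hτv, hτc⟩ := z_iso hm hn F hF
  obtain ⟨c0, hc0h, hc0a, hc0b, -⟩ := x_hol hT ha hk hc hQ 0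
  obtain ⟨c1, hc1h, hc1a, hc1b, -⟩ := x_hol hT ha hk hc hQ 1
  have ht := tree_of_trans hT (z_trans hm hn)
  have hf0 := vt_finite hT 0
  have hf1 := vt_finite hT 1
  letI := rotAct (Tb m n) a b h D k
  have htors := x_tors hT ha hk hc hQ
  have hm0 : ∀ w, c0 (τ w) = c0 w := by
    intro w
    have h1 : vt (twP 0 (Tb m n)) (τ w).1 = vt (twP 0 (Tb m n)) w.1 := hτv w
    by_cases hw : vt (twP 0 (Tb m n)) w.1 = (Rp a b h D k).eval h
    · exact hc0b _ _ (h1.trans hw) hw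
    · rw [hc0a w hw, hc0a (τ w) (by rw [h1]; exact hw)]
  have hm1 : ∀ w, c1 (τ w) = c1 (F.f.ev (Perm (Fb (ev (Tb m n)))) (pm hT 0) (pm hT 1) w) := by
    intro w
    by_cases hR : (Rp a b h D k).eval h = cz m n
    · have h1 := hτc w
      by_cases hw : vt (twP 1 (Tb m n)) (τ w).1 = (Rp a b h D k).eval h
      · refine hc1b _ _ hw ?_
        rw [hR] at hw ⊢
        exact h1.1 hw
      · rw [hc1a _ hw, hc1a]
        intro h2
        apply hw
        rw [hR] at h2 ⊢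
        exact h1.2 h2
    · have h2 : (Tb m n).eval ((Rp a b h D k).eval h) = 0 := by
        rw [tb_zero hm hn]
        rcases hsh with h3 | h3 | h3
        · exact Or.inl h3
        · exact Or.inr h3
        · exact absurd h3 hR
      have h4 : ∀ w : Fb (ev (Tb m n)), vt (twP 1 (Tb m n)) w.1 ≠ (Rp a b h D k).eval h := by
        intro w hw
        have h5 := vt_root (hT.tw 1) ((twP_half 1 (Tb m n) w.1).2 w.2)
        rw [hw, xi_twP_one, eval_sub, h2] at h5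
        simp at h5
      rw [hc1a _ (h4 _), hc1a _ (h4 _)]
  obtain ⟨φ, θ, h1, h2, h3, h4⟩ := level F hF (pm hT 0) (pm hT 1) (vx hT 0) (vx hT 1) ht τ
    hτ0 hτ1 (prj (Tb m n) a b h D k) (prj (Tb m n) a b h D k) (pm hQ 0) (pm hQ 1) (pm hQ 0)
    (pm hQ 1) htors htors c0 c1 c0 c1 hc0h hc1h hc0h hc1h hm0 hm1
  exact ⟨τ, φ, θ, h1, h2, h3, h4, hτv, hτc⟩

theorem x_iso (F : GPair) (hF : F.IsAut) {m n : ℕ} (hm : 0 < m) (hn : 0 < n) {a b h D : ℂ}
    {k : ℕ} (ha : a ≠ 0) (hk : 0 < k) (hh : h = 0 ∨ h = 1 ∨ (h = 1 / 2 ∧ Even k)) {l : ℂ}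
    (hlh : l ≠ h) (hsh : (Rp a b h D k).eval h ∈ Sp m n) (hs0 : (Rp a b h D k).eval 0 ∈ Sp m n)
    (hs1 : (Rp a b h D k).eval 1 ∈ Sp m n) (hsl : (Rp a b h D k).eval l ∈ Sp m n)
    (hQ : Good ((Tb m n).comp (Rp a b h D k)))
    [Finite (Fb (ev ((Tb m n).comp (Rp a b h D k))))] :
    ∃ (φ : Perm (Fb (ev ((Tb m n).comp (Rp a b h D k))))) (l' : ℂ),
      (l' - h) ^ k = (l - h) ^ k ∧
      (∀ x, φ (F.X (pm hQ 0) (pm hQ 1) x) = pm hQ 0 (φ x)) ∧
      (∀ x, φ (F.Y (pm hQ 0) (pm hQ 1) x) = pm hQ 1 (φ x)) ∧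
      (∀ x, vt (twP 0 ((Tb m n).comp (Rp a b h D k))) (φ x).1 ∈ ({0, 1, l'} : Set ℂ) ↔
        vt (twP 0 ((Tb m n).comp (Rp a b h D k))) x.1 ∈ ({0, 1, l} : Set ℂ)) ∧
      ∀ x, vt (twP 1 ((Tb m n).comp (Rp a b h D k))) (φ x).1 ∈ ({0, 1, l'} : Set ℂ) ↔
        vt (twP 1 ((Tb m n).comp (Rp a b h D k)))
          (F.f.ev (Perm (Fb (ev ((Tb m n).comp (Rp a b h D k))))) (pm hQ 0) (pm hQ 1) x).1 ∈
            ({0, 1, l} : Set ℂ) := by
  have hT := tb_good hm hn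
  have hfT : Finite (Fb (ev (Tb m n))) := fb_finite hT
  obtain ⟨τ, φ, θ, hφθ, hφπ, hφX, hφY, hτv, hτc⟩ := xi_step1 F hF hm hn ha hk hsh hQ
  have hc := sp_eval hm hn hsh
  letI := rotAct (Tb m n) a b h D k
  have tors := x_tors hT ha hk hc hQ
  obtain ⟨G, hG⟩ : ∃ G, G = F.f.ev (Perm (Fb (ev ((Tb m n).comp (Rp a b h D k)))))
    (pm hQ 0) (pm hQ 1) := ⟨_, rfl⟩
  obtain ⟨GT, hGT⟩ : ∃ GT, GT = F.f.ev (Perm (Fb (ev (Tb m n)))) (pm (tb_good hm hn) 0)
    (pm (tb_good hm hn) 1) := ⟨_, rfl⟩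
  rw [← hG]
  rw [← hGT] at hτc
  -- the twisting permutations
  obtain ⟨g, hg0, hg1⟩ : ∃ g : Fin 2 → Perm (Fb (ev ((Tb m n).comp (Rp a b h D k)))),
      g 0 = 1 ∧ g 1 = G := ⟨fun i => if i = 0 then 1 else G, rfl, rfl⟩
  obtain ⟨gT, hgT0, hgT1⟩ : ∃ g : Fin 2 → Perm (Fb (ev (Tb m n))),
      g 0 = 1 ∧ g 1 = GT := ⟨fun i => if i = 0 then 1 else GT, rfl, rfl⟩
  have hgeq : ∀ i (ζ : rootsOfUnity k ℂ) x, g i (ζ • x) = ζ • g i x := by
    intro i ζ x
    rcases i with ⟨_ | _ | i, hi⟩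
    · change g 0 (ζ • x) = ζ • g 0 x
      rw [hg0]
      rfl
    · change g 1 (ζ • x) = ζ • g 1 x
      rw [hg1, hG]
      exact (ev_equivariant F.f (fun x => ζ • x) (pm hQ 0) (pm hQ 1) (pm hQ 0) (pm hQ 1)
        (fun x => (tors.comm0 ζ x).symm) (fun x => (tors.comm1 ζ x).symm) x).symm
    · omega
  have hgprj : ∀ i x, prj (Tb m n) a b h D k (g i x) = gT i (prj (Tb m n) a b h D k x) := by
    intro i x
    rcases i with ⟨_ | _ | i, hi⟩
    · change prj (Tb m n) a b h D k (g 0 x) = gT 0 (prj (Tb m n) a b h D k x)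
      rw [hg0, hgT0]
      rfl
    · change prj (Tb m n) a b h D k (g 1 x) = gT 1 (prj (Tb m n) a b h D k x)
      rw [hg1, hgT1, hG, hGT]
      exact ev_equivariant F.f (prj (Tb m n) a b h D k) (pm hQ 0) (pm hQ 1) (pm hT 0) (pm hT 1)
        tors.cov0 tors.cov1 x
    · omega
  obtain ⟨W, hWdef⟩ : ∃ W : Fin 2 → Fb (ev ((Tb m n).comp (Rp a b h D k))) → ℂ,
      ∀ i x, W i x = vt (twP i ((Tb m n).comp (Rp a b h D k))) (g i x).1 :=
    ⟨_, fun _ _ => rfl⟩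
  obtain ⟨V0, hV0def⟩ : ∃ V0 : Fin 2 → Fb (ev ((Tb m n).comp (Rp a b h D k))) → ℂ,
      ∀ i x, V0 i x = vt (twP i ((Tb m n).comp (Rp a b h D k))) (φ x).1 :=
    ⟨_, fun _ _ => rfl⟩
  have hroot : ∀ i (x : Fb (ev ((Tb m n).comp (Rp a b h D k)))),
      (twP i ((Tb m n).comp (Rp a b h D k))).eval
        (vt (twP i ((Tb m n).comp (Rp a b h D k))) x.1) = 0 :=
    fun i x => vt_root (hQ.tw i) ((twP_half i _ x.1).2 x.2)
  have hvt : ∀ i x y, vt (twP i ((Tb m n).comp (Rp a b h D k))) x.1 =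
      vt (twP i ((Tb m n).comp (Rp a b h D k))) y.1 ↔ (pm hQ i).SameCycle x y := by
    intro i x y
    rw [← pm_same hQ i x y]
    unfold vx
    rw [Subtype.mk.injEq]
  -- fact (a)
  have ha0 : ∀ i x y, W i x = W i y ↔ V0 i x = V0 i y := by
    intro i x y
    rw [hWdef, hWdef, hV0def, hV0def]
    rcases i with ⟨_ | _ | i, hi⟩
    · change vt (twP 0 _) (g 0 x).1 = vt (twP 0 _) (g 0 y).1 ↔
        vt (twP 0 _) (φ x).1 = vt (twP 0 _) (φ y).1
      rw [hvt, hvt, hg0, Perm.one_apply, Perm.one_apply, ← pow_sameCycle F.mu]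
      exact xi_same _ _ φ hφX x y
    · change vt (twP 1 _) (g 1 x).1 = vt (twP 1 _) (g 1 y).1 ↔
        vt (twP 1 _) (φ x).1 = vt (twP 1 _) (φ y).1
      rw [hvt, hvt, hg1, ← xi_same _ _ φ hφY x y, ← pow_sameCycle F.mu (pm hQ 1)]
      refine (xi_same _ _ G (fun x => ?_) x y).symm
      unfold GPair.Y
      rw [← hG]
      simp only [Perm.mul_apply]
      exact (Equiv.apply_symm_apply G _)
    · omega
  -- fact (b)
  have hTb : ∀ i w, ∀ p ∈ Sp m n, vt (twP i (Tb m n)) (gT i w).1 = p ↔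
      vt (twP i (Tb m n)) (τ w).1 = p := by
    intro i w p hp
    rcases i with ⟨_ | _ | i, hi⟩
    · change vt (twP 0 (Tb m n)) (gT 0 w).1 = p ↔ vt (twP 0 (Tb m n)) (τ w).1 = p
      rw [hgT0, Perm.one_apply, xi_twP_zero, hτv]
    · change vt (twP 1 (Tb m n)) (gT 1 w).1 = p ↔ vt (twP 1 (Tb m n)) (τ w).1 = p
      rw [hgT1, xi_twP_one]
      by_cases hpc : p = cz m n
      · rw [hpc]
        exact (hτc w).symm
      · have h2 : (Tb m n).eval p = 0 := by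
          rw [tb_zero hm hn]
          rcases hp with h3 | h3 | h3
          · exact Or.inl h3
          · exact Or.inr h3
          · exact absurd h3 hpc
        have h4 : ∀ w : Fb (ev (Tb m n)), vt (1 - Tb m n) w.1 ≠ p := by
          intro w hw
          have h5 := vt_root (hT.tw 1) ((twP_half 1 (Tb m n) w.1).2 w.2)
          rw [xi_twP_one, hw, eval_sub, h2] at h5
          simp at h5
        exact ⟨fun h => absurd h (h4 _), fun h => absurd h (h4 _)⟩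
    · omega
  have hb0 : ∀ i x, ∀ p ∈ Sp m n, (Rp a b h D k).eval (W i x) = p ↔
      (Rp a b h D k).eval (V0 i x) = p := by
    intro i x p hp
    rw [hWdef, hV0def, ← vt_prj hT hQ i (g i x).2, ← vt_prj hT hQ i (φ x).2]
    have h1 : (Rp a b h D k).eval (g i x).1 = (gT i (prj (Tb m n) a b h D k x)).1 := by
      rw [← hgprj]
      rfl
    have h2 : (Rp a b h D k).eval (φ x).1 = (τ (prj (Tb m n) a b h D k x)).1 := by
      rw [← hφπ]
      rfl
    rw [h1, h2]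
    exact hTb i _ p hp
  -- fact (c)
  have hWeq : ∀ i (ζ : rootsOfUnity k ℂ) x, W i (ζ • x) = rot h ((ζ : ℂˣ) : ℂ) (W i x) := by
    intro i ζ x
    rw [hWdef, hWdef, hgeq]
    exact vt_rot hQ i ζ (g i x).2
  have hVeq : ∀ i (ζ : rootsOfUnity k ℂ) x,
      V0 i (ζ • x) = rot h (((θ ζ : rootsOfUnity k ℂ) : ℂˣ) : ℂ) (V0 i x) := by
    intro i ζ x
    rw [hV0def, hV0def, hφθ]
    exact vt_rot hQ i (θ ζ) (φ x).2
  have hsurj : ∀ i r, (twP i ((Tb m n).comp (Rp a b h D k))).eval r = 0 → ∃ x, W i x = r := by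
    intro i r hr
    obtain ⟨x, hx⟩ := vx_surj hQ i ⟨r, hr⟩
    refine ⟨(g i)⁻¹ x, ?_⟩
    rw [hWdef]
    have h1 : g i ((g i)⁻¹ x) = x := Equiv.apply_symm_apply (g i) x
    rw [h1]
    exact congrArg Subtype.val hx
  have hQev : ∀ x, (Rp a b h D k).eval x ∈ Sp m n →
      ((Tb m n).comp (Rp a b h D k)).eval x = 0 ∨
      ((Tb m n).comp (Rp a b h D k)).eval x = 1 := by
    intro x hx
    rw [eval_comp]
    exact sp_eval hm hn hx
  -- the special point `x₁`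
  obtain ⟨x₁, hx₁h, hx₁s, hx₁c⟩ : ∃ x₁ : ℂ, x₁ ≠ h ∧ (Rp a b h D k).eval x₁ ∈ Sp m n ∧
      ((h = 0 ∧ x₁ = 1) ∨ (h = 1 ∧ x₁ = 0) ∨ (h = 1 / 2 ∧ Even k ∧ x₁ = 0)) := by
    rcases hh with rfl | rfl | ⟨rfl, hk2⟩
    · exact ⟨1, one_ne_zero, hs1, Or.inl ⟨rfl, rfl⟩⟩
    · exact ⟨0, zero_ne_one, hs0, Or.inr (Or.inl ⟨rfl, rfl⟩)⟩
    · exact ⟨0, by norm_num, hs0, Or.inr (Or.inr ⟨rfl, hk2, rfl⟩)⟩
  obtain ⟨i₁, hi₁⟩ := xi_type (hQev x₁ hx₁s)
  obtain ⟨y, hy⟩ := hsurj i₁ x₁ hi₁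
  have hRy : (Rp a b h D k).eval (V0 i₁ y) = (Rp a b h D k).eval x₁ :=
    (hb0 i₁ y _ hx₁s).1 (by rw [hy])
  obtain ⟨ζ₀, hζ₀⟩ := xi_rot_of_eq hk ha hx₁h hRy
  obtain ⟨V, hVdef⟩ : ∃ V : Fin 2 → Fb (ev ((Tb m n).comp (Rp a b h D k))) → ℂ,
      ∀ i x, V i x = vt (twP i ((Tb m n).comp (Rp a b h D k))) (ζ₀ • φ x).1 :=
    ⟨_, fun _ _ => rfl⟩
  have hVV0 : ∀ i x, V i x = rot h ((ζ₀ : ℂˣ) : ℂ) (V0 i x) := by
    intro i x
    rw [hVdef, hV0def]
    exact vt_rot hQ i ζ₀ (φ x).2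
  have hWr : ∀ i x, (twP i ((Tb m n).comp (Rp a b h D k))).eval (W i x) = 0 := by
    intro i x
    rw [hWdef]
    exact hroot i _
  have hVr : ∀ i x, (twP i ((Tb m n).comp (Rp a b h D k))).eval (V i x) = 0 := by
    intro i x
    rw [hVdef]
    exact hroot i _
  have haV : ∀ i x y, W i x = W i y ↔ V i x = V i y := by
    intro i x y
    rw [ha0, hVV0, hVV0]
    constructor
    · intro h1
      rw [h1]
    · exact xi_rot_inj ζ₀
  have hbV : ∀ i x, ∀ p ∈ Sp m n, (Rp a b h D k).eval (W i x) = p ↔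
      (Rp a b h D k).eval (V i x) = p := by
    intro i x p hp
    rw [hb0 i x p hp, hVV0, xi_rp_rot]
  have m1 : ∀ i x, W i x = x₁ ↔ V i x = x₁ :=
    fun i x => xi_match hWr hVr haV hy (by rw [hVV0, hζ₀]) i x
  have hR_h : ∀ z : ℂ, (Rp a b h D k).eval z = (Rp a b h D k).eval h ↔ z = h := by
    intro z
    constructor
    · intro h1
      have h2 := xi_rp_eq ha h1
      rw [sub_self, zero_pow hk.ne'] at h2
      exact sub_eq_zero.1 (pow_eq_zero_iff hk.ne' |>.1 h2)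
    · intro h1
      rw [h1]
  have mh : ∀ i x, W i x = h ↔ V i x = h := by
    intro i x
    rw [← hR_h, ← hR_h]
    exact hbV i x _ hsh
  obtain ⟨i₂, hi₂⟩ := xi_type (hQev l hsl)
  obtain ⟨y', hy'⟩ := hsurj i₂ l hi₂
  have ml : ∀ i x, W i x = l ↔ V i x = V i₂ y' :=
    fun i x => xi_match hWr hVr haV hy' rfl i x
  have hRl : (Rp a b h D k).eval (V i₂ y') = (Rp a b h D k).eval l :=
    (hbV i₂ y' _ hsl).1 (by rw [hy'])
  have m01 : (∀ i x, W i x = 0 ↔ V i x = 0) ∧ ∀ i x, W i x = 1 ↔ V i x = 1 := by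
    rcases hx₁c with ⟨h1, h2⟩ | ⟨h1, h2⟩ | ⟨h1, hk2, h2⟩
    · rw [h2] at m1
      exact ⟨fun i x => by
        have := mh i x
        constructor
        · intro h3
          exact (this.1 (h3.trans h1.symm)).trans h1
        · intro h3
          exact (this.2 (h3.trans h1.symm)).trans h1, m1⟩
    · rw [h2] at m1
      exact ⟨m1, fun i x => by
        have := mh i x
        constructor
        · intro h3
          exact (this.1 (h3.trans h1.symm)).trans h1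
        · intro h3
          exact (this.2 (h3.trans h1.symm)).trans h1⟩
    · rw [h2] at m1
      refine ⟨m1, fun i x => ?_⟩
      have hε : (-1 : ℂˣ) ∈ rootsOfUnity k ℂ := by
        rw [mem_rootsOfUnity]
        exact hk2.neg_one_pow
      have hεv : (((⟨-1, hε⟩ : rootsOfUnity k ℂ) : ℂˣ) : ℂ) = -1 := by simp
      have hW1 : W i ((⟨-1, hε⟩ : rootsOfUnity k ℂ) • x) = 1 - W i x := by
        rw [hWeq, hεv, h1]
        unfold rot
        ring
      have hV1 : V i ((⟨-1, hε⟩ : rootsOfUnity k ℂ) • x) = 1 - V i x := by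
        rw [hVV0, hVV0, hVeq, xi_neg_one θ _ hεv, hεv, h1]
        unfold rot
        ring
      have h3 := m1 i ((⟨-1, hε⟩ : rootsOfUnity k ℂ) • x)
      rw [hW1, hV1] at h3
      constructor
      · intro h4
        have := h3.1 (by rw [h4]; ring)
        linear_combination -this
      · intro h4
        have := h3.2 (by rw [h4]; ring)
        linear_combination -this
  refine ⟨φ.trans (MulAction.toPerm ζ₀), V i₂ y', xi_rp_eq ha hRl, ?_, ?_, ?_, ?_⟩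
  · intro x
    simp only [Equiv.trans_apply, MulAction.toPerm_apply]
    rw [hφX, tors.comm0]
  · intro x
    simp only [Equiv.trans_apply, MulAction.toPerm_apply]
    rw [hφY, tors.comm1]
  · intro x
    simp only [Equiv.trans_apply, MulAction.toPerm_apply]
    have e1 : vt (twP 0 ((Tb m n).comp (Rp a b h D k))) (ζ₀ • φ x).1 = V 0 x := (hVdef 0 x).symm
    have e2 : vt (twP 0 ((Tb m n).comp (Rp a b h D k))) x.1 = W 0 x := by
      rw [hWdef, hg0]
      rfl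
    rw [e1, e2]
    simp only [Set.mem_insert_iff, Set.mem_singleton_iff]
    rw [m01.1 0 x, m01.2 0 x, ml 0 x]
  · intro x
    simp only [Equiv.trans_apply, MulAction.toPerm_apply]
    have e1 : vt (twP 1 ((Tb m n).comp (Rp a b h D k))) (ζ₀ • φ x).1 = V 1 x := (hVdef 1 x).symm
    have e2 : vt (twP 1 ((Tb m n).comp (Rp a b h D k))) (G x).1 = W 1 x := by
      rw [hWdef, hg1]
    rw [e1, e2]
    simp only [Set.mem_insert_iff, Set.mem_singleton_iff]
    rw [m01.1 1 x, m01.2 1 x, ml 1 x]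

end Pool.Agent.H9.GT
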