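import Pool.Agent.H9.GT.EIso
import Pool.Agent.H9.GT.XIso
import Pool.Agent.H9.GT.Arith

/-!
# The final assembly (job GT-MAIN)
-/

set_option autoImplicit false

open Polynomial Set Equiv

namespace Pool.Agent.H9.GT

/-- the two descriptions of the fibre of the curve -/
def fibEquiv (B : ℂ[X]) (l : ℂ) : Fibre B l ≃ Fb (evC B l) where
  toFun p := ⟨⟨p.1, p.2.1⟩, p.2.2⟩
  invFun e := ⟨e.1.1, e.1.2, e.2⟩
  left_inv p := rfl
  right_inv e := rfl

theorem mon_iff (B : ℂ[X]) (l : ℂ) (c : ℝ → ℂ) (e e' : Curve l) :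
    Mon B l c e.1 e'.1 ↔ Mn (evC B l) c e e' := by
  classical
  constructor
  · rintro ⟨γ, h1, h2, h3, h4⟩
    have hval : ∀ s ∈ Icc (0 : ℝ) 1,
        ((fun s => if h : γ s ∈ Curve l then (⟨γ s, h⟩ : Curve l) else e) s).1 = γ s := by
      intro s hs
      simp only
      rw [dif_pos (h4 s hs).1]
    refine ⟨fun s => if h : γ s ∈ Curve l then ⟨γ s, h⟩ else e, ?_, ?_, ?_, ?_⟩
    · rw [Topology.IsInducing.subtypeVal.continuousOn_iff]
      exact h1.congr hval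
    · apply Subtype.ext
      rw [← h2]
      exact hval 0 (by simp)
    · apply Subtype.ext
      rw [← h3]
      exact hval 1 (by simp)
    · intro s hs
      unfold evC
      rw [← (h4 s hs).2]
      have := hval s hs
      simp only at this
      rw [this]
  · rintro ⟨γ, h1, h2, h3, h4⟩
    refine ⟨fun s => (γ s).1, continuous_subtype_val.comp_continuousOn h1, ?_, ?_, ?_⟩
    · simp only [h2]
    · simp only [h3]
    · intro s hs
      exact ⟨(γ s).2, h4 s hs⟩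

theorem isDessin_iff {B : ℂ[X]} (h : Good B) {l : ℂ} (hb : Br B l) (Ω : Type)
    (σ₀ σ₁ : Perm Ω) : IsDessin B l Ω σ₀ σ₁ ↔
      ∃ e : Ω ≃ Fb (evC B l), ∀ w, e (σ₀ w) = em h hb 0 (e w) ∧ e (σ₁ w) = em h hb 1 (e w) := by
  have key : ∀ (p q : Fibre B l), (Mon B l loop0 p.1 q.1 ↔
      fibEquiv B l q = em h hb 0 (fibEquiv B l p)) ∧ (Mon B l loop1 p.1 q.1 ↔
      fibEquiv B l q = em h hb 1 (fibEquiv B l p)) := by
    intro p q
    constructor
    · have h1 := mon_iff B l loop0 ⟨p.1, p.2.1⟩ ⟨q.1, q.2.1⟩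
      have h2 := mn0 (hb.cov h) (fibEquiv B l p) (fibEquiv B l q)
      rw [h1]
      exact h2.trans eq_comm
    · have h1 := mon_iff B l loop1 ⟨p.1, p.2.1⟩ ⟨q.1, q.2.1⟩
      have h2 := mn1 (hb.cov h) (fibEquiv B l p) (fibEquiv B l q)
      rw [h1]
      exact h2.trans eq_comm
  constructor
  · rintro ⟨e, he⟩
    refine ⟨e.trans (fibEquiv B l), fun w => ?_⟩
    have h1 := he w
    rw [(key (e w) (e (σ₀ w))).1, (key (e w) (e (σ₁ w))).2] at h1
    exact h1
  · rintro ⟨e, he⟩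
    refine ⟨e.trans (fibEquiv B l).symm, fun w => ?_⟩
    have h1 := he w
    rw [(key _ _).1, (key _ _).2]
    simp only [Equiv.trans_apply, Equiv.apply_symm_apply]
    exact h1

theorem main_poly {l : ℂ} {k : ℕ} {h D a b : ℚ} {m n : ℕ}
    (hmin : minpoly ℚ l = (X - C h) ^ k - C D) :
    (((belyi m n).comp (C a * X + C b)).comp (minpoly ℚ l)).map (algebraMap ℚ ℂ) =
      (Tb m n).comp (Rp a b h D k) := by
  rw [hmin, comp_assoc, Polynomial.map_comp]
  unfold Tb Rp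
  congr 1
  simp only [add_comp, mul_comp, C_comp, X_comp, Polynomial.map_add, Polynomial.map_mul,
    Polynomial.map_C, Polynomial.map_sub, Polynomial.map_pow, Polynomial.map_X,
    eq_ratCast]

theorem main (F : GPair) (hF : F.IsAut) {l : ℂ} (hl0 : l ≠ 0) (hl1 : l ≠ 1) {k : ℕ} (hk : 0 < k)
    {h D : ℚ} (hh : h = 0 ∨ h = 1 ∨ (h = 1 / 2 ∧ Even k))
    (hmin : minpoly ℚ l = (X - C h) ^ k - C D) (T : ℚ[X])
    (hT : LastStep {(minpoly ℚ l).eval 0, (minpoly ℚ l).eval 1, 0, -D} T) :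
    (∃ (Ω : Type) (_ : Finite Ω) (σ₀ σ₁ : Perm Ω),
      IsDessin ((T.comp (minpoly ℚ l)).map (algebraMap ℚ ℂ)) l Ω σ₀ σ₁) ∧
    ∃ l' : ℂ, minpoly ℚ l' = minpoly ℚ l ∧ minpoly ℚ (jInv l') = minpoly ℚ (jInv l) ∧
      ∀ (Ω : Type) [Finite Ω] (σ₀ σ₁ : Perm Ω),
        IsDessin ((T.comp (minpoly ℚ l)).map (algebraMap ℚ ℂ)) l Ω σ₀ σ₁ →
        IsDessin ((T.comp (minpoly ℚ l)).map (algebraMap ℚ ℂ)) l' Ω (F.X σ₀ σ₁) (F.Y σ₀ σ₁) := by
  obtain ⟨a, b, m, n, ha, hm, hn, himg, rfl⟩ := hT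
  rw [main_poly hmin]
  -- the minimal polynomial is not zero, so `l` is integral
  have hPne : minpoly ℚ l ≠ 0 := by
    intro h0
    rw [h0] at hmin
    have h1 := congrArg (fun P : ℚ[X] => P.coeff k) hmin
    have h2 : ((X - C h : ℚ[X]) ^ k).coeff k = 1 := by
      have h3 : ((X - C h : ℚ[X]) ^ k).Monic := (monic_X_sub_C h).pow k
      have h4 : ((X - C h : ℚ[X]) ^ k).natDegree = k := by
        rw [natDegree_pow, natDegree_X_sub_C, mul_one]
      have h5 := h3.coeff_natDegree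
      rwa [h4] at h5
    simp only [coeff_zero, coeff_sub, h2] at h1
    rw [coeff_C, if_neg hk.ne'] at h1
    norm_num at h1
  have hint : IsIntegral ℚ l := minpoly.ne_zero_iff.1 hPne
  have hmem : ∀ t ∈ ({(minpoly ℚ l).eval 0, (minpoly ℚ l).eval 1, 0, -D} : Set ℚ),
      ((a * t + b : ℚ) : ℂ) ∈ Sp m n := by
    intro t ht
    have h1 : a * t + b ∈ ({0, (m : ℚ) / (m + n : ℕ), 1} : Set ℚ) := by
      rw [← himg]
      exact ⟨t, ht, rfl⟩
    unfold Sp cz
    rcases h1 with h1 | h1 | h1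
    · rw [h1]
      simp
    · rw [h1]
      simp
    · rw [show a * t + b = 1 from h1]
      simp
  have hPe : ∀ x : ℚ, (((minpoly ℚ l).eval x : ℚ) : ℂ) = ((x : ℂ) - h) ^ k - D := by
    intro x
    rw [hmin]
    simp
  have hRx : ∀ x : ℚ, (Rp a b h D k).eval (x : ℂ) = ((a * (minpoly ℚ l).eval x + b : ℚ) : ℂ) := by
    intro x
    rw [rp_eval]
    push_cast
    rw [hPe]
  have hs0 : (Rp a b h D k).eval 0 ∈ Sp m n := by
    have h1 := hRx 0
    rw [Rat.cast_zero] at h1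
    rw [h1]
    exact hmem _ (by simp)
  have hs1 : (Rp a b h D k).eval 1 ∈ Sp m n := by
    have h1 := hRx 1
    rw [Rat.cast_one] at h1
    rw [h1]
    exact hmem _ (by simp)
  have hsh : (Rp a b h D k).eval (h : ℂ) ∈ Sp m n := by
    have h1 := hRx h
    rw [h1]
    have h2 : (minpoly ℚ l).eval h = -D := by
      rw [hmin]
      simp [hk.ne']
    rw [h2]
    exact hmem _ (by simp)
  have hlD : (l - h) ^ k = (D : ℂ) := by
    have h1 := minpoly.aeval ℚ l
    rw [hmin] at h1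
    simp only [map_sub, map_pow, aeval_X, aeval_C, eq_ratCast] at h1
    exact sub_eq_zero.1 h1
  have hsl : (Rp a b h D k).eval l ∈ Sp m n := by
    rw [rp_eval, hlD, sub_self, mul_zero, zero_add]
    have h1 := hmem 0 (by simp)
    rwa [mul_zero, zero_add] at h1
  have hirr := minpoly.irreducible hint
  have hroot : ∀ q : ℚ, (minpoly ℚ l).eval q = 0 → minpoly ℚ l = X - C q ∧ l = q := by
    intro q hq
    have h0 : X - C q ∣ minpoly ℚ l := dvd_iff_isRoot.2 hq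
    have h1 : minpoly ℚ l = X - C q :=
      eq_of_monic_of_associated (minpoly.monic hint) (monic_X_sub_C q)
        ((irreducible_X_sub_C q).associated_of_dvd hirr h0).symm
    have h2 := minpoly.aeval ℚ l
    rw [h1] at h2
    simp only [map_sub, aeval_X, aeval_C, eq_ratCast] at h2
    exact ⟨h1, sub_eq_zero.1 h2⟩
  have hkdeg : ((X - C h : ℚ[X]) ^ k - C D).natDegree = k := by
    rw [natDegree_sub_C, natDegree_pow, natDegree_X_sub_C, mul_one]
  have hlh : l ≠ (h : ℂ) := by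
    intro hl
    rcases hh with rfl | rfl | ⟨rfl, hk2⟩
    · exact hl0 (by rw [hl]; simp)
    · exact hl1 (by rw [hl]; simp)
    · have hD : D = 0 := by
        rw [hl, sub_self, zero_pow hk.ne'] at hlD
        exact_mod_cast hlD.symm
      have h1 : (minpoly ℚ l).eval (1 / 2 : ℚ) = 0 := by
        rw [hmin, hD]
        simp [hk.ne']
      have h2 := (hroot _ h1).1
      rw [hmin] at h2
      have h3 := hkdeg
      rw [h2, natDegree_X_sub_C] at h3
      rw [← h3] at hk2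
      exact absurd hk2 (by decide)
  have haC : (a : ℂ) ≠ 0 := by exact_mod_cast ha
  have hhC : (h : ℂ) = 0 ∨ (h : ℂ) = 1 ∨ ((h : ℂ) = 1 / 2 ∧ Even k) := by
    rcases hh with rfl | rfl | ⟨rfl, hk2⟩
    · left
      simp
    · right; left
      simp
    · right; right
      exact ⟨by simp, hk2⟩
  have hQ : Good ((Tb m n).comp (Rp a b h D k)) :=
    good_comp (tb_good hm hn) haC hk (sp_eval hm hn hsh)
  have hev : ∀ x, (Rp (a : ℂ) b h D k).eval x ∈ Sp m n →
      ((Tb m n).comp (Rp a b h D k)).eval x = 0 ∨ ((Tb m n).comp (Rp a b h D k)).eval x = 1 := by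
    intro x hx
    rw [eval_comp]
    exact sp_eval hm hn hx
  have hb : Br ((Tb m n).comp (Rp a b h D k)) l :=
    ⟨hl0, hl1, hev 0 hs0, hev 1 hs1, hev l hsl⟩
  have hf1 : Finite (Fb (ev ((Tb m n).comp (Rp a b h D k)))) := fb_finite hQ
  have hf2 : Finite (Fb (evC ((Tb m n).comp (Rp a b h D k)) l)) := fbC_finite hQ l
  constructor
  · exact ⟨Fb (evC ((Tb m n).comp (Rp a b h D k)) l), hf2, em hQ hb 0, em hQ hb 1,
      (isDessin_iff hQ hb _ _ _).2 ⟨Equiv.refl _, fun w => ⟨rfl, rfl⟩⟩⟩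
  obtain ⟨φ₀, l', hl', hi0, hi1, hv0, hv1⟩ :=
    x_iso F hF hm hn haC hk hhC hlh hsh hs0 hs1 hsl hQ
  have hmin' : minpoly ℚ l' = minpoly ℚ l := minpoly_of_pow hk hmin hl'
  have hne : ∀ q : ℚ, l ≠ q → l' ≠ q := by
    intro q hq hq'
    apply hq
    have h1 : (((minpoly ℚ l).eval q : ℚ) : ℂ) = 0 := by
      rw [hPe, ← hq', hl', hlD, sub_self]
    exact (hroot q (by exact_mod_cast h1)).2
  have hl0' : l' ≠ 0 := by
    have := hne 0
    rw [Rat.cast_zero] at this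
    exact this hl0
  have hl1' : l' ≠ 1 := by
    have := hne 1
    rw [Rat.cast_one] at this
    exact this hl1
  have hsl' : (Rp (a : ℂ) b h D k).eval l' ∈ Sp m n := by
    rw [rp_eval, hl', ← rp_eval]
    exact hsl
  have hb' : Br ((Tb m n).comp (Rp a b h D k)) l' :=
    ⟨hl0', hl1', hev 0 hs0, hev 1 hs1, hev l' hsl'⟩
  have hf3 : Finite (Fb (evC ((Tb m n).comp (Rp a b h D k)) l')) := fbC_finite hQ l'
  have ht := tree_of_trans hQ
    (x_trans (tb_good hm hn) haC hk (sp_eval hm hn hsh) hQ (z_trans hm hn))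
  obtain ⟨φ, hφ0, hφ1⟩ := e_iso F hF hQ hb hb' ht φ₀ hi0 hi1 hv0 hv1
  refine ⟨l', hmin', jInv_conj hint hmin', ?_⟩
  intro Ω _ σ₀ σ₁ hd
  obtain ⟨e, he⟩ := (isDessin_iff hQ hb Ω σ₀ σ₁).1 hd
  refine (isDessin_iff hQ hb' Ω _ _).2 ⟨e.trans φ, fun w => ?_⟩
  simp only [Equiv.trans_apply]
  rw [X_equivariant F e σ₀ σ₁ (em hQ hb 0) (em hQ hb 1) (fun w => (he w).1),
    Y_equivariant F e σ₀ σ₁ (em hQ hb 0) (em hQ hb 1) (fun w => (he w).1) (fun w => (he w).2)]
  exact ⟨hφ0 _, hφ1 _⟩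

end Pool.Agent.H9.GT
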