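import Pool.Agent.H9.GT.CovPoly

/-!
# Composition with `a ((x - h) ^ k - D) + b` (job GT-MULT)

`mult_other`, `mult_center`: write `T = (X - C r) ^ e * U`, `U(r) ≠ 0` with `r = R(V)`
(`Polynomial.exists_eq_pow_rootMultiplicity_mul_and_not_dvd`), so
`T.comp R = (R - C r) ^ e * U.comp R`. For `V = h`: `R - C r = C a * (X - C h) ^ k`. For `V ≠ h`:
`R - C r` has the root `V` of multiplicity one (its derivative `a k (x - h) ^ (k-1)` is not zero
at `V`).
`good_comp`: `(T.comp R)' = T'(R) * R'`; `R'` vanishes only at `h` (for `k ≥ 2`).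
-/

set_option autoImplicit false

open Polynomial Set

namespace Pool.Agent.H9.GT

/-- `a ((x - h) ^ k - D) + b` -/
noncomputable def Rp (a b h D : ℂ) (k : ℕ) : ℂ[X] := C a * ((X - C h) ^ k - C D) + C b

theorem rp_eval (a b h D : ℂ) (k : ℕ) (x : ℂ) :
    (Rp a b h D k).eval x = a * ((x - h) ^ k - D) + b := by
  simp [Rp]

theorem twP_comp (i : Fin 2) (T R : ℂ[X]) : twP i (T.comp R) = (twP i T).comp R := by
  unfold twP
  split <;> simp

theorem gtm_root {p U : ℂ[X]} {v : ℂ} {n : ℕ} (hp : p = (X - C v) ^ n * U)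
    (hU : U.eval v ≠ 0) : p.rootMultiplicity v = n := by
  have hU0 : U ≠ 0 := by
    rintro rfl
    simp at hU
  rw [hp, mul_comm, rootMultiplicity_mul_X_sub_C_pow hU0, rootMultiplicity_eq_zero hU, zero_add]

theorem gtm_split {T : ℂ[X]} (hT : T ≠ 0) (R : ℂ[X]) (r : ℂ) : ∃ U : ℂ[X], U.eval r ≠ 0 ∧
    T.comp R = (R - C r) ^ (T.rootMultiplicity r) * U.comp R := by
  obtain ⟨U, hU, hd⟩ := exists_eq_pow_rootMultiplicity_mul_and_not_dvd T hT r
  refine ⟨U, fun h => hd (dvd_iff_isRoot.2 h), ?_⟩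
  conv_lhs => rw [hU]
  simp

theorem gtm_deriv (a b h D : ℂ) (k : ℕ) (x : ℂ) :
    (Rp a b h D k).derivative.eval x = a * (k * (x - h) ^ (k - 1)) := by
  simp [Rp, derivative_X_sub_C_pow]

theorem mult_center {T : ℂ[X]} (hT : T ≠ 0) {a b h D : ℂ} {k : ℕ} (ha : a ≠ 0) (hk : 0 < k) :
    (T.comp (Rp a b h D k)).rootMultiplicity h =
      k * T.rootMultiplicity ((Rp a b h D k).eval h) := by
  set R := Rp a b h D k with hR
  set r := R.eval h with hr
  obtain ⟨U, hU, hc⟩ := gtm_split hT R r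
  have h1 : R - C r = C a * (X - C h) ^ k := by
    have h2 : r = b - a * D := by
      rw [hr, hR, rp_eval, sub_self, zero_pow hk.ne']
      ring
    rw [h2, hR]
    unfold Rp
    simp only [map_sub, map_mul]
    ring
  refine gtm_root (U := C a ^ (T.rootMultiplicity r) * U.comp R) ?_ ?_
  · rw [hc, h1, mul_pow, ← pow_mul]
    ring
  · rw [eval_mul, eval_pow, eval_C, eval_comp]
    exact mul_ne_zero (pow_ne_zero _ ha) hU

theorem mult_other {T : ℂ[X]} (hT : T ≠ 0) {a b h D : ℂ} {k : ℕ} (ha : a ≠ 0) (hk : 0 < k)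
    {V : ℂ} (hV : V ≠ h) :
    (T.comp (Rp a b h D k)).rootMultiplicity V =
      T.rootMultiplicity ((Rp a b h D k).eval V) := by
  have hder := gtm_deriv a b h D k V
  set R := Rp a b h D k with hR
  set r := R.eval V with hr
  obtain ⟨U, hU, hc⟩ := gtm_split hT R r
  have h0 : (R - C r).IsRoot V := by
    rw [IsRoot.def, eval_sub, eval_C, hr, sub_self]
  obtain ⟨W, hW⟩ := dvd_iff_isRoot.2 h0
  have hWV : W.eval V ≠ 0 := by
    have h1 : (R - C r).derivative.eval V = W.eval V := by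
      rw [hW, derivative_mul]
      simp
    rw [← h1, derivative_sub, derivative_C, sub_zero, hder]
    refine mul_ne_zero ha (mul_ne_zero ?_ (pow_ne_zero _ (sub_ne_zero.2 hV)))
    exact_mod_cast hk.ne'
  refine gtm_root (U := W ^ (T.rootMultiplicity r) * U.comp R) ?_ ?_
  · rw [hc, hW, mul_pow, mul_assoc]
  · rw [eval_mul, eval_pow, eval_comp]
    exact mul_ne_zero (pow_ne_zero _ hWV) hU

theorem gtm_natDegree {a b h D : ℂ} {k : ℕ} (ha : a ≠ 0) :
    (Rp a b h D k).natDegree = k := by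
  have h1 : Rp a b h D k = C a * (X - C h) ^ k + C (b - a * D) := by
    unfold Rp
    simp only [map_sub, map_mul]
    ring
  rw [h1, natDegree_add_C, natDegree_C_mul ha, natDegree_pow, natDegree_X_sub_C, mul_one]

theorem good_comp {T : ℂ[X]} (hT : Good T) {a b h D : ℂ} {k : ℕ} (ha : a ≠ 0) (hk : 0 < k)
    (hc : T.eval ((Rp a b h D k).eval h) = 0 ∨ T.eval ((Rp a b h D k).eval h) = 1) :
    Good (T.comp (Rp a b h D k)) := by
  constructor
  · rw [natDegree_comp, gtm_natDegree ha]
    exact Nat.mul_pos hT.deg hk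
  · intro x hx
    rw [derivative_comp, eval_mul, eval_comp] at hx
    rw [eval_comp]
    rcases mul_eq_zero.1 hx with h1 | h1
    · rw [gtm_deriv] at h1
      have h2 : (x - h) ^ (k - 1) = 0 := by
        rcases mul_eq_zero.1 h1 with h3 | h3
        · exact absurd h3 ha
        · rcases mul_eq_zero.1 h3 with h4 | h4
          · exact absurd h4 (by exact_mod_cast hk.ne')
          · exact h4
      have h3 : x = h := by
        by_contra h4
        exact pow_ne_zero _ (sub_ne_zero.2 h4) h2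
      rw [h3]
      exact hc
    · exact hT.crit _ h1

end Pool.Agent.H9.GT
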