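import Pool.Agent.H9.GT.CovPoly
import Pool.Agent.H9.GT.Chart

/-!
# Normal form of the lifts near the end `t → ∞` (job GT-NF)

`kap m t = (1 / (1 + exp t)) ^ (1/m)`, `wp m w1 (t, s) = w1 * kap m t * exp(2πis/m)`, an `m`-th root
of `Hm (t, s)` if `w1 ^ m = 1`.

`nf_of_close` (heart): let `IsChart Q r ψ u δ ε`, `kap m T < δ` and `x₁ = gl (ev Q) x (T, 0)` be
`ε`-close to `r`. Then `x₁ = ψ w₀`, `w₀ ^ m = Q x₁ = Hm (T, 0)`, so `w₀ = wp m w1 (T, 0)` with
`w1 = w₀ / kap m T`, `w1 ^ m = 1`. On `{q | T ≤ q.1}` (a convex set, so a preconnected space) both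
`gl (ev Q) x` and `ψ ∘ wp m w1` are continuous lifts of `Hm` and they agree at `(T, 0)`: `Cov.uni`.

`exists_limit`: choose charts at all roots (`exists_chart`), `ε` the minimum of their `ε` (finitely
many roots), `ρ` from `near_root`, and `T` such that `1 / (1 + exp T) < ρ` and `kap m T < δ` for the
charts at all roots. The point `x₁ = gl (ev Q) x (T, 0)` has `‖Q x₁‖ = ‖Hm (T, 0)‖ < ρ`, so it is
`ε`-close to a root `r`; by `nf_of_close` `gl (ev Q) x (t, 0) = ψ (wp m w1 (t, 0)) → ψ 0 = r`.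

`normal_form`: choose `T` with `kap m T < δ` (antitone) and `gl (ev Q) x (T, 0)` close to `r`.
-/

set_option autoImplicit false

open Polynomial Set Filter Topology

namespace Pool.Agent.H9.GT

/-- radius -/
noncomputable def kap (m : ℕ) (t : ℝ) : ℝ := (1 / (1 + Real.exp t)) ^ ((1 : ℝ) / m)

/-- the `m`-th root of `Hm` -/
noncomputable def wp (m : ℕ) (w1 : ℂ) (q : ℝ × ℝ) : ℂ :=
  w1 * kap m q.1 * Complex.exp (2 * Real.pi * q.2 * Complex.I / m)

theorem kap_pos (m : ℕ) (t : ℝ) : 0 < kap m t := by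
  unfold kap
  exact Real.rpow_pos_of_pos (by positivity) _

theorem nf_base_tendsto : Tendsto (fun t : ℝ => 1 / (1 + Real.exp t)) atTop (𝓝 0) := by
  have h1 : Tendsto (fun t : ℝ => 1 + Real.exp t) atTop atTop :=
    tendsto_atTop_add_const_left _ _ Real.tendsto_exp_atTop
  have h2 := h1.inv_tendsto_atTop
  refine h2.congr fun t => ?_
  simp [one_div]

theorem kap_tendsto (m : ℕ) (hm : 0 < m) : Tendsto (kap m) atTop (𝓝 0) := by
  have hm' : (0 : ℝ) < 1 / m := by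
    have : (0 : ℝ) < m := by exact_mod_cast hm
    positivity
  have h := nf_base_tendsto.rpow_const (p := (1 : ℝ) / m) (Or.inr hm'.le)
  rw [Real.zero_rpow hm'.ne'] at h
  exact h

theorem kap_anti (m : ℕ) : Antitone (kap m) := by
  intro a b hab
  unfold kap
  refine Real.rpow_le_rpow (by positivity) ?_ (by positivity)
  have := Real.exp_le_exp.2 hab
  have h0 := Real.exp_pos a
  exact one_div_le_one_div_of_le (by linarith) (by linarith)

theorem nf_kap_cont (m : ℕ) : Continuous (kap m) := by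
  unfold kap
  refine Continuous.rpow_const ?_ fun t => Or.inl ?_
  · refine Continuous.div continuous_const (by fun_prop) fun t => ?_
    positivity
  · positivity

theorem wp_cont (m : ℕ) (w1 : ℂ) : Continuous (wp m w1) := by
  unfold wp
  refine Continuous.mul (Continuous.mul continuous_const ?_) ?_
  · exact Complex.continuous_ofReal.comp ((nf_kap_cont m).comp continuous_fst)
  · refine Complex.continuous_exp.comp ?_
    refine Continuous.div_const ?_ _
    refine Continuous.mul (Continuous.mul continuous_const ?_) continuous_const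
    exact Complex.continuous_ofReal.comp continuous_snd

theorem nf_exp_norm (m : ℕ) (s : ℝ) : ‖Complex.exp (2 * Real.pi * s * Complex.I / m)‖ = 1 := by
  have h : (2 * Real.pi * s * Complex.I / m : ℂ) = ((2 * Real.pi * s / m : ℝ) : ℂ) * Complex.I := by
    push_cast
    ring
  rw [h]
  exact Complex.norm_exp_ofReal_mul_I _

theorem wp_norm (m : ℕ) (w1 : ℂ) (h1 : ‖w1‖ = 1) (q : ℝ × ℝ) : ‖wp m w1 q‖ = kap m q.1 := by
  unfold wp
  rw [norm_mul, norm_mul, h1, nf_exp_norm, Complex.norm_real, Real.norm_eq_abs,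
    abs_of_pos (kap_pos m q.1)]
  ring

theorem nf_kap_pow (m : ℕ) (hm : 0 < m) (t : ℝ) : kap m t ^ m = 1 / (1 + Real.exp t) := by
  unfold kap
  have hm' : (m : ℝ) ≠ 0 := by
    have : (0 : ℝ) < m := by exact_mod_cast hm
    exact this.ne'
  rw [← Real.rpow_natCast, ← Real.rpow_mul (by positivity), one_div_mul_cancel hm', Real.rpow_one]

theorem wp_pow (m : ℕ) (hm : 0 < m) (w1 : ℂ) (h1 : w1 ^ m = 1) (q : ℝ × ℝ) :
    wp m w1 q ^ m = Hm q := by
  unfold wp Hm
  have hm' : (m : ℂ) ≠ 0 := by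
    have : m ≠ 0 := by omega
    exact_mod_cast this
  rw [mul_pow, mul_pow, h1, one_mul, ← Complex.exp_nat_mul, ← Complex.ofReal_pow,
    nf_kap_pow m hm, mul_div_cancel₀ _ hm']
  push_cast
  ring

/-- rotation by an integer number of turns -/
theorem wp_shift (m : ℕ) (w1 : ℂ) (t s : ℝ) (n : ℤ) :
    wp m w1 (t, s + n) = wp m (w1 * Complex.exp (2 * Real.pi * n * Complex.I / m)) (t, s) := by
  unfold wp
  have h : (2 * Real.pi * ((s + n : ℝ) : ℂ) * Complex.I / m : ℂ) =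
      2 * Real.pi * n * Complex.I / m + 2 * Real.pi * s * Complex.I / m := by
    push_cast
    ring
  simp only
  rw [h, Complex.exp_add]
  ring

theorem nf_mult_pos {Q : ℂ[X]} (h : Good Q) {r : ℂ} (hr : Q.eval r = 0) :
    0 < Q.rootMultiplicity r := by
  rw [Polynomial.rootMultiplicity_pos h.ne_zero]
  exact hr

instance nf_half_preconn (T : ℝ) : PreconnectedSpace {q : ℝ × ℝ // T ≤ q.1} := by
  have hc : Convex ℝ {q : ℝ × ℝ | T ≤ q.1} := by
    intro a ha b hb u v hu hv huv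
    simp only [Set.mem_setOf_eq] at *
    simp only [Prod.fst_add, Prod.smul_fst, smul_eq_mul]
    have h1 : T = u * T + v * T := by rw [← add_mul, huv, one_mul]
    rw [h1]
    exact add_le_add (mul_le_mul_of_nonneg_left ha hu) (mul_le_mul_of_nonneg_left hb hv)
  exact isPreconnected_iff_preconnectedSpace.1 hc.isPreconnected

theorem nf_of_close {Q : ℂ[X]} (h : Good Q) {x : ℂ} (hx : Q.eval x = 1 / 2) {r : ℂ}
    (hr : Q.eval r = 0) {ψ u : ℂ → ℂ} {δ ε : ℝ} (hc : IsChart Q r ψ u δ ε) {T : ℝ}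
    (hT : kap (Q.rootMultiplicity r) T < δ) (hclose : ‖gl (ev Q) x (T, 0) - r‖ < ε) :
    ∃ w1 : ℂ, w1 ^ Q.rootMultiplicity r = 1 ∧ ∀ q : ℝ × ℝ, T ≤ q.1 →
      gl (ev Q) x q = ψ (wp (Q.rootMultiplicity r) w1 q) := by
  have hcov := cov_poly h
  obtain ⟨hg1, hg2, hg3⟩ := gl_spec hcov (e := x) hx
  set m := Q.rootMultiplicity r with hmdef
  have hm : 0 < m := nf_mult_pos h hr
  obtain ⟨w0, hw0, hw0e⟩ := hc.surj (gl (ev Q) x (T, 0)) (by
    rw [Metric.mem_ball, dist_eq_norm]; exact hclose)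
  have hpow : w0 ^ m = Hm (T, 0) := by
    rw [← hc.eq w0 hw0, hw0e]
    exact hg3 (T, 0)
  have hHm : Hm (T, 0) = ((kap m T ^ m : ℝ) : ℂ) := by
    rw [nf_kap_pow m hm]
    unfold Hm
    simp
  have hk : (kap m T : ℂ) ≠ 0 := by exact_mod_cast (kap_pos m T).ne'
  have hw1 : (w0 / kap m T) ^ m = 1 := by
    rw [div_pow, hpow, hHm]
    push_cast
    exact div_self (pow_ne_zero _ hk)
  refine ⟨w0 / kap m T, hw1, ?_⟩
  have hn1 : ‖w0 / kap m T‖ = 1 := by
    have h1 : ‖w0 / kap m T‖ ^ m = 1 := by rw [← norm_pow, hw1, norm_one]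
    exact (pow_eq_one_iff_of_nonneg (norm_nonneg _) hm.ne').1 h1
  have hball : ∀ q : ℝ × ℝ, T ≤ q.1 → wp m (w0 / kap m T) q ∈ Metric.ball (0 : ℂ) δ := by
    intro q hq
    rw [mem_ball_zero_iff, wp_norm m _ hn1 q]
    exact (kap_anti m hq).trans_lt hT
  have hinit : wp m (w0 / kap m T) (T, 0) = w0 := by
    unfold wp
    simp only [Complex.ofReal_zero, mul_zero, zero_mul, zero_div, Complex.exp_zero, mul_one]
    exact div_mul_cancel₀ _ hk
  have huni := hcov.uni (A := {q : ℝ × ℝ // T ≤ q.1}) (fun q => gl (ev Q) x q.1)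
    (fun q => ψ (wp m (w0 / kap m T) q.1)) (hg1.comp continuous_subtype_val)
    (hc.cont.comp_continuous ((wp_cont m _).comp continuous_subtype_val)
      fun q => hball q.1 q.2)
    (fun q => by
      rw [hg3 q.1]
      have := hc.eq _ (hball q.1 q.2)
      unfold ev
      rw [this]
      exact (wp_pow m hm _ hw1 q.1).symm)
    (fun q => by
      rw [hg3 q.1]
      exact Hm_ne q.1)
    ⟨(T, 0), le_rfl⟩ (by
      simp only
      rw [hinit, hw0e])
  intro q hq
  exact congrFun huni ⟨q, hq⟩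

theorem exists_limit {Q : ℂ[X]} (h : Good Q) {x : ℂ} (hx : Q.eval x = 1 / 2) :
    ∃ r : ℂ, Q.eval r = 0 ∧ Tendsto (fun t : ℝ => gl (ev Q) x (t, 0)) atTop (𝓝 r) := by
  have hcov := cov_poly h
  obtain ⟨hg1, hg2, hg3⟩ := gl_spec hcov (e := x) hx
  have hch : ∀ r : ℂ, ∃ (ψ u : ℂ → ℂ) (δ ε : ℝ), Q.eval r = 0 → IsChart Q r ψ u δ ε := by
    intro r
    by_cases hr : Q.eval r = 0
    · obtain ⟨ψ, u, δ, ε, hc⟩ := exists_chart Q h.ne_zero r hr
      exact ⟨ψ, u, δ, ε, fun _ => hc⟩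
    · exact ⟨id, id, 0, 0, fun h0 => absurd h0 hr⟩
  choose ψ u δ ε hc using hch
  have hroot : ∀ r, r ∈ Q.roots.toFinset ↔ Q.eval r = 0 := by
    intro r
    rw [Multiset.mem_toFinset, Polynomial.mem_roots h.ne_zero]
    rfl
  have he1 : ∀ᶠ e : ℝ in 𝓝[>] 0, ∀ r ∈ Q.roots.toFinset, e < ε r := by
    rw [Filter.eventually_all_finset]
    intro r hr
    have hpos := (hc r ((hroot r).1 hr)).εpos
    exact (eventually_lt_nhds hpos).filter_mono nhdsWithin_le_nhds
  have he2 : ∀ᶠ e : ℝ in 𝓝[>] 0, 0 < e := eventually_mem_nhdsWithin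
  obtain ⟨e, hee, he0⟩ := (he1.and he2).exists
  obtain ⟨ρ, hρ, hnear⟩ := near_root Q h.deg e he0
  have hT1 : ∀ᶠ T : ℝ in atTop, ∀ r ∈ Q.roots.toFinset, kap (Q.rootMultiplicity r) T < δ r := by
    rw [Filter.eventually_all_finset]
    intro r hr
    have hr' := (hroot r).1 hr
    exact (tendsto_order.1 (kap_tendsto _ (nf_mult_pos h hr'))).2 _ (hc r hr').δpos
  have hT2 : ∀ᶠ T : ℝ in atTop, 1 / (1 + Real.exp T) < ρ :=
    (tendsto_order.1 nf_base_tendsto).2 _ hρ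
  obtain ⟨T, hTa, hTb⟩ := (hT1.and hT2).exists
  have hnorm : ‖Q.eval (gl (ev Q) x (T, 0))‖ < ρ := by
    have h1 : Q.eval (gl (ev Q) x (T, 0)) = Hm (T, 0) := hg3 (T, 0)
    rw [h1, Hm_norm]
    exact hTb
  obtain ⟨r, hr, hclose⟩ := hnear _ hnorm
  have hrf := (hroot r).2 hr
  obtain ⟨w1, hw1, hw1'⟩ := nf_of_close h hx hr (hc r hr) (hTa r hrf)
    (hclose.trans (hee r hrf))
  refine ⟨r, hr, ?_⟩
  set m := Q.rootMultiplicity r with hmdef
  have hm : 0 < m := nf_mult_pos h hr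
  have hn1 : ‖w1‖ = 1 := by
    have h1 : ‖w1‖ ^ m = 1 := by rw [← norm_pow, hw1, norm_one]
    exact (pow_eq_one_iff_of_nonneg (norm_nonneg _) hm.ne').1 h1
  have hw : Tendsto (fun t : ℝ => wp m w1 (t, 0)) atTop (𝓝 0) := by
    rw [tendsto_zero_iff_norm_tendsto_zero]
    refine (kap_tendsto m hm).congr fun t => ?_
    exact (wp_norm m w1 hn1 (t, 0)).symm
  have hψ : ContinuousAt (ψ r) 0 :=
    (hc r hr).cont.continuousAt (Metric.ball_mem_nhds 0 (hc r hr).δpos)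
  have hψ' : Tendsto (fun t : ℝ => ψ r (wp m w1 (t, 0))) atTop (𝓝 r) := by
    have := hψ.tendsto.comp hw
    rw [(hc r hr).zero] at this
    exact this
  refine hψ'.congr' ?_
  filter_upwards [eventually_ge_atTop T] with t ht
  exact (hw1' (t, 0) ht).symm

theorem normal_form {Q : ℂ[X]} (h : Good Q) {x : ℂ} (hx : Q.eval x = 1 / 2) {r : ℂ}
    (hr : Q.eval r = 0) (hlim : Tendsto (fun t : ℝ => gl (ev Q) x (t, 0)) atTop (𝓝 r))
    {ψ u : ℂ → ℂ} {δ ε : ℝ} (hc : IsChart Q r ψ u δ ε) :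
    ∃ (w1 : ℂ) (T : ℝ), w1 ^ Q.rootMultiplicity r = 1 ∧ ∀ q : ℝ × ℝ, T ≤ q.1 →
      kap (Q.rootMultiplicity r) q.1 < δ ∧
      gl (ev Q) x q = ψ (wp (Q.rootMultiplicity r) w1 q) := by
  have hm : 0 < Q.rootMultiplicity r := nf_mult_pos h hr
  have e1 : ∀ᶠ T : ℝ in atTop, kap (Q.rootMultiplicity r) T < δ :=
    (tendsto_order.1 (kap_tendsto _ hm)).2 _ hc.δpos
  have e2 : ∀ᶠ T : ℝ in atTop, ‖gl (ev Q) x (T, 0) - r‖ < ε := by
    have := (Metric.tendsto_nhds.1 hlim) ε hc.εpos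
    simpa [dist_eq_norm] using this
  obtain ⟨T, hT1, hT2⟩ := (e1.and e2).exists
  obtain ⟨w1, hw1, hw1'⟩ := nf_of_close h hx hr hc hT1 hT2
  exact ⟨w1, T, hw1, fun q hq => ⟨(kap_anti _ hq).trans_lt hT1, hw1' q hq⟩⟩

end Pool.Agent.H9.GT
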