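import Pool.Agent.H9.GT.Vtx
import Pool.Agent.H9.GT.Torsor
import Pool.Agent.H9.GT.Count

/-!
# The tree of a polynomial (job GT-TREE)

From `vt_surj`, `vt_same`, `vt_period` (applied to `twP i Q`), `moi_sameCycle`, `moi_period`,
`count_roots`, `fb_card`. Note `tw i (ev Q) = ev (twP i Q)` (`tw_ev`) and
`(twP i Q).eval x = 1/2 ↔ Q.eval x = 1/2`.
-/

set_option autoImplicit false

open Polynomial Set

namespace Pool.Agent.H9.GT

theorem twP_half (i : Fin 2) (Q : ℂ[X]) (x : ℂ) :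
    (twP i Q).eval x = 1 / 2 ↔ Q.eval x = 1 / 2 := by
  have h : (twP i Q).eval x = tw i (ev Q) x := (congrFun (tw_ev i Q) x).symm
  rw [h]
  exact tw_half i x

/-- monodromy permutations of a good polynomial -/
noncomputable def pm {Q : ℂ[X]} (h : Good Q) (i : Fin 2) : Equiv.Perm (Fb (ev Q)) :=
  moi (ev Q) (cov_poly h) i

/-- the vertices `Q = 0` (`i = 0`) and `Q = 1` (`i = 1`) -/
abbrev Vt (Q : ℂ[X]) (i : Fin 2) : Type := {r : ℂ // (twP i Q).eval r = 0}

/-- the vertex map -/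
noncomputable def vx {Q : ℂ[X]} (h : Good Q) (i : Fin 2) (x : Fb (ev Q)) : Vt Q i :=
  ⟨vt (twP i Q) x.1, vt_root (h.tw i) ((twP_half i Q x.1).2 x.2)⟩

theorem vt_finite {Q : ℂ[X]} (h : Good Q) (i : Fin 2) : Finite (Vt Q i) :=
  (covp_ev_finite (h.tw i).deg 0).to_subtype

theorem pm_period {Q : ℂ[X]} (h : Good Q) (i : Fin 2) (x : Fb (ev Q)) :
    Function.minimalPeriod (⇑(pm h i)) x = (twP i Q).rootMultiplicity (vt (twP i Q) x.1) := by
  refine moi_period (cov_poly h) i x _ fun n => ?_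
  rw [tw_ev]
  exact vt_period (h.tw i) ((twP_half i Q x.1).2 x.2) n

theorem pm_same {Q : ℂ[X]} (h : Good Q) (i : Fin 2) (x y : Fb (ev Q)) :
    vx h i x = vx h i y ↔ (pm h i).SameCycle x y := by
  have := fb_finite h
  have h1 := moi_sameCycle (cov_poly h) i x y
  rw [tw_ev] at h1
  have h2 := vt_same (h.tw i) ((twP_half i Q x.1).2 x.2) ((twP_half i Q y.1).2 y.2)
  have h3 : vx h i x = vx h i y ↔ vt (twP i Q) x.1 = vt (twP i Q) y.1 := Subtype.ext_iff
  rw [h3, h2]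
  exact h1.symm

theorem vx_surj {Q : ℂ[X]} (h : Good Q) (i : Fin 2) : Function.Surjective (vx h i) := by
  rintro ⟨r, hr⟩
  obtain ⟨x, hx, hv⟩ := vt_surj (h.tw i) hr
  exact ⟨⟨x, (twP_half i Q x).1 hx⟩, Subtype.ext hv⟩

theorem tree_twP_zero (Q : ℂ[X]) : twP 0 Q = Q := if_pos rfl

theorem tree_twP_one (Q : ℂ[X]) : twP 1 Q = 1 - Q := if_neg (by decide)

theorem tree_of_trans {Q : ℂ[X]} (h : Good Q)
    (htr : ∀ x y, ∃ g ∈ Subgroup.closure {pm h 0, pm h 1}, g x = y) :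
    IsTree (pm h 0) (pm h 1) (vx h 0) (vx h 1) where
  surj0 := vx_surj h 0
  surj1 := vx_surj h 1
  same0 := pm_same h 0
  same1 := pm_same h 1
  card := by
    have h1 := count_roots h
    have h2 : Nat.card (Vt Q 0) = Nat.card {x : ℂ // Q.eval x = 0} := by
      unfold Vt
      rw [tree_twP_zero]
    have h3 : Nat.card (Vt Q 1) = Nat.card {x : ℂ // (1 - Q).eval x = 0} := by
      unfold Vt
      rw [tree_twP_one]
    rw [h2, h3, fb_card h, h1]
  trans := htr

end Pool.Agent.H9.GT
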