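import Pool.Agent.H9.GT.NF

/-!
# The vertex map (job GT-VTX)

`vt Q x` is the limit of the lift `gl (ev Q) x (t, 0)` for `t → ∞`, a root of `Q`.

* `vt_period`: with the normal form, `m` the multiplicity of `vt Q x`:
  `gl (ev Q) x (t, n) = ψ (wp m w1 (t, n)) = ψ (wp m (w1 exp(2πin/m)) (t, 0))` for `t ≥ T`
  (`wp_shift`), and `ψ` is injective, so it equals `gl (ev Q) x (t, 0)` iff `exp(2πin/m) = 1` iff
  `m ∣ n`. And `gl (ev Q) x (0, n) = x` iff the lifts `gl (ev Q) x (·, · + n)` and `gl (ev Q) x`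
  agree at `(0, 0)` iff they agree at `(T, 0)` (`gl_shift`, `gl_unique`, `gl_meet`).
* `vt_same`: if `vt Q x = vt Q y` use the same chart for both, a common `T`; the two roots of unity
  `w1, w1'` satisfy `w1' = w1 exp(2πin/m)` for some `n`; then `gl_meet`. Conversely
  `gl (ev Q) (gl (ev Q) x (0, n)) (t, 0) = gl (ev Q) x (t, n) = ψ (..) → r`.
* `vt_surj`: take a chart at `r` and `T` with `kap m T < δ`; `x₁ = ψ (wp m 1 (T, 0))`. By `Cov.ex`
  there is a continuous lift `F` of `Hm` with `F (T, 0) = x₁`; put `x = F (0, 0)`; then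
  `F = gl (ev Q) x` (`gl_unique`), and on `{T ≤ q.1}` it is `ψ ∘ wp m 1` (`Cov.uni`), so it tends
  to `ψ 0 = r`.
* `vt_nat` from `gl_nat`. `vt_path`: uniqueness of lifts on `Ici 0` (a preconnected space).
-/

set_option autoImplicit false

open Polynomial Set Filter Topology

namespace Pool.Agent.H9.GT

/-- the vertex at the end of the lift -/
noncomputable def vt (Q : ℂ[X]) (x : ℂ) : ℂ :=
  limUnder atTop fun t : ℝ => gl (ev Q) x (t, 0)

variable {Q : ℂ[X]}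

theorem vtx_exp (m : ℕ) (hm : 0 < m) (n : ℤ) :
    Complex.exp (2 * Real.pi * n * Complex.I / m) = 1 ↔ (m : ℤ) ∣ n := by
  have hm' : (m : ℂ) ≠ 0 := by
    have : m ≠ 0 := by omega
    exact_mod_cast this
  rw [Complex.exp_eq_one_iff]
  constructor
  · rintro ⟨k, hk⟩
    have h1 : (n : ℂ) = m * k := by
      have hpi : (2 * Real.pi * Complex.I : ℂ) ≠ 0 := Complex.two_pi_I_ne_zero
      apply mul_right_cancel₀ hpi
      have h2 : (n : ℂ) * (2 * Real.pi * Complex.I) =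
          m * (2 * Real.pi * n * Complex.I / m) := by
        field_simp
      rw [h2, hk]
      ring
    exact ⟨k, by exact_mod_cast h1⟩
  · rintro ⟨k, rfl⟩
    refine ⟨k, ?_⟩
    push_cast
    field_simp

theorem vtx_norm {m : ℕ} (hm : 0 < m) {w : ℂ} (h : w ^ m = 1) : ‖w‖ = 1 := by
  have h1 : ‖w‖ ^ m = 1 := by rw [← norm_pow, h, norm_one]
  exact (pow_eq_one_iff_of_nonneg (norm_nonneg _) hm.ne').1 h1

theorem vtx_exp_pow (m : ℕ) (hm : 0 < m) (n : ℤ) :
    Complex.exp (2 * Real.pi * n * Complex.I / m) ^ m = 1 := by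
  have hm' : (m : ℂ) ≠ 0 := by
    have : m ≠ 0 := by omega
    exact_mod_cast this
  rw [← Complex.exp_nat_mul, mul_div_cancel₀ _ hm']
  have h : (2 * Real.pi * n * Complex.I : ℂ) = n * (2 * Real.pi * Complex.I) := by ring
  rw [h, Complex.exp_int_mul_two_pi_mul_I]

theorem vtx_wp_tendsto {m : ℕ} (hm : 0 < m) {w : ℂ} (h : w ^ m = 1) (s : ℝ) :
    Tendsto (fun t : ℝ => wp m w (t, s)) atTop (𝓝 0) := by
  rw [tendsto_zero_iff_norm_tendsto_zero]
  refine (kap_tendsto m hm).congr fun t => ?_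
  exact (wp_norm m w (vtx_norm hm h) (t, s)).symm

theorem vtx_psi_tendsto {r : ℂ} {ψ u : ℂ → ℂ} {δ ε : ℝ} (hc : IsChart Q r ψ u δ ε) {m : ℕ}
    (hm : 0 < m) {w : ℂ} (h : w ^ m = 1) (s : ℝ) :
    Tendsto (fun t : ℝ => ψ (wp m w (t, s))) atTop (𝓝 r) := by
  have hψ : ContinuousAt ψ 0 := hc.cont.continuousAt (Metric.ball_mem_nhds 0 hc.δpos)
  have := hψ.tendsto.comp (vtx_wp_tendsto hm h s)
  rw [hc.zero] at this
  exact this

theorem vt_tendsto (h : Good Q) {x : ℂ} (hx : Q.eval x = 1 / 2) :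
    Tendsto (fun t : ℝ => gl (ev Q) x (t, 0)) atTop (𝓝 (vt Q x)) := by
  obtain ⟨r, _, hr⟩ := exists_limit h hx
  exact tendsto_nhds_limUnder ⟨r, hr⟩

theorem vt_eq (h : Good Q) {x : ℂ} (hx : Q.eval x = 1 / 2) {r : ℂ}
    (hr : Tendsto (fun t : ℝ => gl (ev Q) x (t, 0)) atTop (𝓝 r)) : vt Q x = r :=
  tendsto_nhds_unique (vt_tendsto h hx) hr

theorem vt_root (h : Good Q) {x : ℂ} (hx : Q.eval x = 1 / 2) : Q.eval (vt Q x) = 0 := by
  obtain ⟨r, hr0, hr⟩ := exists_limit h hx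
  rw [vt_eq h hx hr]
  exact hr0

theorem vt_period (h : Good Q) {x : ℂ} (hx : Q.eval x = 1 / 2) (n : ℕ) :
    gl (ev Q) x (0, n) = x ↔ Q.rootMultiplicity (vt Q x) ∣ n := by
  have hcov := cov_poly h
  have hr := vt_root h hx
  obtain ⟨ψ, u, δ, ε, hc⟩ := exists_chart Q h.ne_zero _ hr
  obtain ⟨w1, T, hw1, hnf⟩ := normal_form h hx hr (vt_tendsto h hx) hc
  set m := Q.rootMultiplicity (vt Q x) with hmdef
  have hm : 0 < m := nf_mult_pos h hr
  have hsh := wp_shift m w1 T 0 n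
  have hcast : ((n : ℤ) : ℝ) = (n : ℝ) := Int.cast_natCast n
  have e1 : gl (ev Q) x (T, 0) = ψ (wp m w1 (T, 0)) := (hnf (T, 0) le_rfl).2
  have e2 : gl (ev Q) x (T, ((n : ℤ) : ℝ)) =
      ψ (wp m (w1 * Complex.exp (2 * Real.pi * (n : ℤ) * Complex.I / m)) (T, 0)) := by
    rw [← hsh, zero_add]
    exact (hnf (T, ((n : ℤ) : ℝ)) le_rfl).2
  have hk : kap m T < δ := (hnf (T, 0) le_rfl).1
  have hw2 : (w1 * Complex.exp (2 * Real.pi * (n : ℤ) * Complex.I / m)) ^ m = 1 := by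
    rw [mul_pow, hw1, vtx_exp_pow m hm, one_mul]
  have hb : ∀ w : ℂ, w ^ m = 1 → wp m w (T, 0) ∈ Metric.ball (0 : ℂ) δ := by
    intro w hw
    rw [mem_ball_zero_iff, wp_norm m w (vtx_norm hm hw)]
    exact hk
  have hk0 : (kap m T : ℂ) ≠ 0 := by exact_mod_cast (kap_pos m T).ne'
  have hw10 : w1 ≠ 0 := by
    intro h0
    rw [h0, zero_pow hm.ne'] at hw1
    exact zero_ne_one hw1
  constructor
  · intro h1
    have h2 := gl_shift hcov (e := x) hx n T 0
    rw [hcast, h1, zero_add] at h2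
    rw [hcast] at e2
    rw [← h2, e1] at e2
    have h3 := hc.inj (hb _ hw1) (hb _ hw2) e2
    unfold wp at h3
    simp only [Complex.ofReal_zero, mul_zero, zero_mul, zero_div, Complex.exp_zero, mul_one] at h3
    have h4 := mul_right_cancel₀ hk0 h3
    have h5 : Complex.exp (2 * Real.pi * (n : ℤ) * Complex.I / m) = 1 := by
      apply mul_left_cancel₀ hw10
      rw [← h4, mul_one]
    rw [vtx_exp m hm] at h5
    exact_mod_cast h5
  · intro h1
    have h2 : (m : ℤ) ∣ (n : ℤ) := by exact_mod_cast h1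
    rw [← vtx_exp m hm] at h2
    rw [h2, mul_one, ← e1] at e2
    have h3 := gl_meet hcov (e := x) (e' := x) hx hx T n e2.symm
    rw [hcast] at h3
    exact h3.symm

theorem vt_same (h : Good Q) {x y : ℂ} (hx : Q.eval x = 1 / 2) (hy : Q.eval y = 1 / 2) :
    vt Q x = vt Q y ↔ ∃ n : ℤ, gl (ev Q) x (0, n) = y := by
  have hcov := cov_poly h
  have hr := vt_root h hx
  obtain ⟨ψ, u, δ, ε, hc⟩ := exists_chart Q h.ne_zero _ hr
  obtain ⟨w1, T, hw1, hnf⟩ := normal_form h hx hr (vt_tendsto h hx) hc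
  set m := Q.rootMultiplicity (vt Q x) with hmdef
  have hm : 0 < m := nf_mult_pos h hr
  constructor
  · intro hxy
    have hty : Tendsto (fun t : ℝ => gl (ev Q) y (t, 0)) atTop (𝓝 (vt Q x)) := by
      rw [hxy]
      exact vt_tendsto h hy
    obtain ⟨w2, T', hw2, hnf'⟩ := normal_form h hy hr hty hc
    rw [← hmdef] at hw2 hnf'
    have hw10 : w1 ≠ 0 := by
      intro h0
      rw [h0, zero_pow hm.ne'] at hw1
      exact zero_ne_one hw1
    have hq : (w2 / w1) ^ m = 1 := by rw [div_pow, hw1, hw2, div_one]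
    have : NeZero m := ⟨hm.ne'⟩
    obtain ⟨i, _, hi⟩ := (Complex.isPrimitiveRoot_exp m hm.ne').eq_pow_of_pow_eq_one hq
    have hi' : w2 = w1 * Complex.exp (2 * Real.pi * (i : ℤ) * Complex.I / m) := by
      have h1 : w2 = w1 * (w2 / w1) := by field_simp
      rw [h1, ← hi, ← Complex.exp_nat_mul]
      congr 2
      push_cast
      ring
    refine ⟨i, ?_⟩
    have hsh := wp_shift m w1 (max T T') 0 i
    have e1 : gl (ev Q) y (max T T', 0) = ψ (wp m w2 (max T T', 0)) :=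
      (hnf' (max T T', 0) (le_max_right _ _)).2
    have e2 : gl (ev Q) x (max T T', ((i : ℤ) : ℝ)) = ψ (wp m w1 (max T T', ((i : ℤ) : ℝ))) :=
      (hnf (max T T', ((i : ℤ) : ℝ)) (le_max_left _ _)).2
    rw [zero_add, ← hi'] at hsh
    rw [hsh, ← e1] at e2
    exact (gl_meet hcov (e := x) (e' := y) hx hy (max T T') i e2.symm).symm
  · rintro ⟨n, hn⟩
    symm
    apply vt_eq h hy
    have h1 : ∀ t : ℝ, gl (ev Q) y (t, 0) = gl (ev Q) x (t, n) := by
      intro t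
      have h2 := gl_shift hcov (e := x) hx n t 0
      rw [hn, zero_add] at h2
      exact h2
    refine (vtx_psi_tendsto hc hm hw1 n).congr' ?_
    filter_upwards [eventually_ge_atTop T] with t ht
    rw [h1]
    exact ((hnf (t, (n : ℝ)) ht).2).symm

theorem vt_surj (h : Good Q) {r : ℂ} (hr : Q.eval r = 0) :
    ∃ x, Q.eval x = 1 / 2 ∧ vt Q x = r := by
  have hcov := cov_poly h
  obtain ⟨ψ, u, δ, ε, hc⟩ := exists_chart Q h.ne_zero _ hr
  set m := Q.rootMultiplicity r with hmdef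
  have hm : 0 < m := nf_mult_pos h hr
  obtain ⟨T, hT⟩ := ((tendsto_order.1 (kap_tendsto m hm)).2 _ hc.δpos).exists
  have h1 : (1 : ℂ) ^ m = 1 := one_pow m
  have hball : ∀ q : ℝ × ℝ, T ≤ q.1 → wp m 1 q ∈ Metric.ball (0 : ℂ) δ := by
    intro q hq
    rw [mem_ball_zero_iff, wp_norm m _ (vtx_norm hm h1) q]
    exact (kap_anti m hq).trans_lt hT
  have hev : ∀ q : ℝ × ℝ, T ≤ q.1 → ev Q (ψ (wp m 1 q)) = Hm q := by
    intro q hq
    unfold ev
    rw [hc.eq _ (hball q hq), ← hmdef]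
    exact wp_pow m hm 1 h1 q
  obtain ⟨F, hF, hF0, hFe⟩ := hcov.ex Hm Hm_cont Hm_ne (T, 0) (ψ (wp m 1 (T, 0)))
    (hev (T, 0) le_rfl)
  have hx : Q.eval (F (0, 0)) = 1 / 2 := by
    have := hFe (0, 0)
    rw [Hm_zero] at this
    exact this
  refine ⟨F (0, 0), hx, ?_⟩
  have hFg : F = gl (ev Q) (F (0, 0)) :=
    gl_unique hcov hx F hF hFe (0, 0) (gl_spec hcov (e := F (0, 0)) hx).2.1.symm
  have huni := hcov.uni (A := {q : ℝ × ℝ // T ≤ q.1}) (fun q => F q.1)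
    (fun q => ψ (wp m 1 q.1)) (hF.comp continuous_subtype_val)
    (hc.cont.comp_continuous ((wp_cont m _).comp continuous_subtype_val)
      fun q => hball q.1 q.2)
    (fun q => by rw [hFe q.1, hev q.1 q.2])
    (fun q => by
      rw [hFe q.1]
      exact Hm_ne q.1)
    ⟨(T, 0), le_rfl⟩ hF0
  apply vt_eq h hx
  refine (vtx_psi_tendsto hc hm h1 0).congr' ?_
  filter_upwards [eventually_ge_atTop T] with t ht
  rw [← hFg]
  exact (congrFun huni ⟨(t, 0), ht⟩).symm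

theorem vt_nat {Q' : ℂ[X]} (h : Good Q) (h' : Good Q') (φ : ℂ → ℂ) (hφ : Continuous φ)
    (hQ : ∀ x, Q'.eval (φ x) = Q.eval x) {x : ℂ} (hx : Q.eval x = 1 / 2) :
    vt Q' (φ x) = φ (vt Q x) := by
  apply vt_eq h' (by rw [hQ, hx])
  have h1 : Tendsto (fun t : ℝ => φ (gl (ev Q) x (t, 0))) atTop (𝓝 (φ (vt Q x))) :=
    (hφ.tendsto _).comp (vt_tendsto h hx)
  refine h1.congr fun t => ?_
  exact (gl_nat (cov_poly h) (cov_poly h') φ hφ (fun e => hQ e) (e := x) hx (t, 0)).symm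

theorem vt_path (h : Good Q) {x : ℂ} (hx : Q.eval x = 1 / 2) (γ : ℝ → ℂ)
    (hγ : ContinuousOn γ (Ici 0)) (hγ0 : γ 0 = x) (hγQ : ∀ t ≥ 0, Q.eval (γ t) = Hm (t, 0)) (r : ℂ)
    (hr : Tendsto γ atTop (𝓝 r)) : vt Q x = r := by
  have hcov := cov_poly h
  obtain ⟨hg1, hg2, hg3⟩ := gl_spec hcov (e := x) hx
  have : PreconnectedSpace (Ici (0 : ℝ)) := Subtype.preconnectedSpace isPreconnected_Ici
  have huni := hcov.uni (A := Ici (0 : ℝ)) (fun t => γ t) (fun t => gl (ev Q) x (t, 0))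
    (continuousOn_iff_continuous_restrict.1 hγ) (hg1.comp (by fun_prop))
    (fun t => by
      rw [hg3]
      exact hγQ t t.2)
    (fun t => by
      have h1 : ev Q (γ t) = Hm (t, 0) := hγQ t t.2
      rw [h1]
      exact Hm_ne _)
    ⟨0, by simp⟩ (by
      change γ 0 = gl (ev Q) x (0, 0)
      rw [hγ0, hg2])
  apply vt_eq h hx
  refine hr.congr' ?_
  filter_upwards [eventually_ge_atTop 0] with t ht
  exact congrFun huni ⟨t, ht⟩

end Pool.Agent.H9.GT
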