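import Pool.Agent.H9.GT.Tree
import Pool.Agent.H9.GT.Mult

/-!
# The cyclic cover `z = R(x) = a ((x - h) ^ k - D) + b` (job GT-XTORS)

`Q = T.comp R`. The group `A` of `k`-th roots of unity acts on the fibre of `Q` over `1/2` by
`x ↦ h + ζ (x - h)`, with quotient the fibre of `T` (`x ≠ h` because `T (R h) ∈ {0, 1}`).

`x_tors`: equivariance of `pm` under `x ↦ h + ζ (x - h)` and under `R` is `gl_nat` (both maps are
continuous and compatible with `Q`, `T`; `tw i` of both sides).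

`x_hol`: let `w` be in the fibre of `T`, `V = vt (twP i T) w`, `e` its multiplicity = minimal
period of `w` (`pm_period`), and `x` over `w`. `R (vt (twP i Q) x) = V` (`vt_nat`). `(pm i) ^ e x` is
over `w` (period), so it is `c • x` with `c ∈ A`; `c` is the same for all `x` over `w` because `pm`
commutes with `A`. If `V ≠ R h` then `vt (twP i Q) x ≠ h`, so by `mult_other` (and `twP_comp`) the
minimal period of `x` is `e` and `c = 1`. If `V = R h`: then `(vt (twP i Q) x - h) ^ k = 0`, so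
`vt (twP i Q) x = h` and the period of `x` is `k e` (`mult_center`), `(pm i) ^ (e j) x = c ^ j • x`, so
`c ^ j = 1 ↔ k e ∣ e j ↔ k ∣ j`: `c` has order `k = |A|` and generates `A`
(`Complex.card_rootsOfUnity`). If `w, w'` both have vertex `R h` they are in the same cycle
(`pm_same`), `w' = pm ^ j w`, and `c` is the same because `pm ^ j` commutes with `pm ^ e` and `A`.

`x_trans`: `T`-level transitivity lifts `x` to a point over `π y`; the point can be moved within its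
fibre by a generator of `A`: let `x₀` be a point with `vt (twP i Q) x₀ = h` (`vt_surj`, where
`(twP i Q) h = 0`); the element `(pm i) ^ e` acts on the fibre of `x₀` as `c`, a generator.
-/

set_option autoImplicit false

open Polynomial Set Equiv

namespace Pool.Agent.H9.GT

/-- rotation about `h` -/
noncomputable def rot (h ζ x : ℂ) : ℂ := h + ζ * (x - h)

theorem xt_rp {a b h D : ℂ} {k : ℕ} (ζ : rootsOfUnity k ℂ) (x : ℂ) :
    (Rp a b h D k).eval (rot h ((ζ : ℂˣ) : ℂ) x) = (Rp a b h D k).eval x := by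
  have h1 : ((ζ : ℂˣ) : ℂ) ^ k = 1 := (mem_rootsOfUnity' k _).1 ζ.2
  rw [rp_eval, rp_eval]
  unfold rot
  rw [add_sub_cancel_left, mul_pow, h1, one_mul]

theorem rot_eval {T : ℂ[X]} {a b h D : ℂ} {k : ℕ} (ζ : rootsOfUnity k ℂ) (x : ℂ) :
    (T.comp (Rp a b h D k)).eval (rot h ((ζ : ℂˣ) : ℂ) x) =
      (T.comp (Rp a b h D k)).eval x := by
  rw [eval_comp, eval_comp, xt_rp]

/-- the action of the `k`-th roots of unity on the fibre -/
noncomputable def rotAct (T : ℂ[X]) (a b h D : ℂ) (k : ℕ) :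
    MulAction (rootsOfUnity k ℂ) (Fb (ev (T.comp (Rp a b h D k)))) where
  smul ζ x := ⟨rot h ((ζ : ℂˣ) : ℂ) x.1, (rot_eval ζ x.1).trans x.2⟩
  one_smul x := by
    apply Subtype.ext
    change h + (((1 : rootsOfUnity k ℂ) : ℂˣ) : ℂ) * (x.1 - h) = x.1
    rw [OneMemClass.coe_one, Units.val_one]
    ring
  mul_smul ζ ξ x := by
    apply Subtype.ext
    change h + (((ζ * ξ : rootsOfUnity k ℂ) : ℂˣ) : ℂ) * (x.1 - h) =
      h + ((ζ : ℂˣ) : ℂ) * (h + ((ξ : ℂˣ) : ℂ) * (x.1 - h) - h)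
    rw [Subgroup.coe_mul, Units.val_mul]
    ring

/-- the projection to the fibre of `T` -/
noncomputable def prj (T : ℂ[X]) (a b h D : ℂ) (k : ℕ) (x : Fb (ev (T.comp (Rp a b h D k)))) :
    Fb (ev T) :=
  ⟨(Rp a b h D k).eval x.1, by
    have := x.2
    unfold ev at this ⊢
    rwa [eval_comp] at this⟩

section XtAbs

variable {A X Ω : Type} [CommGroup A] [MulAction A X]

theorem xt_ai {X : Type} (S : Perm X) (x : X) : S (S⁻¹ x) = x := S.apply_symm_apply x

theorem xt_ia {X : Type} (S : Perm X) (x : X) : S⁻¹ (S x) = x := S.symm_apply_apply x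

theorem xt_pow {S : Perm X} (comm : ∀ (a : A) (x : X), S (a • x) = a • S x) (n : ℕ) (a : A)
    (x : X) : (S ^ n) (a • x) = a • (S ^ n) x := by
  induction n with
  | zero => rfl
  | succ n ih => rw [pow_succ', Perm.mul_apply, ih, comm, Perm.mul_apply]

theorem xt_inv {S : Perm X} (comm : ∀ (a : A) (x : X), S (a • x) = a • S x) (a : A)
    (x : X) : S⁻¹ (a • x) = a • S⁻¹ x := by
  rw [Perm.inv_eq_iff_eq, comm]
  exact congrArg _ (xt_ai S x).symm

theorem xt_cov {π : X → Ω} {p : Perm Ω} {S : Perm X} (cov : ∀ x, π (S x) = p (π x)) (n : ℕ)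
    (x : X) : π ((S ^ n) x) = (p ^ n) (π x) := by
  induction n with
  | zero => rfl
  | succ n ih => rw [pow_succ', Perm.mul_apply, cov, ih, pow_succ', Perm.mul_apply]

theorem xt_cov_inv {π : X → Ω} {p : Perm Ω} {S : Perm X} (cov : ∀ x, π (S x) = p (π x))
    (x : X) : π (S⁻¹ x) = p⁻¹ (π x) := by
  rw [eq_comm, Perm.inv_eq_iff_eq, ← cov]
  exact congrArg π (xt_ai S x).symm

theorem xt_hol_abs {π : X → Ω} {p : Perm Ω} {S : Perm X} (surj : Function.Surjective π)
    (orbit : ∀ x y : X, π x = π y ↔ ∃ a : A, a • x = y)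
    (free : ∀ (a : A) (x : X), a • x = x → a = 1)
    (comm : ∀ (a : A) (x : X), S (a • x) = a • S x) (cov : ∀ x, π (S x) = p (π x)) :
    ∃ c : Ω → A,
      (∀ x, (S ^ Function.minimalPeriod (⇑p) (π x)) x = c (π x) • x) ∧
      (∀ x, Function.minimalPeriod (⇑S) x = Function.minimalPeriod (⇑p) (π x) → c (π x) = 1) ∧
      (∀ w w', p.SameCycle w w' →
        Function.minimalPeriod (⇑p) w = Function.minimalPeriod (⇑p) w' → c w = c w') ∧
      ∀ (x : X) (k : ℕ), 0 < Function.minimalPeriod (⇑p) (π x) →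
        Function.minimalPeriod (⇑S) x = k * Function.minimalPeriod (⇑p) (π x) →
        ∀ j : ℕ, c (π x) ^ j = 1 → k ∣ j := by
  choose s hs using surj
  have h0 : ∀ w, ∃ a : A, a • s w = (S ^ Function.minimalPeriod (⇑p) w) (s w) := by
    intro w
    refine (orbit _ _).1 ?_
    rw [xt_cov cov, hs, ← Perm.iterate_eq_pow, Function.iterate_minimalPeriod]
  choose c hc using h0
  have h1 : ∀ x, (S ^ Function.minimalPeriod (⇑p) (π x)) x = c (π x) • x := by
    intro x
    obtain ⟨a, ha⟩ := (orbit (s (π x)) x).1 (hs _)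
    have h2 := hc (π x)
    have h3 : (S ^ Function.minimalPeriod (⇑p) (π x)) (a • s (π x)) = c (π x) • (a • s (π x)) := by
      rw [xt_pow comm, ← h2, smul_comm]
    rwa [ha] at h3
  have h2 : ∀ (x : X) (j : ℕ), (S ^ (Function.minimalPeriod (⇑p) (π x) * j)) x =
      c (π x) ^ j • x := by
    intro x j
    induction j with
    | zero => simp
    | succ j ih =>
      rw [mul_add, mul_one, pow_add, Perm.mul_apply, h1, xt_pow comm, ih, ← mul_smul, pow_succ']
  refine ⟨c, h1, fun x hx => ?_, fun w w' hw he => ?_, fun x k hp hk j hj => ?_⟩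
  · refine free _ x ?_
    rw [← h1, ← hx, ← Perm.iterate_eq_pow, Function.iterate_minimalPeriod]
  · obtain ⟨n, hn⟩ := hw
    have h3 : ∀ n : ℤ, (S ^ n) (s w) = (S ^ n) (s w) ∧ π ((S ^ n) (s w)) = (p ^ n) w := by
      intro n
      refine ⟨rfl, ?_⟩
      obtain ⟨m, rfl | rfl⟩ := n.eq_nat_or_neg
      · rw [zpow_natCast, zpow_natCast, xt_cov cov, hs]
      · rw [zpow_neg, zpow_neg, zpow_natCast, zpow_natCast]
        rw [xt_cov_inv (S := S ^ m) (p := p ^ m) (xt_cov cov m), hs]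
    have h4 : ∀ n : ℤ, ∀ (a : A) (x : X), (S ^ n) (a • x) = a • (S ^ n) x := by
      intro n a x
      obtain ⟨m, rfl | rfl⟩ := n.eq_nat_or_neg
      · rw [zpow_natCast, xt_pow comm]
      · rw [zpow_neg, zpow_natCast]
        exact xt_inv (S := S ^ m) (xt_pow comm m) a x
    have h5 := h1 ((S ^ n) (s w))
    rw [(h3 n).2, hn] at h5
    have h6 := h1 (s w)
    rw [hs, he] at h6
    have h7 : (S ^ Function.minimalPeriod (⇑p) w') ((S ^ n) (s w)) =
        (S ^ n) ((S ^ Function.minimalPeriod (⇑p) w') (s w)) := by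
      rw [← Perm.mul_apply, ← Perm.mul_apply, ← zpow_natCast, ← zpow_add, ← zpow_add, add_comm]
    rw [h7, h6, h4] at h5
    exact tors_eq free h5
  · have h3 : Function.minimalPeriod (⇑S) x ∣ Function.minimalPeriod (⇑p) (π x) * j := by
      rw [← Function.isPeriodicPt_iff_minimalPeriod_dvd]
      unfold Function.IsPeriodicPt Function.IsFixedPt
      rw [Perm.iterate_eq_pow, h2, hj, one_smul]
    rw [hk, mul_comm] at h3
    exact Nat.dvd_of_mul_dvd_mul_left hp h3

theorem xt_trans_abs {π : X → Ω} {p0 p1 : Perm Ω} {S0 S1 : Perm X}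
    (ht : IsTors A π p0 p1 S0 S1)
    (htr : ∀ x y, ∃ g ∈ Subgroup.closure {p0, p1}, g x = y) (x₀ : X)
    (hx₀ : ∀ a : A, ∃ g ∈ Subgroup.closure {S0, S1}, g x₀ = a • x₀) :
    ∀ x y, ∃ g ∈ Subgroup.closure {S0, S1}, g x = y := by
  have hcomm : ∀ g ∈ Subgroup.closure {S0, S1}, ∀ (a : A) (x : X), g (a • x) = a • g x := by
    intro g hg
    induction hg using Subgroup.closure_induction with
    | mem g hg =>
      rcases hg with rfl | hg
      · exact ht.comm0
      · rw [Set.mem_singleton_iff] at hg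
        rw [hg]
        exact ht.comm1
    | one => intro a x; rfl
    | mul g g' _ _ h h' => intro a x; rw [Perm.mul_apply, h', h, Perm.mul_apply]
    | inv g _ h => exact xt_inv h
  have hlift : ∀ g ∈ Subgroup.closure {p0, p1}, ∃ g' ∈ Subgroup.closure {S0, S1},
      ∀ x, π (g' x) = g (π x) := by
    intro g hg
    induction hg using Subgroup.closure_induction with
    | mem g hg =>
      rcases hg with rfl | hg
      · exact ⟨S0, Subgroup.subset_closure (Or.inl rfl), ht.cov0⟩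
      · rw [Set.mem_singleton_iff] at hg
        rw [hg]
        exact ⟨S1, Subgroup.subset_closure (Or.inr rfl), ht.cov1⟩
    | one => exact ⟨1, one_mem _, fun x => rfl⟩
    | mul g g' _ _ h h' =>
      obtain ⟨f, hf, hf2⟩ := h
      obtain ⟨f', hf', hf2'⟩ := h'
      exact ⟨f * f', mul_mem hf hf', fun x => by
        rw [Perm.mul_apply, hf2, hf2', Perm.mul_apply]⟩
    | inv g _ h =>
      obtain ⟨f, hf, hf2⟩ := h
      exact ⟨f⁻¹, inv_mem hf, xt_cov_inv hf2⟩
  have hto : ∀ x y, ∃ g ∈ Subgroup.closure {S0, S1}, ∃ a : A, a • y = g x := by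
    intro x y
    obtain ⟨g, hg, hgx⟩ := htr (π x) (π y)
    obtain ⟨g', hg', hg2⟩ := hlift g hg
    exact ⟨g', hg', (ht.orbit _ _).1 (by rw [hg2, hgx])⟩
  have hall : ∀ (x : X) (a : A), ∃ g ∈ Subgroup.closure {S0, S1}, g x = a • x := by
    intro x a
    obtain ⟨f, hf, b, hb⟩ := hto x x₀
    obtain ⟨g, hg, hg2⟩ := hx₀ a
    refine ⟨f⁻¹ * g * f, mul_mem (mul_mem (inv_mem hf) hg) hf, ?_⟩
    rw [Perm.mul_apply, Perm.mul_apply, ← hb, hcomm g hg, hg2, smul_comm, hb,
      hcomm _ (inv_mem hf), xt_ia]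
  intro x y
  obtain ⟨f, hf, b, hb⟩ := hto x y
  obtain ⟨g, hg, hg2⟩ := hall (f x) b⁻¹
  refine ⟨g * f, mul_mem hg hf, ?_⟩
  rw [Perm.mul_apply, hg2, ← hb, inv_smul_smul]

end XtAbs

section XtConc

variable {T : ℂ[X]} {a b h D : ℂ} {k : ℕ}

theorem xt_tw (i : Fin 2) (ζ : rootsOfUnity k ℂ) (x : ℂ) :
    tw i (ev (T.comp (Rp a b h D k))) (rot h ((ζ : ℂˣ) : ℂ) x) =
      tw i (ev (T.comp (Rp a b h D k))) x := by
  unfold tw ev
  rw [rot_eval]

theorem xt_tw' (i : Fin 2) (x : ℂ) :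
    tw i (ev T) ((Rp a b h D k).eval x) = tw i (ev (T.comp (Rp a b h D k))) x := by
  unfold tw ev
  rw [eval_comp]

theorem xt_rot_cont (h ζ : ℂ) : Continuous (rot h ζ) := by
  unfold rot
  fun_prop

theorem xt_ne_h (hc : T.eval ((Rp a b h D k).eval h) = 0 ∨ T.eval ((Rp a b h D k).eval h) = 1)
    (x : Fb (ev (T.comp (Rp a b h D k)))) : x.1 - h ≠ 0 := by
  intro h0
  have h1 := x.2
  unfold ev at h1
  rw [sub_eq_zero.1 h0, eval_comp] at h1
  rcases hc with h2 | h2
  · rw [h2] at h1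
    norm_num at h1
  · rw [h2] at h1
    norm_num at h1

theorem xt_comm (hQ : Good (T.comp (Rp a b h D k))) (i : Fin 2) :
    letI := rotAct T a b h D k
    ∀ (ζ : rootsOfUnity k ℂ) (x : Fb (ev (T.comp (Rp a b h D k)))),
      pm hQ i (ζ • x) = ζ • pm hQ i x := by
  intro ζ x
  apply Subtype.ext
  exact gl_nat ((cov_poly hQ).tw i) ((cov_poly hQ).tw i) (rot h ((ζ : ℂˣ) : ℂ))
    (xt_rot_cont _ _) (xt_tw i ζ) ((tw_half i x.1).2 x.2) (0, 1)

theorem xt_covp (hT : Good T) (hQ : Good (T.comp (Rp a b h D k))) (i : Fin 2)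
    (x : Fb (ev (T.comp (Rp a b h D k)))) :
    prj T a b h D k (pm hQ i x) = pm hT i (prj T a b h D k x) := by
  apply Subtype.ext
  exact (gl_nat ((cov_poly hQ).tw i) ((cov_poly hT).tw i) (fun x => (Rp a b h D k).eval x)
    (Polynomial.continuous _) (xt_tw' i) ((tw_half i x.1).2 x.2) (0, 1)).symm

theorem xt_surj (T : ℂ[X]) {a b h D : ℂ} {k : ℕ} (ha : a ≠ 0) (hk : 0 < k) :
    Function.Surjective (prj T a b h D k) := by
  intro w
  obtain ⟨z, hz⟩ := IsAlgClosed.exists_pow_nat_eq ((w.1 - b) / a + D) hk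
  have h1 : (Rp a b h D k).eval (h + z) = w.1 := by
    rw [rp_eval, add_sub_cancel_left, hz]
    field_simp
    ring
  refine ⟨⟨h + z, ?_⟩, Subtype.ext h1⟩
  have := w.2
  unfold ev at this ⊢
  rw [eval_comp, h1, this]

theorem xt_orbit (ha : a ≠ 0) (hk : 0 < k)
    (hc : T.eval ((Rp a b h D k).eval h) = 0 ∨ T.eval ((Rp a b h D k).eval h) = 1) :
    letI := rotAct T a b h D k
    ∀ x y : Fb (ev (T.comp (Rp a b h D k))),
      prj T a b h D k x = prj T a b h D k y ↔ ∃ ζ : rootsOfUnity k ℂ, ζ • x = y := by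
  intro x y
  constructor
  · intro h1
    have h2 : (Rp a b h D k).eval x.1 = (Rp a b h D k).eval y.1 := congrArg Subtype.val h1
    rw [rp_eval, rp_eval] at h2
    have h3 : (x.1 - h) ^ k = (y.1 - h) ^ k := by
      have h4 : a * ((x.1 - h) ^ k - (y.1 - h) ^ k) = 0 := by linear_combination h2
      exact sub_eq_zero.1 ((mul_eq_zero.1 h4).resolve_left ha)
    have hx := xt_ne_h hc x
    have h5 : ((y.1 - h) / (x.1 - h)) ^ k = 1 := by
      rw [div_pow, h3, div_self (pow_ne_zero _ (xt_ne_h hc y))]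
    have : NeZero k := ⟨hk.ne'⟩
    refine ⟨rootsOfUnity.mkOfPowEq _ h5, Subtype.ext ?_⟩
    change h + ((rootsOfUnity.mkOfPowEq _ h5 : ℂˣ) : ℂ) * (x.1 - h) = y.1
    rw [rootsOfUnity.coe_mkOfPowEq]
    field_simp
    ring
  · rintro ⟨ζ, rfl⟩
    exact Subtype.ext (xt_rp ζ x.1).symm

theorem xt_free
    (hc : T.eval ((Rp a b h D k).eval h) = 0 ∨ T.eval ((Rp a b h D k).eval h) = 1) :
    letI := rotAct T a b h D k
    ∀ (ζ : rootsOfUnity k ℂ) (x : Fb (ev (T.comp (Rp a b h D k)))), ζ • x = x → ζ = 1 := by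
  intro ζ x hx
  have h1 : h + ((ζ : ℂˣ) : ℂ) * (x.1 - h) = x.1 := congrArg Subtype.val hx
  have h2 : (((ζ : ℂˣ) : ℂ) - 1) * (x.1 - h) = 0 := by linear_combination h1
  have h3 := sub_eq_zero.1 ((mul_eq_zero.1 h2).resolve_right (xt_ne_h hc x))
  exact Subtype.ext (Units.ext h3)

end XtConc

theorem x_tors {T : ℂ[X]} (hT : Good T) {a b h D : ℂ} {k : ℕ} (ha : a ≠ 0) (hk : 0 < k)
    (hc : T.eval ((Rp a b h D k).eval h) = 0 ∨ T.eval ((Rp a b h D k).eval h) = 1)
    (hQ : Good (T.comp (Rp a b h D k))) :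
    letI := rotAct T a b h D k
    IsTors (rootsOfUnity k ℂ) (prj T a b h D k) (pm hT 0) (pm hT 1) (pm hQ 0) (pm hQ 1) := by
  letI := rotAct T a b h D k
  exact ⟨xt_surj T ha hk, xt_orbit ha hk hc, xt_free hc, xt_comm hQ 0, xt_comm hQ 1,
    xt_covp hT hQ 0, xt_covp hT hQ 1⟩

/-- the vertex map is equivariant and compatible with the projection -/
theorem vt_rot {T : ℂ[X]} {a b h D : ℂ} {k : ℕ} (hQ : Good (T.comp (Rp a b h D k))) (i : Fin 2)
    (ζ : rootsOfUnity k ℂ) {x : ℂ} (hx : (T.comp (Rp a b h D k)).eval x = 1 / 2) :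
    vt (twP i (T.comp (Rp a b h D k))) (rot h ((ζ : ℂˣ) : ℂ) x) =
      rot h ((ζ : ℂˣ) : ℂ) (vt (twP i (T.comp (Rp a b h D k))) x) := by
  refine vt_nat (hQ.tw i) (hQ.tw i) _ (xt_rot_cont _ _) (fun y => ?_) ((twP_half i _ x).2 hx)
  rw [twP_comp, rot_eval]

theorem vt_prj {T : ℂ[X]} (hT : Good T) {a b h D : ℂ} {k : ℕ}
    (hQ : Good (T.comp (Rp a b h D k))) (i : Fin 2) {x : ℂ}
    (hx : (T.comp (Rp a b h D k)).eval x = 1 / 2) :
    vt (twP i T) ((Rp a b h D k).eval x) =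
      (Rp a b h D k).eval (vt (twP i (T.comp (Rp a b h D k))) x) := by
  refine vt_nat (hQ.tw i) (hT.tw i) (fun y => (Rp a b h D k).eval y) (Polynomial.continuous _)
    (fun y => ?_) ((twP_half i _ x).2 hx)
  rw [twP_comp, eval_comp]

theorem xt_period_T {T : ℂ[X]} (hT : Good T) {a b h D : ℂ} {k : ℕ}
    (hQ : Good (T.comp (Rp a b h D k))) (i : Fin 2) (x : Fb (ev (T.comp (Rp a b h D k)))) :
    Function.minimalPeriod (⇑(pm hT i)) (prj T a b h D k x) = (twP i T).rootMultiplicity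
      ((Rp a b h D k).eval (vt (twP i (T.comp (Rp a b h D k))) x.1)) := by
  rw [pm_period, ← vt_prj hT hQ i x.2]
  rfl

theorem x_hol {T : ℂ[X]} (hT : Good T) {a b h D : ℂ} {k : ℕ} (ha : a ≠ 0) (hk : 0 < k)
    (hc : T.eval ((Rp a b h D k).eval h) = 0 ∨ T.eval ((Rp a b h D k).eval h) = 1)
    (hQ : Good (T.comp (Rp a b h D k))) (i : Fin 2) :
    letI := rotAct T a b h D k
    ∃ c : Fb (ev T) → rootsOfUnity k ℂ,
      (∀ x, (pm hQ i ^ Function.minimalPeriod (⇑(pm hT i)) (prj T a b h D k x)) x =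
        c (prj T a b h D k x) • x) ∧
      (∀ w, vt (twP i T) w.1 ≠ (Rp a b h D k).eval h → c w = 1) ∧
      (∀ w w', vt (twP i T) w.1 = (Rp a b h D k).eval h →
        vt (twP i T) w'.1 = (Rp a b h D k).eval h → c w = c w') ∧
      ∀ w, vt (twP i T) w.1 = (Rp a b h D k).eval h → ∀ ζ, ∃ j : ℕ, c w ^ j = ζ := by
  letI := rotAct T a b h D k
  obtain ⟨c, h1, h2, h3, h4⟩ := xt_hol_abs (A := rootsOfUnity k ℂ) (xt_surj T ha hk)
    (xt_orbit ha hk hc) (xt_free hc) (xt_comm hQ i) (xt_covp hT hQ i)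
  have hTi : twP i T ≠ 0 := (hT.tw i).ne_zero
  refine ⟨c, h1, fun w hw => ?_, fun w w' hw hw' => ?_, fun w hw ζ => ?_⟩
  · obtain ⟨x, rfl⟩ := xt_surj (a := a) (b := b) (h := h) (D := D) T ha hk w
    refine h2 x ?_
    rw [xt_period_T hT hQ, pm_period, twP_comp]
    refine mult_other hTi ha hk ?_
    intro h5
    apply hw
    have h6 := vt_prj hT hQ i (x := x.1) x.2
    rw [twP_comp, h5] at h6
    exact h6
  · refine h3 w w' ?_ ?_
    · rw [← pm_same]
      exact Subtype.ext (hw.trans hw'.symm)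
    · rw [pm_period, pm_period, hw, hw']
  · obtain ⟨x, rfl⟩ := xt_surj (a := a) (b := b) (h := h) (D := D) T ha hk w
    have h6 := vt_prj hT hQ i (x := x.1) x.2
    have hw2 : vt (twP i T) ((Rp a b h D k).eval x.1) = (Rp a b h D k).eval h := hw
    have h7 : vt (twP i (T.comp (Rp a b h D k))) x.1 = h := by
      rw [hw2, rp_eval, rp_eval, sub_self, zero_pow hk.ne'] at h6
      have h8 : a * (vt (twP i (T.comp (Rp a b h D k))) x.1 - h) ^ k = 0 := by
        linear_combination -h6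
      have h9 := (mul_eq_zero.1 h8).resolve_left ha
      exact sub_eq_zero.1 (pow_eq_zero_iff hk.ne' |>.1 h9)
    have h8 : Function.minimalPeriod (⇑(pm hQ i)) x =
        k * Function.minimalPeriod (⇑(pm hT i)) (prj T a b h D k x) := by
      rw [xt_period_T hT hQ, pm_period, h7, twP_comp]
      exact mult_center hTi ha hk
    have h9 : 0 < Function.minimalPeriod (⇑(pm hT i)) (prj T a b h D k x) := by
      rw [pm_period, rootMultiplicity_pos hTi]
      exact vt_root (hT.tw i) ((twP_half i T _).2 (prj T a b h D k x).2)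
    have h10 := h4 x k h9 h8
    have h11 : IsPrimitiveRoot ((c (prj T a b h D k x) : ℂˣ) : ℂ) k := by
      refine ⟨(mem_rootsOfUnity' k _).1 (c (prj T a b h D k x)).2, fun l hl => h10 l ?_⟩
      exact Subtype.ext (Units.ext hl)
    have : NeZero k := ⟨hk.ne'⟩
    obtain ⟨j, _, hj⟩ := h11.eq_pow_of_pow_eq_one ((mem_rootsOfUnity' k _).1 ζ.2)
    exact ⟨j, Subtype.ext (Units.ext hj)⟩

theorem x_trans {T : ℂ[X]} (hT : Good T) {a b h D : ℂ} {k : ℕ} (ha : a ≠ 0) (hk : 0 < k)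
    (hc : T.eval ((Rp a b h D k).eval h) = 0 ∨ T.eval ((Rp a b h D k).eval h) = 1)
    (hQ : Good (T.comp (Rp a b h D k)))
    (htr : ∀ x y, ∃ g ∈ Subgroup.closure {pm hT 0, pm hT 1}, g x = y) :
    ∀ x y, ∃ g ∈ Subgroup.closure {pm hQ 0, pm hQ 1}, g x = y := by
  letI := rotAct T a b h D k
  have hi : ∃ i : Fin 2, (twP i T).eval ((Rp a b h D k).eval h) = 0 := by
    rcases hc with h1 | h1
    · exact ⟨0, by simpa [twP] using h1⟩
    · exact ⟨1, by simp [twP, h1]⟩
  obtain ⟨i, hi⟩ := hi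
  have h1 : (twP i (T.comp (Rp a b h D k))).eval h = 0 := by
    rw [twP_comp, eval_comp, hi]
  obtain ⟨x, hx, hxh⟩ := vt_surj (hQ.tw i) h1
  rw [twP_half] at hx
  obtain ⟨c, hc1, hc2, hc3, hc4⟩ := x_hol hT ha hk hc hQ i
  have hw : vt (twP i T) (prj T a b h D k ⟨x, hx⟩).1 = (Rp a b h D k).eval h := by
    have := vt_prj hT hQ i hx
    rw [hxh] at this
    exact this
  refine xt_trans_abs (A := rootsOfUnity k ℂ) (x_tors hT ha hk hc hQ) htr ⟨x, hx⟩ fun ζ => ?_
  obtain ⟨j, hj⟩ := hc4 _ hw ζ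
  have hmem : pm hQ i ∈ Subgroup.closure {pm hQ 0, pm hQ 1} := by
    refine Subgroup.subset_closure ?_
    fin_cases i
    · exact Or.inl rfl
    · exact Or.inr rfl
  refine ⟨(pm hQ i ^ Function.minimalPeriod (⇑(pm hT i)) (prj T a b h D k ⟨x, hx⟩)) ^ j,
    pow_mem (pow_mem hmem _) _, ?_⟩
  rw [← hj]
  clear hj
  have h5 := hc1 ⟨x, hx⟩
  induction j with
  | zero => simp
  | succ j ih =>
    rw [pow_succ, Perm.mul_apply, h5, ← pow_mul, xt_pow (xt_comm hQ i), pow_mul, ih, ← mul_smul,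
      pow_succ']

end Pool.Agent.H9.GT
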